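import Mathlib

/-!
# Averages over finite product spaces and a Cauchy–Schwarz (Finner) inequality
-/

set_option linter.unusedSectionVars false

open Finset Function

namespace Pool.Agent.Frob61

/-! ### Averages -/

/-- Average of a function on a finite type. -/
noncomputable def av {α : Type*} [Fintype α] (f : α → ℝ) : ℝ := (∑ a, f a) / Fintype.card α

section av

variable {α β : Type*} [Fintype α] [Fintype β] [Nonempty α]

theorem card_pos' : (0 : ℝ) < Fintype.card α := by exact_mod_cast Fintype.card_pos

theorem av_const (c : ℝ) : av (fun _ : α => c) = c := by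
  unfold av
  have := card_pos' (α := α)
  simp only [Finset.sum_const, Finset.card_univ, nsmul_eq_mul]
  field_simp

theorem av_nonneg {f : α → ℝ} (h : ∀ a, 0 ≤ f a) : 0 ≤ av f :=
  div_nonneg (Finset.sum_nonneg fun a _ => h a) (Nat.cast_nonneg _)

theorem av_mono {f g : α → ℝ} (h : ∀ a, f a ≤ g a) : av f ≤ av g :=
  div_le_div_of_nonneg_right (Finset.sum_le_sum fun a _ => h a) (Nat.cast_nonneg _)

theorem av_mul_left (c : ℝ) (f : α → ℝ) : av (fun a => c * f a) = c * av f := by
  unfold av
  rw [← Finset.mul_sum, mul_div_assoc]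

theorem av_mul_right (c : ℝ) (f : α → ℝ) : av (fun a => f a * c) = av f * c := by
  unfold av
  rw [← Finset.sum_mul]
  ring

theorem av_comm (f : α → β → ℝ) : av (fun a => av (fun b => f a b)) =
    av (fun b => av (fun a => f a b)) := by
  unfold av
  rw [← Finset.sum_div, ← Finset.sum_div, Finset.sum_comm]
  ring

theorem abs_av_le (f : α → ℝ) : |av f| ≤ av (fun a => |f a|) := by
  unfold av
  rw [abs_div, abs_of_pos (card_pos' (α := α))]
  exact div_le_div_of_nonneg_right (Finset.abs_sum_le_sum_abs _ _) (Nat.cast_nonneg _)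

theorem av_mul_sq_le (f g : α → ℝ) : (av (fun a => f a * g a)) ^ 2 ≤
    av (fun a => f a ^ 2) * av (fun a => g a ^ 2) := by
  unfold av
  have h := Finset.sum_mul_sq_le_sq_mul_sq Finset.univ f g
  have hc := card_pos' (α := α)
  rw [div_pow, div_mul_div_comm, ← sq]
  exact div_le_div_of_nonneg_right h (by positivity)

theorem av_mul_le_sqrt (f g : α → ℝ) : av (fun a => f a * g a) ≤
    √(av (fun a => f a ^ 2)) * √(av (fun a => g a ^ 2)) := by
  rw [← Real.sqrt_mul (av_nonneg fun a => sq_nonneg _)]
  exact Real.le_sqrt_of_sq_le (av_mul_sq_le f g)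

theorem av_le_sqrt (f : α → ℝ) : av f ≤ √(av (fun a => f a ^ 2)) := by
  have h := av_mul_le_sqrt f (fun _ => 1)
  simpa [av_const] using h

/-- One-dimensional inequality. -/
theorem av_prod_le {V : Type*} [Fintype V] [DecidableEq V] (f : V → α → ℝ)
    (hf : ∀ v a, 0 ≤ f v a) (v v' : V)
    (h : ∀ w, w ≠ v → w ≠ v' → ∀ a b, f w a = f w b) :
    av (fun a => ∏ w, f w a) ≤ ∏ w, √(av (fun a => f w a ^ 2)) := by
  classical
  obtain ⟨a₀⟩ := id ‹Nonempty α›
  have hconst : ∀ w, w ≠ v → w ≠ v' → √(av (fun a => f w a ^ 2)) = f w a₀ := by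
    intro w h1 h2
    have : (fun a => f w a ^ 2) = fun _ => f w a₀ ^ 2 := by
      funext a
      rw [h w h1 h2 a a₀]
    rw [this, av_const, Real.sqrt_sq (hf _ _)]
  rcases eq_or_ne v v' with heq | hne
  · subst heq
    have h1 : ∀ a, ∏ w, f w a = f v a * ∏ w ∈ univ.erase v, f w a₀ := by
      intro a
      rw [← Finset.mul_prod_erase univ (fun w => f w a) (mem_univ v)]
      congr 1
      refine Finset.prod_congr rfl fun w hw => ?_
      have := Finset.ne_of_mem_erase hw
      exact h w this this a a₀
    rw [← Finset.mul_prod_erase univ (fun w => √(av (fun a => f w a ^ 2))) (mem_univ v)]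
    have h2 : ∏ w ∈ univ.erase v, √(av (fun a => f w a ^ 2)) = ∏ w ∈ univ.erase v, f w a₀ := by
      refine Finset.prod_congr rfl fun w hw => ?_
      have := Finset.ne_of_mem_erase hw
      exact hconst w this this
    simp only [h1, h2]
    rw [av_mul_right]
    exact mul_le_mul_of_nonneg_right (av_le_sqrt _) (Finset.prod_nonneg fun w _ => hf _ _)
  · have hv' : v' ∈ univ.erase v := Finset.mem_erase.2 ⟨hne.symm, mem_univ _⟩
    have h1 : ∀ a, ∏ w, f w a = (f v a * f v' a) * ∏ w ∈ (univ.erase v).erase v', f w a₀ := by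
      intro a
      rw [← Finset.mul_prod_erase univ (fun w => f w a) (mem_univ v),
        ← Finset.mul_prod_erase (univ.erase v) (fun w => f w a) hv', ← mul_assoc]
      congr 1
      refine Finset.prod_congr rfl fun w hw => ?_
      have e1 := Finset.ne_of_mem_erase hw
      have e2 := Finset.ne_of_mem_erase (Finset.mem_of_mem_erase hw)
      exact h w e2 e1 a a₀
    rw [← Finset.mul_prod_erase univ (fun w => √(av (fun a => f w a ^ 2))) (mem_univ v),
        ← Finset.mul_prod_erase (univ.erase v) (fun w => √(av (fun a => f w a ^ 2))) hv',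
        ← mul_assoc]
    have h2 : ∏ w ∈ (univ.erase v).erase v', √(av (fun a => f w a ^ 2)) =
        ∏ w ∈ (univ.erase v).erase v', f w a₀ := by
      refine Finset.prod_congr rfl fun w hw => ?_
      have e1 := Finset.ne_of_mem_erase hw
      have e2 := Finset.ne_of_mem_erase (Finset.mem_of_mem_erase hw)
      exact hconst w e2 e1
    simp only [h1, h2]
    rw [av_mul_right]
    exact mul_le_mul_of_nonneg_right (av_mul_le_sqrt _ _) (Finset.prod_nonneg fun w _ => hf _ _)

end av

/-! ### Resampling -/

variable {A : Type*} [Fintype A] [Nonempty A] {E : Type*} [Fintype E] [DecidableEq E]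

/-- Exchange the value at `e`. -/
def exch (e : E) : (E → A) × A ≃ (E → A) × A where
  toFun p := (update p.1 e p.2, p.1 e)
  invFun p := (update p.1 e p.2, p.1 e)
  left_inv p := by simp
  right_inv p := by simp

theorem av_update (e : E) (F : (E → A) → ℝ) :
    av (fun y : E → A => av (fun a : A => F (update y e a))) = av F := by
  unfold av
  rw [← Finset.sum_div]
  have h1 : (∑ y : E → A, ∑ a : A, F (update y e a)) = ∑ y : E → A, ∑ _a : A, F y := by
    rw [← Fintype.sum_prod_type' (fun (y : E → A) (a : A) => F (update y e a)),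
      ← Fintype.sum_prod_type' (fun (y : E → A) (_ : A) => F y),
      ← Equiv.sum_comp (exch (A := A) e) (fun p : (E → A) × A => F p.1)]
    rfl
  rw [h1]
  simp only [Finset.sum_const, Finset.card_univ, nsmul_eq_mul, ← Finset.mul_sum]
  have := card_pos' (α := A)
  field_simp

/-- Partial average. -/
noncomputable def Av (T : Finset E) (F : (E → A) → ℝ) (y : E → A) : ℝ :=
  av fun z : E → A => F (T.piecewise z y)

/-- Independence of a coordinate. -/
def Ind (F : (E → A) → ℝ) (e : E) : Prop := ∀ y a, F (update y e a) = F y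

theorem Av_empty (F : (E → A) → ℝ) (y : E → A) : Av ∅ F y = F y := by
  unfold Av
  simp [av_const]

theorem Av_univ (F : (E → A) → ℝ) (y : E → A) : Av univ F y = av F := by
  unfold Av
  simp

theorem piecewise_update_mem {T : Finset E} {e : E} (he : e ∈ T) (z y : E → A) (a : A) :
    T.piecewise z (update y e a) = T.piecewise z y := by
  funext i
  by_cases hi : i ∈ T
  · simp [hi]
  · have : i ≠ e := fun h => hi (h ▸ he)
    simp [hi, this]

theorem piecewise_update_notMem {T : Finset E} {e : E} (he : e ∉ T) (z y : E → A) (a : A) :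
    T.piecewise z (update y e a) = update (T.piecewise z y) e a := by
  funext i
  by_cases hi : i ∈ T
  · have : i ≠ e := fun h => he (h ▸ hi)
    simp [hi, this]
  · by_cases h : i = e
    · subst h; simp [he]
    · simp [hi, h]

theorem piecewise_insert_update {T : Finset E} {e : E} (he : e ∉ T) (z y : E → A) (a : A) :
    T.piecewise z (update y e a) = (insert e T).piecewise (update z e a) y := by
  funext i
  by_cases h : i = e
  · subst h; simp [he]
  · by_cases hi : i ∈ T
    · simp [hi, h]
    · simp [hi, h]

theorem Av_insert {T : Finset E} {e : E} (he : e ∉ T) (F : (E → A) → ℝ) (y : E → A) :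
    Av (insert e T) F y = av fun a => Av T F (update y e a) := by
  unfold Av
  rw [← av_update e (fun z : E → A => F ((insert e T).piecewise z y)), av_comm]
  simp only [piecewise_insert_update he]

theorem Ind.Av {T : Finset E} {e : E} {F : (E → A) → ℝ} (h : Ind F e) : Ind (Av T F) e := by
  intro y a
  unfold Frob61.Av
  by_cases he : e ∈ T
  · simp only [piecewise_update_mem he]
  · simp only [piecewise_update_notMem he, h _ a]

theorem Ind_Av_mem {T : Finset E} {e : E} (F : (E → A) → ℝ) (he : e ∈ T) : Ind (Av T F) e := by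
  intro y a
  unfold Frob61.Av
  simp only [piecewise_update_mem he]

theorem Av_insert_of_Ind {T : Finset E} {e : E} (he : e ∉ T) {F : (E → A) → ℝ} (h : Ind F e)
    (y : E → A) : Av (insert e T) F y = Av T F y := by
  rw [Av_insert he]
  simp only [(h.Av : Ind (Av T F) e) y]
  exact av_const _

/-! ### Signed averages over loops -/

theorem av_prod_loops {V : Type*} [Fintype V] [DecidableEq V] (F : V → (E → A) → ℝ)
    (T : Finset E) (hT : ∀ e ∈ T, ∃ v, ∀ w, w ≠ v → Ind (F w) e) :
    av (fun y => ∏ v, F v y) = av (fun y => ∏ v, Av T (F v) y) := by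
  induction T using Finset.induction_on with
  | empty => simp only [Av_empty]
  | insert e T he ih =>
    rw [ih fun e' he' => hT e' (Finset.mem_insert_of_mem he')]
    rw [← av_update e]
    congr 1
    funext y
    obtain ⟨v, hv⟩ := hT e (Finset.mem_insert_self _ _)
    have h1 : ∀ a, ∏ w, Av T (F w) (update y e a) =
        Av T (F v) (update y e a) * ∏ w ∈ univ.erase v, Av (insert e T) (F w) y := by
      intro a
      rw [← Finset.mul_prod_erase univ (fun w => Av T (F w) (update y e a)) (mem_univ v)]
      congr 1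
      refine Finset.prod_congr rfl fun w hw => ?_
      have hwv := Finset.ne_of_mem_erase hw
      rw [Av_insert_of_Ind he (hv w hwv), ((hv w hwv).Av : Ind (Av T (F w)) e) y a]
    simp only [h1]
    rw [av_mul_right, ← Av_insert he,
      Finset.mul_prod_erase univ (fun w => Av (insert e T) (F w) y) (mem_univ v)]

/-! ### The Cauchy–Schwarz inequality -/

/-- `L²` partial average. -/
noncomputable def M2 (T : Finset E) (G : (E → A) → ℝ) (y : E → A) : ℝ :=
  √(Av T (fun y => G y ^ 2) y)

theorem M2_nonneg (T : Finset E) (G : (E → A) → ℝ) (y : E → A) : 0 ≤ M2 T G y :=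
  Real.sqrt_nonneg _

theorem M2_sq (T : Finset E) (G : (E → A) → ℝ) (y : E → A) :
    M2 T G y ^ 2 = Av T (fun y => G y ^ 2) y :=
  Real.sq_sqrt (av_nonneg fun _ => sq_nonneg _)

theorem M2_insert {T : Finset E} {e : E} (he : e ∉ T) (G : (E → A) → ℝ) (y : E → A) :
    M2 (insert e T) G y = √(av fun a => M2 T G (update y e a) ^ 2) := by
  simp only [M2_sq]
  rw [← Av_insert he]
  rfl

theorem Ind.M2 {T : Finset E} {e : E} {G : (E → A) → ℝ} (h : Ind G e) : Ind (M2 T G) e := by
  intro y a
  unfold Frob61.M2
  have h2 : Ind (fun y => G y ^ 2) e := fun y a => by simp only [h y a]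
  rw [(h2.Av : Ind (Frob61.Av T _) e) y a]

theorem finner {V : Type*} [Fintype V] [DecidableEq V] (G : V → (E → A) → ℝ)
    (hG : ∀ v y, 0 ≤ G v y)
    (h : ∀ e, ∃ v v', ∀ w, w ≠ v → w ≠ v' → Ind (G w) e) :
    av (fun y => ∏ v, G v y) ≤ ∏ v, √(av fun y => G v y ^ 2) := by
  have key : ∀ T : Finset E, av (fun y => ∏ v, G v y) ≤ av (fun y => ∏ v, M2 T (G v) y) := by
    intro T
    induction T using Finset.induction_on with
    | empty =>
      refine le_of_eq ?_
      congr 1
      funext y
      refine Finset.prod_congr rfl fun v _ => ?_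
      unfold M2
      rw [Av_empty, Real.sqrt_sq (hG _ _)]
    | insert e T he ih =>
      refine ih.trans ?_
      rw [← av_update e]
      refine av_mono fun y => ?_
      obtain ⟨v, v', hv⟩ := h e
      refine (av_prod_le (fun w a => M2 T (G w) (update y e a)) (fun w a => M2_nonneg _ _ _) v v'
        (fun w h1 h2 a b => ?_)).trans (le_of_eq ?_)
      · have := (hv w h1 h2).M2 (T := T)
        rw [this y a, this y b]
      · refine Finset.prod_congr rfl fun w _ => ?_
        rw [M2_insert he]
  refine (key univ).trans (le_of_eq ?_)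
  unfold M2
  simp only [Av_univ]
  exact av_const _

end Pool.Agent.Frob61
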