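import Pool.Agent.Lib.Frob61.Sec
import Pool.Agent.Lib.H69.Hopf.Main
import Pool.Agent.Lib.H69.Frob.GaussPull

/-!
# Expansion of the Gauss–Bonnet integrand of `identity + S`
-/

set_option linter.unusedSectionVars false

open Equiv MeasureTheory Finset Function Pool.Agent.H69Gauss Pool.Agent.H69Hopf

namespace Pool.Agent.Frob61

/-! ### Sums over injective functions -/

open Classical in
/-- Sum over injective functions. -/
noncomputable def sinj {M : ℕ} (j : ℕ) (F : (Fin j → Fin M) → ℝ) : ℝ :=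
  ∑ f : Fin j → Fin M, if Injective f then F f else 0

theorem sinj_succ {M : ℕ} (j : ℕ) (F : (Fin j → Fin M) → ℝ) :
    sinj (j + 1) (fun g : Fin (j + 1) → Fin M => F (fun i => g i.castSucc)) =
      ((M : ℝ) - j) * sinj j F := by
  classical
  unfold sinj
  rw [← Equiv.sum_comp (Fin.snocEquiv (fun _ : Fin (j + 1) => Fin M)), Fintype.sum_prod_type,
    Finset.sum_comm, Finset.mul_sum]
  refine Finset.sum_congr rfl fun f _ => ?_
  have h1 : ∀ a : Fin M, Injective ((Fin.snocEquiv (fun _ : Fin (j + 1) => Fin M)) (a, f)) ↔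
      Injective f ∧ a ∉ Set.range f := by
    intro a
    exact Fin.snoc_injective_iff
  have h2 : ∀ a : Fin M, (fun i : Fin j =>
      ((Fin.snocEquiv (fun _ : Fin (j + 1) => Fin M)) (a, f)) i.castSucc) = f := by
    intro a
    funext i
    exact Fin.snoc_castSucc (α := fun _ : Fin (j + 1) => Fin M) a f i
  simp only [h1, h2]
  by_cases hf : Injective f
  · simp only [hf, true_and, if_true]
    rw [← Finset.sum_filter, Finset.sum_const, nsmul_eq_mul]
    congr 1
    have h3 : (Finset.univ.filter fun a : Fin M => a ∉ Set.range f) = (Finset.univ.image f)ᶜ := by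
      ext a
      simp
    rw [h3, Finset.card_compl, Finset.card_image_of_injective _ hf, Finset.card_univ,
      Fintype.card_fin, Fintype.card_fin]
    have h4 : j ≤ M := by
      have := Fintype.card_le_of_injective f hf
      simpa using this
    rw [Nat.cast_sub h4]
  · simp [hf]

theorem sinj_iter {M : ℕ} : ∀ (d j : ℕ) (h : j + d = M) (F : (Fin j → Fin M) → ℝ),
    sinj M (fun g : Fin M → Fin M => F (fun i => g (Fin.castLE (by omega) i))) =
      (d.factorial : ℝ) * sinj j F := by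
  intro d
  induction d with
  | zero =>
    intro j h F
    have hj : j = M := by omega
    subst hj
    simp
  | succ d ih =>
    intro j h F
    have h1 := ih (j + 1) (by omega) (fun g : Fin (j + 1) → Fin M => F (fun i => g i.castSucc))
    rw [sinj_succ] at h1
    have h2 : (M : ℝ) - j = d + 1 := by
      have : (M : ℝ) = j + (d + 1) := by exact_mod_cast h.symm
      rw [this]; ring
    rw [h2] at h1
    rw [Nat.factorial_succ]
    push_cast
    refine Eq.trans ?_ (h1.trans (by ring))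
    rfl

theorem sum_perm_eq {M : ℕ} (G : (Fin M → Fin M) → ℝ) :
    ∑ σ : Perm (Fin M), G (fun i => σ i) = sinj M G := by
  classical
  unfold sinj
  rw [← Finset.sum_filter]
  refine Finset.sum_bij (fun σ _ => fun i => σ i) (fun σ _ => ?_) (fun σ _ τ _ h => ?_)
    (fun f hf => ?_) (fun σ _ => rfl)
  · simp only [Finset.mem_filter, Finset.mem_univ, true_and]
    exact σ.injective
  · ext i
    exact congrArg Fin.val (congrFun h i)
  · have hf' := (Finset.mem_filter.1 hf).2
    refine ⟨Equiv.ofBijective f (Finite.injective_iff_bijective.1 hf'), Finset.mem_univ _, ?_⟩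
    rfl

theorem sum_perm_castLE {M j : ℕ} (h : j ≤ M) (F : (Fin j → Fin M) → ℝ) :
    ∑ σ : Perm (Fin M), F (fun i => σ (Fin.castLE h i)) =
      ((M - j).factorial : ℝ) * sinj j F := by
  rw [sum_perm_eq (fun g => F (fun i => g (Fin.castLE h i)))]
  exact sinj_iter (M - j) j (by omega) F

/-- Alternating sums vanish at noninjective functions. -/
theorem alt_noninj {j : ℕ} {X : Type*} (G : (Fin j → X) → ℝ) (f : Fin j → X)
    (hf : ¬ Injective f) :
    ∑ ρ : Perm (Fin j), ((Perm.sign ρ : ℤ) : ℝ) * G (fun i => f (ρ i)) = 0 := by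
  obtain ⟨a, b, hab, hne⟩ := Function.not_injective_iff.1 hf
  have h1 : ∑ ρ : Perm (Fin j), ((Perm.sign ρ : ℤ) : ℝ) * G (fun i => f (ρ i)) =
      - ∑ ρ : Perm (Fin j), ((Perm.sign ρ : ℤ) : ℝ) * G (fun i => f (ρ i)) := by
    conv_lhs => rw [← Equiv.sum_comp (Equiv.mulLeft (swap a b))]
    rw [← Finset.sum_neg_distrib]
    refine Finset.sum_congr rfl fun ρ _ => ?_
    simp only [Equiv.coe_mulLeft]
    rw [Perm.sign_mul, Perm.sign_swap hne]
    have h2 : (fun i => f ((swap a b * ρ) i)) = fun i => f (ρ i) := by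
      funext i
      rw [Perm.mul_apply]
      by_cases h3 : ρ i = a
      · rw [h3, swap_apply_left, hab]
      · by_cases h4 : ρ i = b
        · rw [h4, swap_apply_right, hab]
        · rw [swap_apply_of_ne_of_ne h3 h4]
    rw [h2]
    push_cast
    ring
  linarith

/-- The basic contraction. -/
noncomputable def ctr {N : ℕ} (k : ℕ) (S : Arr N) (f : Fin (2 * k) → Fin N) : ℝ :=
  ∑ ρ : Perm (Fin (2 * k)), ((Perm.sign ρ : ℤ) : ℝ) *
    ∏ i : Fin k, S (f (fst i)) (f (snd i)) (f (ρ (fst i))) (f (ρ (snd i)))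

theorem ctr_noninj {N : ℕ} (k : ℕ) (S : Arr N) (f : Fin (2 * k) → Fin N)
    (hf : ¬ Injective f) : ctr k S f = 0 :=
  alt_noninj (fun g : Fin (2 * k) → Fin N =>
    ∏ i : Fin k, S (f (fst i)) (f (snd i)) (g (fst i)) (g (snd i))) f hf

theorem sinj_ctr {N : ℕ} (k : ℕ) (S : Arr N) : sinj (2 * k) (ctr k S) = ∑ f, ctr k S f := by
  classical
  unfold sinj
  refine Finset.sum_congr rfl fun f _ => ?_
  split_ifs with h
  · rfl
  · exact (ctr_noninj k S f h).symm

theorem DD_eq {N : ℕ} (k : ℕ) (S : Arr N) :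
    DD k S = ((2 * k).factorial : ℝ) * ∑ f, ctr k S f := by
  unfold DD gaussBonnet ctr
  rw [Finset.sum_comm]
  have h1 : ∀ σ : Perm (Fin (2 * k)), (∑ f : Fin (2 * k) → Fin N, ∑ τ : Perm (Fin (2 * k)),
      ((Perm.sign σ : ℤ) : ℝ) * ((Perm.sign τ : ℤ) : ℝ) * ∏ i : Fin k,
        S (f (σ (fst i))) (f (σ (snd i))) (f (τ (fst i))) (f (τ (snd i)))) =
      ∑ f : Fin (2 * k) → Fin N, ∑ ρ : Perm (Fin (2 * k)), ((Perm.sign ρ : ℤ) : ℝ) *
        ∏ i : Fin k, S (f (fst i)) (f (snd i)) (f (ρ (fst i))) (f (ρ (snd i))) := by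
    intro σ
    rw [← Equiv.sum_comp (Equiv.arrowCongr σ (Equiv.refl (Fin N)))]
    refine Finset.sum_congr rfl fun f _ => ?_
    rw [← Equiv.sum_comp (Equiv.mulLeft σ)]
    refine Finset.sum_congr rfl fun ρ _ => ?_
    simp only [Equiv.coe_mulLeft, Perm.mul_apply, Equiv.arrowCongr_apply, Equiv.coe_refl,
      Function.comp_apply, id, Equiv.symm_apply_apply, Perm.sign_mul]
    congr 1
    have : ((Perm.sign σ : ℤ) : ℝ) * ((Perm.sign σ : ℤ) : ℝ) = 1 := by
      rcases Int.units_eq_one_or (Perm.sign σ) with h | h <;> rw [h] <;> norm_num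
    push_cast
    calc _ = ((Perm.sign σ : ℤ) : ℝ) * ((Perm.sign σ : ℤ) : ℝ) * ((Perm.sign ρ : ℤ) : ℝ) := by ring
      _ = _ := by rw [this, one_mul]
  rw [Finset.sum_congr rfl (fun σ _ => h1 σ), Finset.sum_const, Finset.card_univ,
    Fintype.card_perm, Fintype.card_fin, nsmul_eq_mul]

end Pool.Agent.Frob61
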