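import Pool.Agent.Lib.Frob61.Wick

/-!
# Complete contractions as closed networks
-/

set_option linter.unusedSectionVars false

open Finset

namespace Pool.Agent.Frob61

variable {A : Type*} [Fintype A]

/-- Bound for all closed networks. -/
def HH (n : ℕ) (Θ : (Fin n → A) → ℝ) (b : ℝ) : Prop :=
  ∀ (E : Type) [Fintype E] [DecidableEq E] (h : Fin n → E),
    (∀ e, (Finset.univ.filter fun l => h l = e).card = 2) →
      |∑ y : E → A, Θ (fun l => y (h l))| ≤ b

theorem HH_con {n : ℕ} {Θ : (Fin (n + 2) → A) → ℝ} {b : ℝ} (H : HH (n + 2) Θ b)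
    (t : Fin (n + 1)) : HH n (con t Θ) b := by
  intro E _ _ h hh
  have h1 := H (Option E) (Fin.cons none (t.insertNth none (fun l => some (h l)) :
    Fin (n + 1) → Option E)) (by
    intro e
    rw [Finset.card_filter, Fin.sum_univ_succ, Fin.sum_univ_succAbove _ t]
    simp only [Fin.cons_zero, Fin.cons_succ, Fin.insertNth_apply_same,
      Fin.insertNth_apply_succAbove]
    rcases e with _ | e
    · simp
    · have := hh e
      rw [Finset.card_filter] at this
      simpa using this)
  refine le_trans (le_of_eq ?_) h1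
  congr 1
  unfold con
  rw [← Equiv.sum_comp (Equiv.piOptionEquivProd (β := fun _ : Option E => A)).symm,
    Fintype.sum_prod_type, Finset.sum_comm]
  refine Finset.sum_congr rfl fun p _ => Finset.sum_congr rfl fun y _ => ?_
  congr 1
  funext l
  refine Fin.cases ?_ (fun l => ?_) l
  · simp [Equiv.piOptionEquivProd]
  · simp only [Fin.cons_succ]
    refine Fin.succAboveCases t ?_ (fun j => ?_) l
    · simp [Equiv.piOptionEquivProd]
    · simp [Equiv.piOptionEquivProd]

theorem BB_of_HH : ∀ (n : ℕ) (Θ : (Fin n → A) → ℝ) (b : ℝ), HH n Θ b → BB n Θ b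
  | 0, Θ, b, H => by
    have h1 := H Empty (fun i => i.elim0) (fun e => e.elim)
    unfold BB
    refine le_trans (le_of_eq ?_) h1
    rw [Fintype.sum_unique]
    congr 2
  | 1, _, _, _ => by
    unfold BB
    trivial
  | (n + 2), Θ, b, H => fun t => BB_of_HH n _ b (HH_con H t)

end Pool.Agent.Frob61
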