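import Pool.Agent.Lib.Frob61.Av

/-!
# Network inequality for tensors with four indices
-/

set_option linter.unusedSectionVars false

open Finset Function

namespace Pool.Agent.Frob61

variable {A : Type*} [Fintype A] [Nonempty A] {E : Type*} [Fintype E] [DecidableEq E]

theorem av_one (e : E) (g : A → ℝ) : av (fun y : E → A => g (y e)) = av g := by
  rw [← av_update e]
  simp only [update_self]
  exact av_const _

theorem av_two {a b : E} (hab : a ≠ b) (f : A → A → ℝ) :
    av (fun y : E → A => f (y a) (y b)) = av fun i => av fun j => f i j := by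
  rw [← av_update a]
  simp only [update_self, update_of_ne hab.symm]
  rw [av_comm]
  congr 1
  funext i
  exact av_one b _

theorem av_three {a b c : E} (hab : a ≠ b) (hac : a ≠ c) (hbc : b ≠ c) (f : A → A → A → ℝ) :
    av (fun y : E → A => f (y a) (y b) (y c)) = av fun i => av fun j => av fun k => f i j k := by
  rw [← av_update a]
  simp only [update_self, update_of_ne hab.symm, update_of_ne hac.symm]
  rw [av_comm]
  congr 1
  funext i
  exact av_two hbc _

theorem av_four {a b c d : E} (hab : a ≠ b) (hac : a ≠ c) (had : a ≠ d) (hbc : b ≠ c)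
    (hbd : b ≠ d) (hcd : c ≠ d) (f : A → A → A → A → ℝ) :
    av (fun y : E → A => f (y a) (y b) (y c) (y d)) =
      av fun i => av fun j => av fun k => av fun l => f i j k l := by
  rw [← av_update a]
  simp only [update_self, update_of_ne hab.symm, update_of_ne hac.symm, update_of_ne had.symm]
  rw [av_comm]
  congr 1
  funext i
  exact av_three hbc hbd hcd _

/-- Hypotheses on the tensor. -/
structure Bd (S : A → A → A → A → ℝ) (q : ℝ) : Prop where
  skew1 : ∀ i j k l, S i j k l = - S j i k l
  skew2 : ∀ i j k l, S i j k l = - S i j l k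
  q0 : 0 ≤ q
  nrm : ∑ i, ∑ j, ∑ k, ∑ l, S i j k l ^ 2 ≤ q ^ 2
  ric : ∑ j, ∑ l, (∑ i, S i j i l) ^ 2 ≤ q ^ 2
  scal : (∑ i, ∑ j, S i j i j) ^ 2 ≤ q ^ 2

/-- The function of a vertex. -/
def Fc (S : A → A → A → A → ℝ) (a b c d : E) (y : E → A) : ℝ := S (y a) (y b) (y c) (y d)

variable {S : A → A → A → A → ℝ} {q : ℝ}

theorem vertex_distinct (h : Bd S q) {T : Finset E} {a b c d : E} (hab : a ≠ b) (hac : a ≠ c)
    (had : a ≠ d) (hbc : b ≠ c) (hbd : b ≠ d) (hcd : c ≠ d) (ha : a ∉ T) (hb : b ∉ T)
    (hc : c ∉ T) (hd : d ∉ T) :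
    av (fun y => Av T (Fc S a b c d) y ^ 2) ≤ q ^ 2 / (Fintype.card A : ℝ) ^ 4 := by
  have h1 : ∀ y, Av T (Fc S a b c d) y = S (y a) (y b) (y c) (y d) := by
    intro y
    unfold Av Fc
    simp only [Finset.piecewise_eq_of_notMem T _ _ ha, Finset.piecewise_eq_of_notMem T _ _ hb,
      Finset.piecewise_eq_of_notMem T _ _ hc, Finset.piecewise_eq_of_notMem T _ _ hd]
    exact av_const _
  simp only [h1]
  rw [av_four hab hac had hbc hbd hcd (fun i j k l => S i j k l ^ 2)]
  unfold av
  simp only [← Finset.sum_div]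
  have hn := card_pos' (α := A)
  refine le_trans (le_of_eq ?_) (div_le_div_of_nonneg_right h.nrm (by positivity))
  field_simp

theorem vertex_loop (h : Bd S q) {T : Finset E} {a b d : E} (hab : a ≠ b) (had : a ≠ d)
    (ha : a ∈ T) (h1 : b = d → b ∈ T) (h2 : b ≠ d → b ∉ T ∧ d ∉ T) :
    av (fun y => Av T (Fc S a b a d) y ^ 2) ≤ q ^ 2 / (Fintype.card A : ℝ) ^ 4 := by
  have hn := card_pos' (α := A)
  rcases eq_or_ne b d with hbd | hbd
  · subst hbd
    have hb := h1 rfl
    have h3 : ∀ y, Av T (Fc S a b a b) y = (∑ i, ∑ j, S i j i j) / (Fintype.card A : ℝ) ^ 2 := by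
      intro y
      unfold Av Fc
      simp only [Finset.piecewise_eq_of_mem T _ _ ha, Finset.piecewise_eq_of_mem T _ _ hb]
      rw [av_two hab (fun i j => S i j i j)]
      unfold av
      simp only [← Finset.sum_div]
      field_simp
    simp only [h3]
    rw [av_const, div_pow, ← pow_mul]
    exact div_le_div_of_nonneg_right h.scal (by positivity)
  · obtain ⟨hb, hd⟩ := h2 hbd
    have h3 : ∀ y, Av T (Fc S a b a d) y = (∑ i, S i (y b) i (y d)) / (Fintype.card A : ℝ) := by
      intro y
      unfold Av Fc
      simp only [Finset.piecewise_eq_of_mem T _ _ ha, Finset.piecewise_eq_of_notMem T _ _ hb,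
        Finset.piecewise_eq_of_notMem T _ _ hd]
      rw [av_one a (fun i => S i (y b) i (y d))]
      rfl
    simp only [h3]
    rw [av_two hbd (fun j l => ((∑ i, S i j i l) / (Fintype.card A : ℝ)) ^ 2)]
    unfold av
    simp only [← Finset.sum_div, div_pow]
    refine le_trans (le_of_eq ?_) (div_le_div_of_nonneg_right h.ric (by positivity))
    field_simp

theorem Av_neg (T : Finset E) (F : (E → A) → ℝ) (y : E → A) :
    Av T (fun y => - F y) y = - Av T F y := by
  unfold Av av
  rw [Finset.sum_neg_distrib, neg_div]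

theorem fin4_cases : ∀ s t u v w : Fin 4, s ≠ t → s ≠ u → s ≠ v → t ≠ u → t ≠ v → u ≠ v →
    w ≠ s → w = t ∨ w = u ∨ w = v := by
  decide

/-- The loops. -/
structure Good (T : Finset E) (c : Fin 4 → E) : Prop where
  mem : ∀ s, c s ∈ T ↔ ∃ t, t ≠ s ∧ c t = c s
  trip : ∀ s t u, s ≠ t → t ≠ u → s ≠ u → c s = c t → c t ≠ c u

theorem vertex (h : Bd S q) {T : Finset E} {c : Fin 4 → E} (hc : Good T c) :
    av (fun y => Av T (Fc S (c 0) (c 1) (c 2) (c 3)) y ^ 2) ≤
      q ^ 2 / (Fintype.card A : ℝ) ^ 4 := by
  have hn := card_pos' (α := A)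
  have hq : 0 ≤ q ^ 2 / (Fintype.card A : ℝ) ^ 4 := by positivity
  -- loop membership
  have hm : ∀ s t, s ≠ t → c s = c t → c s ∈ T := fun s t hst he =>
    (hc.mem s).2 ⟨t, hst.symm, he.symm⟩
  have hnm : ∀ s t u v : Fin 4, s ≠ t → s ≠ u → s ≠ v → t ≠ u → t ≠ v → u ≠ v →
      c s ≠ c t → c s ≠ c u → c s ≠ c v → c s ∉ T := by
    intro s t u v h1 h2 h3 h4 h5 h6 e1 e2 e3 hmem
    obtain ⟨w, hw, hcw⟩ := (hc.mem s).1 hmem
    have : w = t ∨ w = u ∨ w = v := fin4_cases s t u v w h1 h2 h3 h4 h5 h6 hw
    rcases this with rfl | rfl | rfl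
    · exact e1 hcw.symm
    · exact e2 hcw.symm
    · exact e3 hcw.symm
  by_cases h01 : c 0 = c 1
  · have h1 : Fc S (c 0) (c 1) (c 2) (c 3) = fun _ => (0 : ℝ) := by
      funext y
      unfold Fc
      rw [h01]
      have := h.skew1 (y (c 1)) (y (c 1)) (y (c 2)) (y (c 3))
      linarith
    rw [h1]
    unfold Av
    simp only [av_const]
    refine le_trans (le_of_eq ?_) hq
    norm_num
  by_cases h23 : c 2 = c 3
  · have h1 : Fc S (c 0) (c 1) (c 2) (c 3) = fun _ => (0 : ℝ) := by
      funext y
      unfold Fc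
      rw [h23]
      have := h.skew2 (y (c 0)) (y (c 1)) (y (c 3)) (y (c 3))
      linarith
    rw [h1]
    unfold Av
    simp only [av_const]
    refine le_trans (le_of_eq ?_) hq
    norm_num
  by_cases h02 : c 0 = c 2
  · have e1 : c 0 ≠ c 3 := fun e => h23 (h02.symm.trans e)
    rw [← h02]
    refine vertex_loop h h01 e1 (hm 0 2 (by decide) h02) (fun e => hm 1 3 (by decide) e)
      (fun e => ⟨hnm 1 0 2 3 (by decide) (by decide) (by decide) (by decide) (by decide)
        (by decide) (Ne.symm h01) (fun e' => h01 (h02.trans e'.symm)) e,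
        hnm 3 0 2 1 (by decide) (by decide) (by decide) (by decide) (by decide)
        (by decide) e1.symm (Ne.symm h23) e.symm⟩)
  by_cases h03 : c 0 = c 3
  · have e1 : c 0 ≠ c 2 := h02
    have h1 : Fc S (c 0) (c 1) (c 2) (c 3) = fun y => - Fc S (c 0) (c 1) (c 0) (c 2) y := by
      funext y
      unfold Fc
      rw [← h03]
      exact h.skew2 _ _ _ _
    rw [h1]
    simp only [Av_neg, neg_sq]
    refine vertex_loop h h01 e1 (hm 0 3 (by decide) h03) (fun e => hm 1 2 (by decide) e)
      (fun e => ⟨hnm 1 0 2 3 (by decide) (by decide) (by decide) (by decide) (by decide)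
        (by decide) (Ne.symm h01) e (fun e' => h01 (h03.trans e'.symm)),
        hnm 2 0 1 3 (by decide) (by decide) (by decide) (by decide) (by decide)
        (by decide) e1.symm e.symm h23⟩)
  by_cases h12 : c 1 = c 2
  · have h1 : Fc S (c 0) (c 1) (c 2) (c 3) = fun y => - Fc S (c 1) (c 0) (c 1) (c 3) y := by
      funext y
      unfold Fc
      rw [← h12]
      exact h.skew1 _ _ _ _
    rw [h1]
    simp only [Av_neg, neg_sq]
    have e1 : c 1 ≠ c 3 := fun e => h23 (h12.symm.trans e)
    refine vertex_loop h (Ne.symm h01) e1 (hm 1 2 (by decide) h12) (fun e => hm 0 3 (by decide) e)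
      (fun e => ⟨hnm 0 1 2 3 (by decide) (by decide) (by decide) (by decide) (by decide)
        (by decide) h01 h02 e,
        hnm 3 0 1 2 (by decide) (by decide) (by decide) (by decide) (by decide)
        (by decide) e.symm e1.symm (Ne.symm h23)⟩)
  by_cases h13 : c 1 = c 3
  · have h1 : Fc S (c 0) (c 1) (c 2) (c 3) = Fc S (c 1) (c 0) (c 1) (c 2) := by
      funext y
      unfold Fc
      rw [← h13, h.skew1, h.skew2, neg_neg]
    rw [h1]
    refine vertex_loop h (Ne.symm h01) h12 (hm 1 3 (by decide) h13) (fun e => hm 0 2 (by decide) e)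
      (fun e => ⟨hnm 0 1 2 3 (by decide) (by decide) (by decide) (by decide) (by decide)
        (by decide) h01 h02 h03,
        hnm 2 0 1 3 (by decide) (by decide) (by decide) (by decide) (by decide)
        (by decide) e.symm (Ne.symm h12) h23⟩)
  · exact vertex_distinct h h01 h02 h03 h12 h13 h23
      (hnm 0 1 2 3 (by decide) (by decide) (by decide) (by decide) (by decide)
        (by decide) h01 h02 h03)
      (hnm 1 0 2 3 (by decide) (by decide) (by decide) (by decide) (by decide)
        (by decide) (Ne.symm h01) h12 h13)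
      (hnm 2 0 1 3 (by decide) (by decide) (by decide) (by decide) (by decide)
        (by decide) (Ne.symm h02) (Ne.symm h12) h23)
      (hnm 3 0 1 2 (by decide) (by decide) (by decide) (by decide) (by decide)
        (by decide) (Ne.symm h03) (Ne.symm h13) (Ne.symm h23))

/-- **Network inequality.** -/
theorem network (h : Bd S q) {V : Type*} [Fintype V] [DecidableEq V] (c : V → Fin 4 → E)
    (hc : ∀ e, (Finset.univ.filter fun p : V × Fin 4 => c p.1 p.2 = e).card = 2) :
    |∑ y : E → A, ∏ v, S (y (c v 0)) (y (c v 1)) (y (c v 2)) (y (c v 3))| ≤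
      q ^ Fintype.card V := by
  classical
  have hn := card_pos' (α := A)
  set n : ℝ := (Fintype.card A : ℝ) with hndef
  -- the two legs
  have hlegs : ∀ e, ∃ p p' : V × Fin 4, p ≠ p' ∧ c p.1 p.2 = e ∧ c p'.1 p'.2 = e ∧
      ∀ r : V × Fin 4, c r.1 r.2 = e → r = p ∨ r = p' := by
    intro e
    obtain ⟨p, p', hpp, hs⟩ := Finset.card_eq_two.1 (hc e)
    refine ⟨p, p', hpp, ?_, ?_, ?_⟩
    · have : p ∈ Finset.univ.filter fun p : V × Fin 4 => c p.1 p.2 = e := by rw [hs]; simp
      simpa using this
    · have : p' ∈ Finset.univ.filter fun p : V × Fin 4 => c p.1 p.2 = e := by rw [hs]; simp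
      simpa using this
    · intro r hr
      have : r ∈ Finset.univ.filter fun p : V × Fin 4 => c p.1 p.2 = e := by simpa using hr
      rw [hs] at this
      simpa using this
  set T : Finset E := Finset.univ.filter fun e => ∃ v s t, s ≠ t ∧ c v s = e ∧ c v t = e with hT
  have hind : ∀ (v : V) (e : E), (∀ s, c v s ≠ e) →
      Ind (Fc S (c v 0) (c v 1) (c v 2) (c v 3)) e := by
    intro v e hv y a
    unfold Fc
    rw [update_of_ne (hv 0), update_of_ne (hv 1), update_of_ne (hv 2), update_of_ne (hv 3)]
  have hgood : ∀ v, Good T (c v) := by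
    intro v
    constructor
    · intro s
      constructor
      · intro hs
        obtain ⟨v', s', t', hst, e1, e2⟩ := (Finset.mem_filter.1 hs).2
        obtain ⟨p, p', hpp, ep, ep', hr⟩ := hlegs (c v s)
        have r1 := hr (v', s') e1
        have r2 := hr (v', t') e2
        have r3 := hr (v, s) rfl
        have hne : ((v', s') : V × Fin 4) ≠ (v', t') := fun h => hst (Prod.ext_iff.1 h).2
        rcases r3 with r3 | r3
        · -- (v, s) = p
          rcases r1 with r1 | r1
          · have hvs : (v, s) = (v', s') := r3.trans r1.symm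
            have hv := (Prod.ext_iff.1 hvs).1
            have hs' := (Prod.ext_iff.1 hvs).2
            simp only at hv hs'
            refine ⟨t', ?_, ?_⟩
            · rw [hs']; exact hst.symm
            · rw [hv]; rw [e2, hv]
          · have r2' : (v', t') = p := by
              rcases r2 with r2 | r2
              · exact r2
              · exact absurd (r1.trans r2.symm) hne
            have hvs : (v, s) = (v', t') := r3.trans r2'.symm
            have hv := (Prod.ext_iff.1 hvs).1
            have hs' := (Prod.ext_iff.1 hvs).2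
            simp only at hv hs'
            refine ⟨s', ?_, ?_⟩
            · rw [hs']; exact hst
            · rw [hv]; rw [e1, hv]
        · rcases r1 with r1 | r1
          · have r2' : (v', t') = p' := by
              rcases r2 with r2 | r2
              · exact absurd (r1.trans r2.symm) hne
              · exact r2
            have hvs : (v, s) = (v', t') := r3.trans r2'.symm
            have hv := (Prod.ext_iff.1 hvs).1
            have hs' := (Prod.ext_iff.1 hvs).2
            simp only at hv hs'
            refine ⟨s', ?_, ?_⟩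
            · rw [hs']; exact hst
            · rw [hv]; rw [e1, hv]
          · have hvs : (v, s) = (v', s') := r3.trans r1.symm
            have hv := (Prod.ext_iff.1 hvs).1
            have hs' := (Prod.ext_iff.1 hvs).2
            simp only at hv hs'
            refine ⟨t', ?_, ?_⟩
            · rw [hs']; exact hst.symm
            · rw [hv]; rw [e2, hv]
      · rintro ⟨t, hts, he⟩
        exact Finset.mem_filter.2 ⟨Finset.mem_univ _, v, s, t, hts.symm, rfl, he⟩
    · intro s t u hst htu hsu e1 e2
      obtain ⟨p, p', hpp, ep, ep', hr⟩ := hlegs (c v s)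
      have r1 := hr (v, s) rfl
      have r2 := hr (v, t) e1.symm
      have r3 := hr (v, u) (e1.trans e2).symm
      have n1 : ((v, s) : V × Fin 4) ≠ (v, t) := fun h => hst (Prod.ext_iff.1 h).2
      have n2 : ((v, t) : V × Fin 4) ≠ (v, u) := fun h => htu (Prod.ext_iff.1 h).2
      have n3 : ((v, s) : V × Fin 4) ≠ (v, u) := fun h => hsu (Prod.ext_iff.1 h).2
      rcases r1 with r1 | r1 <;> rcases r2 with r2 | r2 <;> rcases r3 with r3 | r3
      · exact n1 (r1.trans r2.symm)
      · exact n1 (r1.trans r2.symm)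
      · exact n3 (r1.trans r3.symm)
      · exact n2 (r2.trans r3.symm)
      · exact n2 (r2.trans r3.symm)
      · exact n3 (r1.trans r3.symm)
      · exact n1 (r1.trans r2.symm)
      · exact n1 (r1.trans r2.symm)
  -- number of edges
  have hE : Fintype.card E = 2 * Fintype.card V := by
    have h1 : (Finset.univ : Finset (V × Fin 4)).card =
        ∑ e : E, (Finset.univ.filter fun p : V × Fin 4 => c p.1 p.2 = e).card :=
      Finset.card_eq_sum_card_fiberwise (fun _ _ => Finset.mem_univ _)
    simp only [hc, Finset.card_univ, Fintype.card_prod, Fintype.card_fin, Finset.sum_const,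
      smul_eq_mul] at h1
    omega
  have h1 : ∑ y : E → A, ∏ v, S (y (c v 0)) (y (c v 1)) (y (c v 2)) (y (c v 3)) =
      n ^ (2 * Fintype.card V) * av (fun y : E → A =>
        ∏ v, Fc S (c v 0) (c v 1) (c v 2) (c v 3) y) := by
    unfold av
    have : (Fintype.card (E → A) : ℝ) = n ^ (2 * Fintype.card V) := by
      rw [Fintype.card_fun, hE]
      push_cast
      rfl
    rw [this]
    have hne : n ^ (2 * Fintype.card V) ≠ 0 := by positivity
    rw [mul_div_cancel₀ _ hne]
    rfl
  rw [h1, av_prod_loops _ T, abs_mul, abs_of_pos (by positivity)]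
  · have h2 : |av (fun y : E → A => ∏ v, Av T (Fc S (c v 0) (c v 1) (c v 2) (c v 3)) y)| ≤
        ∏ _v : V, (q / n ^ 2) := by
      refine (abs_av_le _).trans ?_
      simp only [Finset.abs_prod]
      refine (finner (fun v y => |Av T (Fc S (c v 0) (c v 1) (c v 2) (c v 3)) y|)
        (fun _ _ => abs_nonneg _) ?_).trans ?_
      · intro e
        obtain ⟨p, p', hpp, ep, ep', hr⟩ := hlegs e
        refine ⟨p.1, p'.1, fun w hw hw' y a => ?_⟩
        have hi : Ind (Fc S (c w 0) (c w 1) (c w 2) (c w 3)) e := by
          refine hind w e fun s hs => ?_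
          rcases hr (w, s) hs with h | h
          · exact hw (Prod.ext_iff.1 h).1
          · exact hw' (Prod.ext_iff.1 h).1
        simp only
        rw [(hi.Av : Ind (Av T _) e) y a]
      · refine Finset.prod_le_prod (fun _ _ => Real.sqrt_nonneg _) fun v _ => ?_
        simp only [sq_abs]
        refine (Real.sqrt_le_sqrt (vertex h (hgood v))).trans (le_of_eq ?_)
        have : q ^ 2 / n ^ 4 = (q / n ^ 2) ^ 2 := by
          rw [div_pow, ← pow_mul]
        rw [← hndef, this]
        exact Real.sqrt_sq (div_nonneg h.q0 (by positivity))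
    refine (mul_le_mul_of_nonneg_left h2 (by positivity)).trans (le_of_eq ?_)
    rw [Finset.prod_const, Finset.card_univ, pow_mul, ← mul_pow]
    congr 1
    field_simp
  · intro e he
    obtain ⟨v, s, t, hst, e1, e2⟩ := (Finset.mem_filter.1 he).2
    refine ⟨v, fun w hw => hind w e fun u hu => ?_⟩
    obtain ⟨p, p', hpp, ep, ep', hr⟩ := hlegs e
    have r1 := hr (v, s) e1
    have r2 := hr (v, t) e2
    have r3 := hr (w, u) hu
    have n1 : ((v, s) : V × Fin 4) ≠ (v, t) := fun h => hst (Prod.ext_iff.1 h).2
    have n2 : ((w, u) : V × Fin 4) ≠ (v, t) := fun h => hw (Prod.ext_iff.1 h).1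
    have n3 : ((w, u) : V × Fin 4) ≠ (v, s) := fun h => hw (Prod.ext_iff.1 h).1
    rcases r1 with r1 | r1 <;> rcases r2 with r2 | r2 <;> rcases r3 with r3 | r3
    · exact n1 (r1.trans r2.symm)
    · exact n1 (r1.trans r2.symm)
    · exact n3 (r3.trans r1.symm)
    · exact n2 (r3.trans r2.symm)
    · exact n2 (r3.trans r2.symm)
    · exact n3 (r3.trans r1.symm)
    · exact n1 (r1.trans r2.symm)
    · exact n1 (r1.trans r2.symm)

end Pool.Agent.Frob61
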