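import Pool.Agent.Lib.Frob61.Crit
import Pool.Agent.Lib.Frob61.Vertex

/-!
# Moments of the Frobenius norm of a Gaussian pull-back
-/

set_option linter.unusedSectionVars false

open Finset Function MvPolynomial Pool.Agent.H69Gauss

namespace Pool.Agent.Frob61

/-! ### An algebraic identity -/

theorem sum_prod_swap {R : Type*} [CommSemiring R] {I W : Type*} [Fintype I] [DecidableEq I]
    [Fintype W] (f : I → W → R) : ∑ w : I → W, ∏ i, f i (w i) = ∏ i, ∑ w, f i w := by
  rw [Finset.prod_univ_sum]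
  simp

theorem alg_id {R : Type*} [CommRing R] {A B : Type*} [Fintype A] [Fintype B] [DecidableEq B]
    (r : ℕ) (S : A → A → A → A → R) (Y : B → A → R) :
    ∑ b : Fin r → Bool → Fin 4 → B, ∑ i : Fin r → Bool → Fin 4 → A,
      ((∏ u, ∏ β, S (i u β 0) (i u β 1) (i u β 2) (i u β 3)) *
        (∏ u, ∏ s, if b u false s = b u true s then 1 else 0)) *
          ∏ u, ∏ β, ∏ s, Y (b u β s) (i u β s) =
      (∑ a : Fin 4 → B, (∑ i : Fin 4 → A, S (i 0) (i 1) (i 2) (i 3) *
        ∏ s, Y (a s) (i s)) ^ 2) ^ r := by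
  classical
  have h1 : ∀ (b : Fin r → Bool → Fin 4 → B) (i : Fin r → Bool → Fin 4 → A),
      ((∏ u, ∏ β, S (i u β 0) (i u β 1) (i u β 2) (i u β 3)) *
        (∏ u, ∏ s, if b u false s = b u true s then 1 else 0)) *
          ∏ u, ∏ β, ∏ s, Y (b u β s) (i u β s) =
      ∏ u, ((∏ s, if b u false s = b u true s then 1 else 0) *
        ∏ β, (S (i u β 0) (i u β 1) (i u β 2) (i u β 3) * ∏ s, Y (b u β s) (i u β s))) := by
    intro b i
    rw [← Finset.prod_mul_distrib, ← Finset.prod_mul_distrib]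
    refine Finset.prod_congr rfl fun u _ => ?_
    rw [Finset.prod_mul_distrib (s := (Finset.univ : Finset Bool))]
    ring
  simp only [h1]
  have h2 : ∀ b : Fin r → Bool → Fin 4 → B, (∑ i : Fin r → Bool → Fin 4 → A,
      ∏ u, ((∏ s, if b u false s = b u true s then 1 else 0) *
        ∏ β, (S (i u β 0) (i u β 1) (i u β 2) (i u β 3) * ∏ s, Y (b u β s) (i u β s)))) =
      ∏ u, ∑ i : Bool → Fin 4 → A, ((∏ s, if b u false s = b u true s then 1 else 0) *
        ∏ β, (S (i β 0) (i β 1) (i β 2) (i β 3) * ∏ s, Y (b u β s) (i β s))) := by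
    intro b
    exact sum_prod_swap (fun (u : Fin r) (i : Bool → Fin 4 → A) =>
      ((∏ s, if b u false s = b u true s then (1 : R) else 0) *
        ∏ β, (S (i β 0) (i β 1) (i β 2) (i β 3) * ∏ s, Y (b u β s) (i β s))))
  simp only [h2]
  rw [sum_prod_swap (fun (_ : Fin r) (b : Bool → Fin 4 → B) => ∑ i : Bool → Fin 4 → A,
      ((∏ s, if b false s = b true s then (1 : R) else 0) *
        ∏ β, (S (i β 0) (i β 1) (i β 2) (i β 3) * ∏ s, Y (b β s) (i β s))))]
  rw [Finset.prod_const, Finset.card_univ, Fintype.card_fin]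
  congr 1
  set Q : (Fin 4 → B) → R := fun a => ∑ i : Fin 4 → A, S (i 0) (i 1) (i 2) (i 3) *
    ∏ s, Y (a s) (i s) with hQ
  have h3 : ∀ b : Bool → Fin 4 → B, (∑ i : Bool → Fin 4 → A,
      ((∏ s, if b false s = b true s then (1 : R) else 0) *
        ∏ β, (S (i β 0) (i β 1) (i β 2) (i β 3) * ∏ s, Y (b β s) (i β s)))) =
      if b false = b true then Q (b false) * Q (b true) else 0 := by
    intro b
    rw [← Finset.mul_sum, sum_prod_swap (fun (β : Bool) (i : Fin 4 → A) =>
      S (i 0) (i 1) (i 2) (i 3) * ∏ s, Y (b β s) (i s))]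
    have h4 : (∏ s, if b false s = b true s then (1 : R) else 0) =
        if b false = b true then 1 else 0 := by
      split_ifs with h
      · refine Finset.prod_eq_one fun s _ => ?_
        rw [if_pos (congrFun h s)]
      · obtain ⟨s, hs⟩ := Function.ne_iff.1 h
        exact Finset.prod_eq_zero (Finset.mem_univ s) (if_neg hs)
    rw [h4, Fintype.prod_bool]
    split_ifs
    · rw [hQ]; ring
    · simp
  simp only [h3]
  rw [← Equiv.sum_comp (Equiv.boolArrowEquivProd (Fin 4 → B)).symm, Fintype.sum_prod_type]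
  simp only [Equiv.boolArrowEquivProd_symm_apply]
  refine Finset.sum_congr rfl fun a _ => ?_
  rw [Finset.sum_eq_single a]
  · simp [sq, hQ]
  · intro b _ hb
    simp [Ne.symm hb]
  · simp

/-! ### The arrays -/

section arrays

variable {A B : Type*} [Fintype A] [Fintype B] [DecidableEq A] [DecidableEq B]

/-- Number of legs. -/
abbrev nl (r : ℕ) : ℕ := Fintype.card ((Fin r × Bool) × Fin 4)

/-- The legs. -/
noncomputable def le (r : ℕ) : ((Fin r × Bool) × Fin 4) ≃ Fin (nl r) := Fintype.equivFin _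

/-- Power of `S`. -/
noncomputable def Th (r : ℕ) (S : A → A → A → A → ℝ) (i : Fin (nl r) → A) : ℝ :=
  ∏ u, ∏ β, S (i (le r ((u, β), 0))) (i (le r ((u, β), 1))) (i (le r ((u, β), 2)))
    (i (le r ((u, β), 3)))

/-- Product of Kronecker symbols. -/
noncomputable def De (r : ℕ) (b : Fin (nl r) → B) : ℝ :=
  ∏ u : Fin r, ∏ s : Fin 4, if b (le r ((u, false), s)) = b (le r ((u, true), s)) then 1 else 0

theorem De_nonneg (r : ℕ) (b : Fin (nl r) → B) : 0 ≤ De r b := by
  unfold De
  refine Finset.prod_nonneg fun u _ => Finset.prod_nonneg fun s _ => ?_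
  split_ifs <;> norm_num

/-- Reindexing. -/
noncomputable def arr1 (r : ℕ) (B : Type*) : (Fin r → Bool → Fin 4 → B) ≃ (Fin (nl r) → B) where
  toFun b l := b ((le r).symm l).1.1 ((le r).symm l).1.2 ((le r).symm l).2
  invFun x u β s := x (le r ((u, β), s))
  left_inv b := by funext u β s; simp
  right_inv x := by funext l; simp

/-- Reindexing. -/
noncomputable def arr2 (r : ℕ) (A B : Type*) :
    ((Fin r → Bool → Fin 4 → B) × (Fin r → Bool → Fin 4 → A)) ≃ (Fin (nl r) → B × A) where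
  toFun p l := (arr1 r B p.1 l, arr1 r A p.2 l)
  invFun x := ((arr1 r B).symm fun l => (x l).1, (arr1 r A).symm fun l => (x l).2)
  left_inv p := by simp
  right_inv x := by simp

theorem pr_legs {X : Type*} (r : ℕ) (x : Fin (nl r) → X) :
    pr x = ∏ u, ∏ β, ∏ s, MvPolynomial.X (x (le r ((u, β), s))) := by
  unfold pr
  rw [← Equiv.prod_comp (le r), Fintype.prod_prod_type, Fintype.prod_prod_type]

theorem poly_id (r : ℕ) (S : A → A → A → A → ℝ) :
    ∑ x : Fin (nl r) → B × A, C (ten (Th r S) (De r) x) * pr x =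
      (∑ a : Fin 4 → B, (∑ i : Fin 4 → A, C (S (i 0) (i 1) (i 2) (i 3)) *
        ∏ s, MvPolynomial.X (a s, i s)) ^ 2) ^ r := by
  have h := alg_id (R := MvPolynomial (B × A) ℝ) r (fun i j k l => C (S i j k l))
    (fun (b : B) (a : A) => MvPolynomial.X (b, a))
  rw [← h, ← Equiv.sum_comp (arr2 r A B), Fintype.sum_prod_type]
  refine Finset.sum_congr rfl fun b _ => Finset.sum_congr rfl fun i _ => ?_
  congr 1
  · unfold ten Th De
    rw [map_mul]
    congr 1
    · rw [map_prod]
      refine Finset.prod_congr rfl fun u _ => ?_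
      rw [map_prod]
      refine Finset.prod_congr rfl fun β _ => ?_
      simp [arr2, arr1]
    · rw [map_prod]
      refine Finset.prod_congr rfl fun u _ => ?_
      rw [map_prod]
      refine Finset.prod_congr rfl fun s _ => ?_
      simp only [arr2, arr1, Equiv.coe_fn_mk, Equiv.symm_apply_apply]
      split_ifs <;> simp
  · rw [pr_legs]
    simp [arr2, arr1]

theorem poly_id1 (r : ℕ) :
    ∑ x : Fin (nl r) → B, C (De r x) * pr x = (nsq B) ^ (4 * r) := by
  have h := alg_id (R := MvPolynomial B ℝ) (A := Unit) r (fun _ _ _ _ => 1)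
    (fun (b : B) (_ : Unit) => MvPolynomial.X b)
  have h1 : (∑ a : Fin 4 → B, (∑ _i : Fin 4 → Unit, (1 : MvPolynomial B ℝ) *
      ∏ s, MvPolynomial.X (a s)) ^ 2) = (nsq B) ^ 4 := by
    unfold nsq
    rw [Fintype.sum_pow]
    refine Finset.sum_congr rfl fun a _ => ?_
    rw [Fintype.sum_unique, one_mul, Finset.prod_pow]
  rw [h1, ← pow_mul] at h
  rw [← h, ← Equiv.sum_comp (arr1 r B)]
  refine Finset.sum_congr rfl fun b _ => ?_
  rw [Fintype.sum_unique]
  congr 1
  · unfold De
    simp only [Finset.prod_const_one, one_mul]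
    rw [map_prod]
    refine Finset.prod_congr rfl fun u _ => ?_
    rw [map_prod]
    refine Finset.prod_congr rfl fun s _ => ?_
    simp only [arr1, Equiv.coe_fn_mk, Equiv.symm_apply_apply]
    split_ifs <;> simp
  · rw [pr_legs]
    simp [arr1]

/-- The closed networks. -/
theorem HH_Th [Nonempty A] (r : ℕ) {S : A → A → A → A → ℝ} {q : ℝ} (hS : Bd S q) :
    HH (nl r) (Th r S) (q ^ (2 * r)) := by
  intro E _ _ h hh
  have h1 := network hS (fun (v : Fin r × Bool) (s : Fin 4) => h (le r (v, s))) (by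
    intro e
    rw [← hh e]
    rw [Finset.card_filter, Finset.card_filter, ← Equiv.sum_comp (le r)])
  have h2 : Fintype.card (Fin r × Bool) = 2 * r := by
    simp [Fintype.card_prod, mul_comm]
  rw [h2] at h1
  refine le_trans (le_of_eq ?_) h1
  congr 1
  refine Finset.sum_congr rfl fun y _ => ?_
  unfold Th
  rw [Fintype.prod_prod_type]

end arrays

/-! ### The moment bound -/

variable {N d : ℕ}

/-- Gaussian pull-back. -/
noncomputable def gpull {N d : ℕ} (S : Fin N → Fin N → Fin N → Fin N → ℝ) (g : Fin d × Fin N → ℝ)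
    (a b c e : Fin d) : ℝ :=
  ∑ i, ∑ j, ∑ k, ∑ l, S i j k l * g (a, i) * g (b, j) * g (c, k) * g (e, l)

/-- Squared Frobenius norm. -/
noncomputable def fro {d : ℕ} (M : Fin d → Fin d → Fin d → Fin d → ℝ) : ℝ :=
  ∑ a, ∑ b, ∑ c, ∑ e, M a b c e ^ 2

theorem sum_fin4 {W : Type*} [Fintype W] (f : W → W → W → W → ℝ) :
    ∑ a : Fin 4 → W, f (a 0) (a 1) (a 2) (a 3) = ∑ i, ∑ j, ∑ k, ∑ l, f i j k l := by
  let e : (Fin 4 → W) ≃ W × W × W × W :=
    { toFun := fun a => (a 0, a 1, a 2, a 3)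
      invFun := fun p => ![p.1, p.2.1, p.2.2.1, p.2.2.2]
      left_inv := fun a => by
        funext i
        fin_cases i <;> rfl
      right_inv := fun p => rfl }
  rw [← Equiv.sum_comp e.symm]
  simp only [Fintype.sum_prod_type]
  rfl

theorem eval_poly (r : ℕ) (S : Fin N → Fin N → Fin N → Fin N → ℝ) (g : Fin d × Fin N → ℝ) :
    MvPolynomial.eval g ((∑ a : Fin 4 → Fin d, (∑ i : Fin 4 → Fin N, C (S (i 0) (i 1) (i 2) (i 3)) *
        ∏ s, MvPolynomial.X (a s, i s)) ^ 2) ^ r) = fro (gpull S g) ^ r := by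
  rw [map_pow]
  congr 1
  rw [map_sum]
  simp only [map_pow, map_sum, map_mul, eval_C, map_prod, eval_X]
  unfold fro
  rw [← sum_fin4 (fun a b c e => gpull S g a b c e ^ 2)]
  refine Finset.sum_congr rfl fun a _ => ?_
  congr 1
  unfold gpull
  rw [← sum_fin4 (fun i j k l => S i j k l * g (a 0, i) * g (a 1, j) * g (a 2, k) * g (a 3, l))]
  refine Finset.sum_congr rfl fun i _ => ?_
  rw [Fin.prod_univ_four]
  ring

theorem integrable_fro (r : ℕ) (S : Fin N → Fin N → Fin N → Fin N → ℝ) :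
    MeasureTheory.Integrable (fun g : Fin d × Fin N → ℝ => fro (gpull S g) ^ r)
      (gam (Fin d × Fin N)) := by
  have h := integrable_eval ((∑ a : Fin 4 → Fin d, (∑ i : Fin 4 → Fin N,
    C (S (i 0) (i 1) (i 2) (i 3)) * ∏ s, MvPolynomial.X (a s, i s)) ^ 2) ^ r)
  refine h.congr (Filter.Eventually.of_forall fun g => ?_)
  exact eval_poly r S g

/-- **Moment bound.** -/
theorem moment [NeZero N] {S : Fin N → Fin N → Fin N → Fin N → ℝ} {q : ℝ} (hS : Bd S q)
    (d r : ℕ) :
    ∫ g : Fin d × Fin N → ℝ, fro (gpull S g) ^ r ∂(gam (Fin d × Fin N)) ≤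
      q ^ (2 * r) * ∏ j ∈ Finset.range (4 * r), ((d : ℝ) + 2 * j) := by
  have : Nonempty (Fin N) := ⟨0⟩
  have h1 : ∫ g : Fin d × Fin N → ℝ, fro (gpull S g) ^ r ∂(gam (Fin d × Fin N)) =
      EX (ten (Th r S) (De r) : (Fin (nl r) → Fin d × Fin N) → ℝ) := by
    rw [EX_eq, poly_id, LG_real]
    congr 1
    funext g
    exact (eval_poly r S g).symm
  have h2 : EX (De r : (Fin (nl r) → Fin d) → ℝ) =
      ∏ j ∈ Finset.range (4 * r), ((d : ℝ) + 2 * j) := by
    rw [EX_eq, poly_id1, LG_nsq_pow, Fintype.card_fin]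
  rw [h1, ← h2]
  refine (le_abs_self _).trans ?_
  exact abs_EX_ten _ (pow_nonneg hS.q0 _) _ _ _ (BB_of_HH _ _ _ (HH_Th r hS)) (De_nonneg r)

end Pool.Agent.Frob61
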