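import Pool.Agent.Lib.H69.Gauss.DetWick
import Pool.Agent.Lib.H69.Gauss.Moments
import Pool.Agent.Lib.Frob61.Moment

/-!
# Upper bound for the Gauss–Bonnet integrand by the Frobenius norm
-/

set_option linter.unusedSectionVars false

open MeasureTheory Finset Function MvPolynomial Pool.Agent.H69Gauss Pool.Agent.H69Hopf
open scoped ComplexOrder

namespace Pool.Agent.Frob61

/-! ### Determinants -/

theorem prod_le_mean_pow {N : ℕ} (hN : 0 < N) (z : Fin N → ℝ) (hz : ∀ i, 0 ≤ z i) :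
    ∏ i, z i ≤ ((∑ i, z i) / N) ^ N := by
  have hN' : (0 : ℝ) < N := by exact_mod_cast hN
  have h := Real.geom_mean_le_arith_mean_weighted univ (fun _ : Fin N => (N : ℝ)⁻¹) z
    (fun _ _ => by positivity) (by simp; field_simp) (fun i _ => hz i)
  have h2 := pow_le_pow_left₀ (Finset.prod_nonneg fun i _ => Real.rpow_nonneg (hz i) _) h N
  rw [← Finset.prod_pow] at h2
  have h3 : ∀ i, (z i ^ (N : ℝ)⁻¹) ^ N = z i := fun i => Real.rpow_inv_natCast_pow (hz i) hN.ne'
  simp only [h3, ← Finset.mul_sum] at h2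
  rw [div_eq_inv_mul]
  exact h2

theorem norm_det_sq_le {N : ℕ} (hN : 0 < N) (X : Matrix (Fin N) (Fin N) ℂ) :
    ‖X.det‖ ^ 2 ≤ ((∑ i, ∑ j, ‖X i j‖ ^ 2) / N) ^ N := by
  have hH := Matrix.isHermitian_conjTranspose_mul_self X
  have hpos := (Matrix.posSemidef_conjTranspose_mul_self X).eigenvalues_nonneg
  have h1 := hH.det_eq_prod_eigenvalues
  have h2 := hH.trace_eq_sum_eigenvalues
  have h3 : ∏ i, hH.eigenvalues i = ‖X.det‖ ^ 2 := by
    rw [Matrix.det_mul, Matrix.det_conjTranspose] at h1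
    have h4 : (star X.det * X.det : ℂ) = ((‖X.det‖ ^ 2 : ℝ) : ℂ) := by
      rw [RCLike.star_def, ← Complex.normSq_eq_conj_mul_self, Complex.normSq_eq_norm_sq]
    rw [h4] at h1
    refine Complex.ofReal_injective ?_
    rw [h1]
    push_cast
    rfl
  have h5 : ∑ i, hH.eigenvalues i = ∑ i, ∑ j, ‖X i j‖ ^ 2 := by
    have h6 : (X.conjTranspose * X).trace = ((∑ i, ∑ j, ‖X i j‖ ^ 2 : ℝ) : ℂ) := by
      rw [Matrix.trace, Finset.sum_comm]
      simp only [Matrix.diag_apply, Matrix.mul_apply, Matrix.conjTranspose_apply]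
      push_cast
      refine Finset.sum_congr rfl fun i _ => Finset.sum_congr rfl fun j _ => ?_
      rw [RCLike.star_def, ← Complex.normSq_eq_conj_mul_self, Complex.normSq_eq_norm_sq]
      push_cast
      rfl
    rw [h6] at h2
    refine Complex.ofReal_injective ?_
    rw [h2]
    push_cast
    rfl
  rw [← h3, ← h5]
  exact prod_le_mean_pow hN _ hpos

/-! ### Spectral decomposition -/

theorem spec {P : Type*} [Fintype P] [DecidableEq P] (C : Matrix P P ℝ) (hC : C.IsHermitian) :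
    ∃ (l : P → ℝ) (v : P → P → ℝ), (∀ p q, C p q = ∑ a, l a * (v a p * v a q)) ∧
      (∀ a b, ∑ p, v a p * v b p = if a = b then 1 else 0) ∧
      ∑ a, l a ^ 2 = ∑ p, ∑ q, C p q ^ 2 := by
  classical
  set l : P → ℝ := hC.eigenvalues with hl
  set v : P → P → ℝ := fun a p => hC.eigenvectorBasis a p with hv
  have h1 : ∀ p q, C p q = ∑ a, l a * (v a p * v a q) := by
    intro p q
    have h := hC.spectral_theorem
    rw [Unitary.conjStarAlgAut_apply] at h
    have h2 := congrFun (congrFun h p) q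
    rw [Matrix.mul_assoc, Matrix.mul_apply] at h2
    rw [h2]
    refine Finset.sum_congr rfl fun a _ => ?_
    rw [Matrix.diagonal_mul, Matrix.IsHermitian.eigenvectorUnitary_apply]
    simp only [Function.comp_apply, RCLike.ofReal_real_eq_id, id, Matrix.star_apply,
      Matrix.IsHermitian.eigenvectorUnitary_apply, star_trivial]
    rw [hl, hv]
    ring
  have h2 : ∀ a b, ∑ p, v a p * v b p = if a = b then 1 else 0 := by
    intro a b
    have h := orthonormal_iff_ite.1 hC.eigenvectorBasis.orthonormal a b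
    rw [← h, PiLp.inner_apply]
    refine Finset.sum_congr rfl fun p _ => ?_
    simp [hv, mul_comm]
  refine ⟨l, v, h1, h2, ?_⟩
  have h3 : ∀ p q, C p q ^ 2 = ∑ a, ∑ b, l a * l b * ((v a p * v b p) * (v a q * v b q)) := by
    intro p q
    rw [h1, sq, Finset.sum_mul_sum]
    refine Finset.sum_congr rfl fun a _ => Finset.sum_congr rfl fun b _ => ?_
    ring
  simp only [h3]
  have h4 : (∑ p, ∑ q, ∑ a, ∑ b, l a * l b * ((v a p * v b p) * (v a q * v b q))) =
      ∑ a, ∑ b, l a * l b * ((∑ p, v a p * v b p) * (∑ q, v a q * v b q)) := by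
    have e1 : ∀ p, (∑ q, ∑ a, ∑ b, l a * l b * ((v a p * v b p) * (v a q * v b q))) =
        ∑ a, ∑ b, ∑ q, l a * l b * ((v a p * v b p) * (v a q * v b q)) := by
      intro p
      rw [Finset.sum_comm]
      refine Finset.sum_congr rfl fun a _ => ?_
      rw [Finset.sum_comm]
    simp only [e1]
    rw [Finset.sum_comm]
    refine Finset.sum_congr rfl fun a _ => ?_
    rw [Finset.sum_comm]
    refine Finset.sum_congr rfl fun b _ => ?_
    rw [Finset.sum_mul_sum, Finset.mul_sum]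
    refine Finset.sum_congr rfl fun p _ => ?_
    rw [Finset.mul_sum]
  rw [h4]
  simp only [h2]
  refine Finset.sum_congr rfl fun a _ => ?_
  rw [Finset.sum_eq_single a]
  · simp [sq]
  · intro b _ hb
    simp [Ne.symm hb]
  · simp

/-! ### Moments of quadratic forms -/

section quad

variable {P : Type*} [Fintype P] [DecidableEq P]

/-- A diagonal quadratic form. -/
noncomputable def qf (w : P → ℝ) : MvPolynomial P ℝ := ∑ a, C (w a) * X a ^ 2

theorem pderiv_qf (w : P → ℝ) (a : P) : pderiv a (qf w) = C (2 * w a) * X a := by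
  unfold qf
  rw [map_sum, Finset.sum_eq_single a]
  · rw [pderiv_C_mul, Derivation.leibniz_pow, pderiv_X_self]
    have h3 : (C (2 : ℝ) : MvPolynomial P ℝ) = 2 := map_ofNat C 2
    simp only [nsmul_eq_mul, smul_eq_mul, C_mul, h3]
    push_cast
    ring
  · intro b _ hb
    rw [pderiv_C_mul, Derivation.leibniz_pow, pderiv_X_of_ne hb]
    simp
  · simp

theorem eval_qf (w : P → ℝ) (x : P → ℝ) : MvPolynomial.eval x (qf w) = ∑ a, w a * x a ^ 2 := by
  unfold qf
  simp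

theorem LG_mono {p q : MvPolynomial P ℝ} (h : ∀ x, MvPolynomial.eval x p ≤ MvPolynomial.eval x q) :
    LG p ≤ LG q := by
  rw [LG_real, LG_real]
  exact integral_mono (integrable_eval p) (integrable_eval q) h

theorem LG_qf_succ (w : P → ℝ) (m : ℕ) : LG (qf w ^ (m + 1)) =
    (∑ a, w a) * LG (qf w ^ m) + 2 * m * LG (qf (fun a => w a ^ 2) * qf w ^ (m - 1)) := by
  have h0 : qf w ^ (m + 1) = ∑ a, C (w a) * (X a * (X a * qf w ^ m)) := by
    rw [pow_succ']
    conv_lhs => rw [qf]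
    rw [Finset.sum_mul]
    refine Finset.sum_congr rfl fun a _ => ?_
    rw [qf]
    ring
  rw [h0, LG_sum]
  have h1 : ∀ a, LG (C (w a) * (X a * (X a * qf w ^ m))) =
      w a * LG (qf w ^ m) + 2 * m * LG (C (w a ^ 2) * X a ^ 2 * qf w ^ (m - 1)) := by
    intro a
    rw [LG_C_mul, LG_X_mul, pderiv_mul, pderiv_X_self, one_mul, LG_add, mul_add]
    congr 1
    rw [Derivation.leibniz_pow, pderiv_qf, ← LG_C_mul, ← LG_C_mul]
    congr 1
    have h3 : (C (2 : ℝ) : MvPolynomial P ℝ) = 2 := map_ofNat C 2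
    have h4 : (C ((m : ℝ)) : MvPolynomial P ℝ) = (m : MvPolynomial P ℝ) := by simp
    simp only [nsmul_eq_mul, smul_eq_mul, C_mul, h3, h4, C_pow]
    ring
  rw [Finset.sum_congr rfl (fun a _ => h1 a), Finset.sum_add_distrib, ← Finset.sum_mul,
    ← Finset.mul_sum]
  congr 2
  rw [← LG_sum, ← Finset.sum_mul]
  rfl

theorem LG_qf_nonneg (w : P → ℝ) (hw : ∀ a, 0 ≤ w a) (m : ℕ) : 0 ≤ LG (qf w ^ m) := by
  rw [LG_real]
  refine integral_nonneg fun x => ?_
  simp only [map_pow, eval_qf]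
  exact pow_nonneg (Finset.sum_nonneg fun a _ => mul_nonneg (hw a) (sq_nonneg _)) _

theorem LG_qf_le (w : P → ℝ) (hw : ∀ a, 0 ≤ w a) {s t : ℝ} (hs : ∑ a, w a ≤ s)
    (ht : ∀ a, w a ≤ t) (ht0 : 0 ≤ t) (m : ℕ) :
    LG (qf w ^ m) ≤ ∏ j ∈ Finset.range m, (s + 2 * j * t) := by
  induction m with
  | zero => simp [LG_one]
  | succ m ih =>
    have h1 : 2 * m * LG (qf (fun a => w a ^ 2) * qf w ^ (m - 1)) ≤
        2 * m * t * LG (qf w ^ m) := by
      rcases m with _ | m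
      · simp
      rw [mul_assoc (2 * ((m + 1 : ℕ) : ℝ)) t]
      refine mul_le_mul_of_nonneg_left ?_ (by positivity)
      rw [← LG_C_mul]
      refine LG_mono fun x => ?_
      have hq : 0 ≤ ∑ a, w a * x a ^ 2 :=
        Finset.sum_nonneg fun a _ => mul_nonneg (hw a) (sq_nonneg _)
      simp only [map_mul, map_pow, eval_qf, eval_C, Nat.add_sub_cancel]
      rw [pow_succ', ← mul_assoc]
      refine mul_le_mul_of_nonneg_right ?_ (pow_nonneg hq _)
      rw [Finset.mul_sum]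
      refine Finset.sum_le_sum fun a _ => ?_
      rw [sq (w a), mul_assoc]
      exact mul_le_mul_of_nonneg_right (ht a) (mul_nonneg (hw a) (sq_nonneg _))
    have hs0 : 0 ≤ s := le_trans (Finset.sum_nonneg fun a _ => hw a) hs
    have hL := LG_qf_nonneg w hw m
    rw [LG_qf_succ, Finset.prod_range_succ]
    calc _ ≤ s * LG (qf w ^ m) + 2 * m * t * LG (qf w ^ m) :=
          add_le_add (mul_le_mul_of_nonneg_right hs hL) h1
      _ = LG (qf w ^ m) * (s + 2 * m * t) := by ring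
      _ ≤ _ := mul_le_mul_of_nonneg_right ih (by positivity)

end quad

/-! ### The bound -/

/-- The symmetric operator. -/
noncomputable def Cop {N : ℕ} (M : Arr N) : Matrix (Fin N × Fin N) (Fin N × Fin N) ℝ :=
  Matrix.of fun p q => (M p.1 q.1 p.2 q.2 + M p.1 q.2 p.2 q.1) / 3

theorem skew2 {N : ℕ} {M : Arr N} (h : IsAlgCurv M) (i j k l : Fin N) :
    M i j k l = - M i j l k := by
  rw [h.pair i j k l, h.skew k l i j, h.pair l k i j]

theorem Cop_herm {N : ℕ} {M : Arr N} (h : IsAlgCurv M) : (Cop M).IsHermitian := by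
  ext p q
  simp only [Matrix.conjTranspose_apply, Cop, Matrix.of_apply, star_trivial]
  have e1 : M q.1 p.1 q.2 p.2 = M p.1 q.1 p.2 q.2 := by
    rw [h.skew, skew2 h, neg_neg]
  have e2 : M q.1 p.2 q.2 p.1 = M p.1 q.2 p.2 q.1 := by
    rw [h.pair, h.skew, skew2 h, neg_neg]
  rw [e1, e2]

theorem Cop_alt {N : ℕ} {M : Arr N} (h : IsAlgCurv M) (i j k l : Fin N) :
    M i j k l = Cop M (i, k) (j, l) - Cop M (i, l) (j, k) := by
  simp only [Cop, Matrix.of_apply]
  have e1 := h.bianchi i j k l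
  have e2 := skew2 h i j l k
  have e3 : M i l k j = - M j k i l := by
    rw [h.pair i l k j, h.skew k j i l]
  have e4 : M i k l j = M k i j l := by
    rw [h.skew i k l j, skew2 h k i l j, neg_neg]
  rw [e3, e4]
  linarith

theorem fro_eq {N : ℕ} (M : Arr N) : fro M = ∑ q : Fin N × Fin N × Fin N × Fin N,
    M q.1 q.2.1 q.2.2.1 q.2.2.2 ^ 2 := by
  unfold fro
  simp only [Fintype.sum_prod_type]

theorem fro_nonneg {N : ℕ} (M : Arr N) : 0 ≤ fro M := by
  rw [fro_eq]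
  exact Finset.sum_nonneg fun _ _ => sq_nonneg _

/-- The cross term. -/
theorem fro_cross {N : ℕ} {M : Arr N} (h : IsAlgCurv M) :
    ∑ q : Fin N × Fin N × Fin N × Fin N,
      M q.1 q.2.1 q.2.2.1 q.2.2.2 * M q.1 q.2.2.2 q.2.2.1 q.2.1 = fro M / 2 := by
  let e2 : (Fin N × Fin N × Fin N × Fin N) ≃ (Fin N × Fin N × Fin N × Fin N) :=
    { toFun := fun q => (q.2.1, q.2.2.1, q.1, q.2.2.2)
      invFun := fun q => (q.2.2.1, q.1, q.2.1, q.2.2.2)
      left_inv := fun q => rfl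
      right_inv := fun q => rfl }
  have h3 : ∑ q : Fin N × Fin N × Fin N × Fin N,
      M q.1 q.2.1 q.2.2.1 q.2.2.2 * M q.2.1 q.2.2.1 q.1 q.2.2.2 =
      ∑ q : Fin N × Fin N × Fin N × Fin N,
      M q.1 q.2.1 q.2.2.1 q.2.2.2 * M q.2.2.1 q.1 q.2.1 q.2.2.2 := by
    rw [← Equiv.sum_comp e2 (fun q : Fin N × Fin N × Fin N × Fin N =>
      M q.1 q.2.1 q.2.2.1 q.2.2.2 * M q.2.2.1 q.1 q.2.1 q.2.2.2)]
    refine Finset.sum_congr rfl fun q _ => ?_
    simp only [e2, Equiv.coe_fn_mk]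
    ring
  have h4 : fro M + 2 * ∑ q : Fin N × Fin N × Fin N × Fin N,
      M q.1 q.2.1 q.2.2.1 q.2.2.2 * M q.2.1 q.2.2.1 q.1 q.2.2.2 = 0 := by
    have h5 : fro M + ∑ q : Fin N × Fin N × Fin N × Fin N,
      M q.1 q.2.1 q.2.2.1 q.2.2.2 * M q.2.1 q.2.2.1 q.1 q.2.2.2 +
      ∑ q : Fin N × Fin N × Fin N × Fin N,
      M q.1 q.2.1 q.2.2.1 q.2.2.2 * M q.2.2.1 q.1 q.2.1 q.2.2.2 = 0 := by
      rw [fro_eq, ← Finset.sum_add_distrib, ← Finset.sum_add_distrib]
      refine Finset.sum_eq_zero fun q _ => ?_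
      have := h.bianchi q.1 q.2.1 q.2.2.1 q.2.2.2
      have e : ∀ a b c : ℝ, a + b + c = 0 → a ^ 2 + a * b + a * c = 0 := by
        intro a b c habc
        have : a ^ 2 + a * b + a * c = a * (a + b + c) := by ring
        rw [this, habc, mul_zero]
      exact e _ _ _ this
    linarith
  have h7 : ∑ q : Fin N × Fin N × Fin N × Fin N,
      M q.1 q.2.1 q.2.2.1 q.2.2.2 * M q.1 q.2.2.2 q.2.2.1 q.2.1 =
      - ∑ q : Fin N × Fin N × Fin N × Fin N,
      M q.1 q.2.1 q.2.2.1 q.2.2.2 * M q.2.1 q.2.2.1 q.1 q.2.2.2 := by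
    rw [← Finset.sum_neg_distrib]
    refine Finset.sum_congr rfl fun q _ => ?_
    rw [h.pair q.1 q.2.2.2 q.2.2.1 q.2.1, h.skew q.2.2.1 q.2.1 q.1 q.2.2.2]
    ring
  rw [h7]
  linarith

theorem Cop_sq {N : ℕ} {M : Arr N} (h : IsAlgCurv M) :
    ∑ p, ∑ q, Cop M p q ^ 2 = fro M / 3 := by
  have h1 : ∑ p, ∑ q, Cop M p q ^ 2 = ∑ q : Fin N × Fin N × Fin N × Fin N,
      ((M q.1 q.2.1 q.2.2.1 q.2.2.2 + M q.1 q.2.2.2 q.2.2.1 q.2.1) / 3) ^ 2 := by
    simp only [Fintype.sum_prod_type, Cop, Matrix.of_apply]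
    refine Finset.sum_congr rfl fun i _ => ?_
    rw [Finset.sum_comm]
  let e1 : (Fin N × Fin N × Fin N × Fin N) ≃ (Fin N × Fin N × Fin N × Fin N) :=
    { toFun := fun q => (q.1, q.2.2.2, q.2.2.1, q.2.1)
      invFun := fun q => (q.1, q.2.2.2, q.2.2.1, q.2.1)
      left_inv := fun q => rfl
      right_inv := fun q => rfl }
  have h2 : ∑ q : Fin N × Fin N × Fin N × Fin N, M q.1 q.2.2.2 q.2.2.1 q.2.1 ^ 2 = fro M := by
    rw [fro_eq, ← Equiv.sum_comp e1]
    rfl
  rw [h1]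
  have h8 : ∀ q : Fin N × Fin N × Fin N × Fin N,
      ((M q.1 q.2.1 q.2.2.1 q.2.2.2 + M q.1 q.2.2.2 q.2.2.1 q.2.1) / 3) ^ 2 =
      (1 / 9) * M q.1 q.2.1 q.2.2.1 q.2.2.2 ^ 2 + (1 / 9) * M q.1 q.2.2.2 q.2.2.1 q.2.1 ^ 2 +
      (2 / 9) * (M q.1 q.2.1 q.2.2.1 q.2.2.2 * M q.1 q.2.2.2 q.2.2.1 q.2.1) := by
    intro q
    ring
  simp only [h8, Finset.sum_add_distrib, ← Finset.mul_sum]
  rw [h2, fro_cross h, ← fro_eq]
  ring

/-- Frobenius norm of a combination of orthonormal matrices. -/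
theorem norm_comb {ι : Type*} [Fintype ι] [DecidableEq ι] {d : ℕ} (s : ι → ℂ)
    (v : ι → Fin d × Fin d → ℝ) (hv : ∀ a b, ∑ p, v a p * v b p = if a = b then 1 else 0)
    (x : ι → ℝ) :
    ∑ i, ∑ j, ‖(∑ a, (x a : ℂ) • (Matrix.of fun i j => s a * (v a (i, j) : ℂ))) i j‖ ^ 2 =
      ∑ a, ‖s a‖ ^ 2 * x a ^ 2 := by
  have h4 : ∀ i j, (((‖(∑ a, (x a : ℂ) • (Matrix.of fun i j => s a * (v a (i, j) : ℂ))) i j‖ ^ 2
        : ℝ)) : ℂ) =
      ∑ a, ∑ b, ((x a : ℂ) * s a) * ((x b : ℂ) * star (s b)) *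
        ((v a (i, j) : ℂ) * (v b (i, j) : ℂ)) := by
    intro i j
    rw [← Complex.normSq_eq_norm_sq, ← Complex.mul_conj]
    simp only [Matrix.sum_apply, Matrix.smul_apply, Matrix.of_apply, smul_eq_mul, map_sum,
      map_mul, Complex.conj_ofReal]
    rw [Finset.sum_mul_sum]
    refine Finset.sum_congr rfl fun a _ => Finset.sum_congr rfl fun b _ => ?_
    rw [RCLike.star_def]
    ring
  refine Complex.ofReal_injective ?_
  rw [Complex.ofReal_sum]
  simp only [Complex.ofReal_sum, h4]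
  have h7 : (∑ i, ∑ j, ∑ a, ∑ b, ((x a : ℂ) * s a) * ((x b : ℂ) * star (s b)) *
      ((v a (i, j) : ℂ) * (v b (i, j) : ℂ))) =
      ∑ a, ∑ b, ((x a : ℂ) * s a) * ((x b : ℂ) * star (s b)) *
        (((∑ p : Fin d × Fin d, v a p * v b p : ℝ)) : ℂ) := by
    rw [← Fintype.sum_prod_type' (fun (i j : Fin d) =>
      ∑ a, ∑ b, ((x a : ℂ) * s a) * ((x b : ℂ) * star (s b)) *
      ((v a (i, j) : ℂ) * (v b (i, j) : ℂ)))]
    rw [Finset.sum_comm]
    refine Finset.sum_congr rfl fun a _ => ?_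
    rw [Finset.sum_comm]
    refine Finset.sum_congr rfl fun b _ => ?_
    push_cast
    rw [Finset.mul_sum]
  rw [h7]
  refine Finset.sum_congr rfl fun a _ => ?_
  rw [Finset.sum_eq_single a]
  · rw [hv, if_pos rfl]
    have : (s a) * star (s a) = ((‖s a‖ ^ 2 : ℝ) : ℂ) := by
      rw [RCLike.star_def, Complex.mul_conj, Complex.normSq_eq_norm_sq]
    push_cast at this ⊢
    rw [← this]
    ring
  · intro b _ hb
    rw [hv, if_neg (Ne.symm hb)]
    simp
  · simp

/-- **Bound for the Gauss–Bonnet integrand.** -/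
theorem abs_gb_le {k : ℕ} (hk : 1 ≤ k) {M : Arr (2 * k)} (h : IsAlgCurv M) :
    |gaussBonnet k M| ≤ 4 ^ k * (k.factorial : ℝ) * (((2 * k : ℝ)⁻¹) ^ k *
      ((√(fro M / 3)) ^ k * ∏ j ∈ Finset.range k, ((2 * k : ℝ) + 2 * j))) := by
  classical
  obtain ⟨l, v, hC, hv, hl⟩ := spec (Cop M) (Cop_herm h)
  rw [Cop_sq h] at hl
  -- complex square roots
  have hroot : ∀ a, ∃ s : ℂ, s ^ 2 = (l a : ℂ) := fun a =>
    IsAlgClosed.exists_pow_nat_eq (l a : ℂ) two_pos
  choose s hs using hroot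
  have hs2 : ∀ a, ‖s a‖ ^ 2 = |l a| := by
    intro a
    rw [← norm_pow, hs, Complex.norm_real, Real.norm_eq_abs]
  set B : Fin (2 * k) × Fin (2 * k) → Matrix (Fin (2 * k)) (Fin (2 * k)) ℂ := fun a =>
    Matrix.of fun i j => s a * (v a (i, j) : ℂ) with hB
  have hR : ∀ i j m n, ((M i j m n : ℝ) : ℂ) =
      ∑ a, (B a i m * B a j n - B a i n * B a j m) := by
    intro i j m n
    rw [Cop_alt h, hC, hC]
    push_cast
    rw [← Finset.sum_sub_distrib]
    refine Finset.sum_congr rfl fun a _ => ?_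
    rw [← hs a]
    simp only [hB, Matrix.of_apply]
    ring
  have h1 := gb_eq_LG k B M hR
  rw [LG_det] at h1
  have hint := integrable_det B
  -- pointwise bound
  have hpt : ∀ x : Fin (2 * k) × Fin (2 * k) → ℝ, ‖(∑ a, (x a : ℂ) • B a).det‖ ≤
      (((2 * k : ℝ))⁻¹) ^ k * (∑ a, |l a| * x a ^ 2) ^ k := by
    intro x
    have h2 := norm_det_sq_le (N := 2 * k) (by omega) (∑ a, (x a : ℂ) • B a)
    have h3 := norm_comb s v hv x
    simp only [hs2] at h3
    rw [h3] at h2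
    have h8 : 0 ≤ ∑ a, |l a| * x a ^ 2 :=
      Finset.sum_nonneg fun a _ => mul_nonneg (abs_nonneg _) (sq_nonneg _)
    have h9 : ((∑ a, |l a| * x a ^ 2) / ((2 * k : ℕ) : ℝ)) ^ (2 * k) =
        ((((2 * k : ℝ))⁻¹) ^ k * (∑ a, |l a| * x a ^ 2) ^ k) ^ 2 := by
      rw [← mul_pow, ← pow_mul, mul_comm k 2]
      congr 1
      push_cast
      rw [div_eq_inv_mul]
    rw [h9] at h2
    exact le_of_sq_le_sq h2 (mul_nonneg (by positivity) (pow_nonneg h8 _))
  -- the moment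
  have hS0 : 0 ≤ fro M / 3 := div_nonneg (fro_nonneg M) (by norm_num)
  set t := √(fro M / 3) with ht
  have ht0 : 0 ≤ t := Real.sqrt_nonneg _
  have ht2 : t ^ 2 = fro M / 3 := Real.sq_sqrt hS0
  have hmax : ∀ a, |l a| ≤ t := by
    intro a
    refine Real.abs_le_sqrt ?_
    rw [← hl]
    exact Finset.single_le_sum (f := fun a => l a ^ 2) (fun _ _ => sq_nonneg _)
      (Finset.mem_univ a)
  have hsum : ∑ a, |l a| ≤ 2 * k * t := by
    have h10 := Finset.sum_mul_sq_le_sq_mul_sq Finset.univ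
      (fun _ : Fin (2 * k) × Fin (2 * k) => (1 : ℝ)) (fun a => |l a|)
    simp only [one_mul, one_pow, Finset.sum_const, Finset.card_univ, Fintype.card_prod,
      Fintype.card_fin, nsmul_eq_mul, mul_one, sq_abs, hl, ← ht2] at h10
    refine le_of_sq_le_sq (h10.trans (le_of_eq ?_)) (by positivity)
    push_cast
    ring
  have hmom : ∫ x : Fin (2 * k) × Fin (2 * k) → ℝ, (∑ a, |l a| * x a ^ 2) ^ k ∂(gam _) ≤
      t ^ k * ∏ j ∈ Finset.range k, ((2 * k : ℝ) + 2 * j) := by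
    have h11 := LG_qf_le (fun a => |l a|) (fun a => abs_nonneg _) hsum hmax ht0 k
    rw [LG_real] at h11
    simp only [map_pow, eval_qf] at h11
    refine h11.trans (le_of_eq ?_)
    have h12 : ∏ j ∈ Finset.range k, ((2 * k : ℝ) * t + 2 * j * t) =
        ∏ j ∈ Finset.range k, (t * ((2 * k : ℝ) + 2 * j)) :=
      Finset.prod_congr rfl fun j _ => by ring
    rw [h12, Finset.prod_mul_distrib, Finset.prod_const, Finset.card_range]
  have hint2 : Integrable (fun x : Fin (2 * k) × Fin (2 * k) → ℝ =>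
      (((2 * k : ℝ))⁻¹) ^ k * (∑ a, |l a| * x a ^ 2) ^ k) (gam _) := by
    refine Integrable.const_mul ?_ _
    have h13 := integrable_eval (qf (fun a => |l a|) ^ k)
    simp only [map_pow, eval_qf] at h13
    exact h13
  have h14 : |gaussBonnet k M| = 4 ^ k * (k.factorial : ℝ) *
      ‖∫ x : Fin (2 * k) × Fin (2 * k) → ℝ, (∑ a, (x a : ℂ) • B a).det ∂(gam _)‖ := by
    have h15 := congrArg norm h1
    rw [norm_mul] at h15
    have h16 : ‖((gaussBonnet k M : ℝ) : ℂ)‖ = |gaussBonnet k M| := by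
      rw [Complex.norm_real, Real.norm_eq_abs]
    have h17 : ‖((4 : ℂ) ^ k * (k.factorial : ℂ))‖ = 4 ^ k * (k.factorial : ℝ) := by
      rw [norm_mul, norm_pow]
      simp
    rw [h17] at h15
    rw [← h16]
    exact h15
  rw [h14]
  refine mul_le_mul_of_nonneg_left ?_ (by positivity)
  refine (norm_integral_le_integral_norm _).trans ?_
  refine (integral_mono hint.norm hint2 hpt).trans ?_
  rw [integral_const_mul]
  exact mul_le_mul_of_nonneg_left hmom (by positivity)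

end Pool.Agent.Frob61
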