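import Pool.Agent.Lib.Frob61.Comb

/-!
# Expansion of the Gauss–Bonnet integrand of `identity + S`
-/

set_option linter.unusedSectionVars false

open Equiv MeasureTheory Finset Function Pool.Agent.H69Gauss Pool.Agent.H69Hopf

namespace Pool.Agent.Frob61

/-- The first indices. -/
def eqv {n k : ℕ} (h : 2 * k ≤ 2 * n) : Fin (2 * k) ≃ {r : Fin (2 * n) // r.1 < 2 * k} where
  toFun i := ⟨Fin.castLE h i, i.2⟩
  invFun r := ⟨r.1.1, r.2⟩
  left_inv _ := rfl
  right_inv _ := rfl

theorem ofSubtype_castLE {n k : ℕ} (h : 2 * k ≤ 2 * n) (ρ : Perm (Fin (2 * k)))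
    (j : Fin (2 * k)) :
    Perm.ofSubtype ((eqv h).permCongr ρ) (Fin.castLE h j) = Fin.castLE h (ρ j) := by
  have h1 : (Fin.castLE h j : Fin (2 * n)) = ((eqv h j : {r : Fin (2 * n) // r.1 < 2 * k}) :
    Fin (2 * n)) := rfl
  rw [h1, Perm.ofSubtype_apply_coe, Equiv.permCongr_apply, Equiv.symm_apply_apply]
  rfl

/-- Sum over the permutations fixing the last indices. -/
theorem sum_perm_fix {n k : ℕ} (h : 2 * k ≤ 2 * n) (G : Perm (Fin (2 * n)) → ℝ) :
    ∑ π : Perm (Fin (2 * n)), (if ∀ r : Fin (2 * n), ¬ r.1 < 2 * k → π r = r then G π else 0) =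
      ∑ ρ : Perm (Fin (2 * k)), G (Perm.ofSubtype ((eqv h).permCongr ρ)) := by
  classical
  rw [← Finset.sum_filter]
  rw [Equiv.sum_comp ((eqv h).permCongr) (fun p : Perm {r : Fin (2 * n) // r.1 < 2 * k} =>
    G (Perm.ofSubtype p))]
  symm
  refine Finset.sum_bij (fun p _ => Perm.ofSubtype p) (fun p _ => ?_) (fun p _ p' _ hp => ?_)
    (fun π hπ => ?_) (fun _ _ => rfl)
  · rw [Finset.mem_filter]
    exact ⟨Finset.mem_univ _, fun r hr => Perm.ofSubtype_apply_of_not_mem p hr⟩
  · exact Perm.ofSubtype_injective hp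
  · have h1 := (Finset.mem_filter.1 hπ).2
    refine ⟨((Perm.subtypeEquivSubtypePerm (fun r : Fin (2 * n) => r.1 < 2 * k)).symm ⟨π, h1⟩),
      Finset.mem_univ _, ?_⟩
    have h2 := (Perm.subtypeEquivSubtypePerm (fun r : Fin (2 * n) => r.1 < 2 * k)).apply_symm_apply
      ⟨π, h1⟩
    exact congrArg Subtype.val h2

theorem sgn_sq {M : ℕ} (σ : Perm (Fin M)) :
    ((Perm.sign σ : ℤ) : ℝ) * ((Perm.sign σ : ℤ) : ℝ) = 1 := by
  rcases Int.units_eq_one_or (Perm.sign σ) with h | h <;> rw [h] <;> norm_num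

/-- The inner sum. -/
theorem inner_sum {n k : ℕ} (h : 2 * k ≤ 2 * n) (S : Arr (2 * n)) (σ : Perm (Fin (2 * n))) :
    ∑ τ : Perm (Fin (2 * n)), ((Perm.sign σ : ℤ) : ℝ) * (((Perm.sign τ : ℤ) : ℝ) *
      (if ∀ r : Fin (2 * n), ¬ r.1 < 2 * k → τ r = σ r then
        ∏ i : Fin k, S (σ (Fin.castLE h (fst i))) (σ (Fin.castLE h (snd i)))
          (τ (Fin.castLE h (fst i))) (τ (Fin.castLE h (snd i))) else 0)) =
      ctr k S (fun i => σ (Fin.castLE h i)) := by
  classical
  rw [← Equiv.sum_comp (Equiv.mulLeft σ)]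
  have h1 : ∀ π : Perm (Fin (2 * n)), ((Perm.sign σ : ℤ) : ℝ) *
      (((Perm.sign (Equiv.mulLeft σ π) : ℤ) : ℝ) *
      (if ∀ r : Fin (2 * n), ¬ r.1 < 2 * k → (Equiv.mulLeft σ π) r = σ r then
        ∏ i : Fin k, S (σ (Fin.castLE h (fst i))) (σ (Fin.castLE h (snd i)))
          ((Equiv.mulLeft σ π) (Fin.castLE h (fst i)))
          ((Equiv.mulLeft σ π) (Fin.castLE h (snd i))) else 0)) =
      if ∀ r : Fin (2 * n), ¬ r.1 < 2 * k → π r = r then ((Perm.sign π : ℤ) : ℝ) *
        ∏ i : Fin k, S (σ (Fin.castLE h (fst i))) (σ (Fin.castLE h (snd i)))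
          (σ (π (Fin.castLE h (fst i)))) (σ (π (Fin.castLE h (snd i)))) else 0 := by
    intro π
    simp only [Equiv.coe_mulLeft, Perm.mul_apply, EmbeddingLike.apply_eq_iff_eq, Perm.sign_mul]
    split_ifs
    · push_cast
      rw [← mul_assoc, ← mul_assoc, sgn_sq, one_mul]
    · simp
  rw [Finset.sum_congr rfl (fun π _ => h1 π)]
  rw [sum_perm_fix h (fun π => ((Perm.sign π : ℤ) : ℝ) *
        ∏ i : Fin k, S (σ (Fin.castLE h (fst i))) (σ (Fin.castLE h (snd i)))
          (σ (π (Fin.castLE h (fst i)))) (σ (π (Fin.castLE h (snd i)))))]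
  unfold ctr
  refine Finset.sum_congr rfl fun ρ _ => ?_
  simp only [ofSubtype_castLE]
  rw [Perm.sign_ofSubtype, Perm.sign_permCongr]

/-- Terms of the expansion. -/
theorem mgb_fam {n k : ℕ} (hk : k ≤ n) (S : Arr (2 * n))
    (hS : ∀ i j l m, S i j l m = - S i j m l) :
    mgb (fam (fun i : Fin n => decide (k ≤ i.1)) S) =
      2 ^ (n - k) * ((2 * n - 2 * k).factorial : ℝ) * ∑ f, ctr k S f := by
  classical
  have h : 2 * k ≤ 2 * n := by omega
  -- the antisymmetrisation
  have h1 : ∀ σ : Perm (Fin (2 * n)), ∑ τ : Perm (Fin (2 * n)),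
      ((Perm.sign σ : ℤ) : ℝ) * ((Perm.sign τ : ℤ) : ℝ) *
      ∏ i : Fin n, fam (fun i : Fin n => decide (k ≤ i.1)) S i (σ (fst i)) (σ (snd i))
        (τ (fst i)) (τ (snd i)) = 2 ^ (n - k) * ctr k S (fun i => σ (Fin.castLE h i)) := by
    intro σ
    set T : Fin n → Fin (2 * n) → Fin (2 * n) → ℝ := fun i a b =>
      if k ≤ i.1 then (if σ (fst i) = a then 1 else 0) * (if σ (snd i) = b then 1 else 0)
      else (1 / 2) * S (σ (fst i)) (σ (snd i)) a b with hT
    have h2 : ∀ i a b, fam (fun i : Fin n => decide (k ≤ i.1)) S i (σ (fst i)) (σ (snd i)) a b =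
        T i a b - T i b a := by
      intro i a b
      unfold fam
      by_cases hi : k ≤ i.1
      · simp only [hT, hi, decide_true, if_true, idA]
      · simp only [hT, hi, decide_false, if_false, Bool.false_eq_true]
        rw [hS _ _ b a]
        ring
    have h3 := antisym_expand (𝕜 := ℝ) T
    simp only [h2]
    have h4 : ∀ τ : Perm (Fin (2 * n)), ∏ i : Fin n, T i (τ (fst i)) (τ (snd i)) =
        (1 / 2) ^ k * (if ∀ r : Fin (2 * n), ¬ r.1 < 2 * k → τ r = σ r then
        ∏ i : Fin k, S (σ (Fin.castLE h (fst i))) (σ (Fin.castLE h (snd i)))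
          (τ (Fin.castLE h (fst i))) (τ (Fin.castLE h (snd i))) else 0) := by
      intro τ
      have hsplit : (Finset.univ.filter fun i : Fin n => ¬ k ≤ i.1) =
          Finset.univ.map (Fin.castLEEmb hk) := by
        ext i
        simp only [Finset.mem_filter, Finset.mem_univ, true_and, Finset.mem_map]
        constructor
        · intro hi
          exact ⟨⟨i.1, by omega⟩, Fin.ext rfl⟩
        · rintro ⟨a, rfl⟩
          simp
      rw [← Finset.prod_filter_mul_prod_filter_not (Finset.univ : Finset (Fin n))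
        (fun i => k ≤ i.1), hsplit, Finset.prod_map]
      have h5 : ∏ i : Fin k, T (Fin.castLEEmb hk i) (τ (fst (Fin.castLEEmb hk i)))
          (τ (snd (Fin.castLEEmb hk i))) = (1 / 2) ^ k *
          ∏ i : Fin k, S (σ (Fin.castLE h (fst i))) (σ (Fin.castLE h (snd i)))
          (τ (Fin.castLE h (fst i))) (τ (Fin.castLE h (snd i))) := by
        have : ((1 : ℝ) / 2) ^ k = ∏ _i : Fin k, (1 / 2 : ℝ) := by simp
        rw [this, ← Finset.prod_mul_distrib]
        refine Finset.prod_congr rfl fun i _ => ?_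
        have hi : ¬ k ≤ (Fin.castLEEmb hk i).1 := by simp
        simp only [hT, hi, if_false]
        rfl
      rw [h5]
      by_cases hC : ∀ r : Fin (2 * n), ¬ r.1 < 2 * k → τ r = σ r
      · rw [if_pos hC]
        have h6 : ∏ i ∈ Finset.univ.filter (fun i : Fin n => k ≤ i.1),
            T i (τ (fst i)) (τ (snd i)) = 1 := by
          refine Finset.prod_eq_one fun i hi => ?_
          have hi' : k ≤ i.1 := (Finset.mem_filter.1 hi).2
          have e1 : τ (fst i) = σ (fst i) := hC _ (by simp only [fst]; omega)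
          have e2 : τ (snd i) = σ (snd i) := hC _ (by simp only [snd]; omega)
          simp only [hT, hi', if_true, e1, e2, mul_one]
        rw [h6, one_mul]
      · rw [if_neg hC]
        push Not at hC
        obtain ⟨r, hr, hne⟩ := hC
        obtain ⟨i, hi⟩ := exists_fst_or_snd r
        have hik : k ≤ i.1 := by
          rcases hi with rfl | rfl
          · simp only [fst] at hr; omega
          · simp only [snd] at hr; omega
        have h6 : ∏ i ∈ Finset.univ.filter (fun i : Fin n => k ≤ i.1),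
            T i (τ (fst i)) (τ (snd i)) = 0 := by
          refine Finset.prod_eq_zero (Finset.mem_filter.2 ⟨Finset.mem_univ i, hik⟩) ?_
          simp only [hT, hik, if_true]
          rcases hi with rfl | rfl
          · rw [if_neg (fun h : σ (fst i) = τ (fst i) => hne h.symm), zero_mul]
          · rw [if_neg (fun h : σ (snd i) = τ (snd i) => hne h.symm), mul_zero]
        rw [h6, zero_mul, mul_zero]
    have h7 : ∑ τ : Perm (Fin (2 * n)), ((Perm.sign σ : ℤ) : ℝ) * ((Perm.sign τ : ℤ) : ℝ) *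
        ∏ i : Fin n, (T i (τ (fst i)) (τ (snd i)) - T i (τ (snd i)) (τ (fst i))) =
        ((Perm.sign σ : ℤ) : ℝ) * (2 ^ n * ∑ τ : Perm (Fin (2 * n)), ((Perm.sign τ : ℤ) : ℝ) *
          ∏ i : Fin n, T i (τ (fst i)) (τ (snd i))) := by
      rw [← h3, Finset.mul_sum]
      refine Finset.sum_congr rfl fun τ _ => ?_
      ring
    rw [h7]
    simp only [h4]
    rw [← inner_sum h S σ, Finset.mul_sum, Finset.mul_sum, Finset.mul_sum]
    refine Finset.sum_congr rfl fun τ _ => ?_
    have h8 : (2 : ℝ) ^ n * (1 / 2) ^ k = 2 ^ (n - k) := by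
      have : (2 : ℝ) ^ n = 2 ^ (n - k) * 2 ^ k := by
        rw [← pow_add]; congr 1; omega
      rw [this, mul_assoc, ← mul_pow]
      norm_num
    rw [← h8]
    ring
  unfold mgb
  rw [Finset.sum_congr rfl (fun σ _ => h1 σ), ← Finset.mul_sum,
    sum_perm_castLE h (fun f => ctr k S f), sinj_ctr]
  ring

/-- Conjugation of the positions. -/
theorem mgb_fam_card {n : ℕ} (A : Finset (Fin n)) (S : Arr (2 * n)) :
    mgb (fam (fun i => decide (i ∈ A)) S) =
      mgb (fam (fun i : Fin n => decide (n - A.card ≤ i.1)) S) := by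
  classical
  have hA : A.card ≤ n := by simpa using Finset.card_le_univ A
  have hc : Fintype.card {i : Fin n // n - A.card ≤ i.1} = Fintype.card {i : Fin n // i ∈ A} := by
    rw [Fintype.card_subtype, Fintype.card_coe]
    have h1 : (Finset.univ.filter fun i : Fin n => ¬ n - A.card ≤ i.1) =
        Finset.univ.map (Fin.castLEEmb (Nat.sub_le n A.card)) := by
      ext i
      simp only [Finset.mem_filter, Finset.mem_univ, true_and, Finset.mem_map]
      constructor
      · intro hi
        exact ⟨⟨i.1, by omega⟩, Fin.ext rfl⟩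
      · rintro ⟨a, rfl⟩
        have := a.2
        simp only [Fin.castLEEmb_apply, Fin.val_castLE]
        omega
    have h2 := Finset.card_filter_add_card_filter_not (s := (Finset.univ : Finset (Fin n)))
      (fun i : Fin n => n - A.card ≤ i.1)
    rw [h1, Finset.card_map, Finset.card_univ, Fintype.card_fin, Finset.card_univ,
      Fintype.card_fin] at h2
    omega
  obtain ⟨e⟩ := Fintype.card_eq.1 hc
  rw [← mgb_perm (fam (fun i => decide (i ∈ A)) S) e.extendSubtype]
  congr 1
  funext i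
  unfold fam
  congr 1
  simp only [decide_eq_true_eq, eq_iff_iff]
  constructor
  · intro h
    by_contra hi
    exact e.extendSubtype_not_mem i hi h
  · intro h
    exact e.extendSubtype_mem i h

/-- **Expansion.** -/
theorem gb_id_add {n : ℕ} (S : Arr (2 * n)) (hS : ∀ i j l m, S i j l m = - S i j m l) :
    gaussBonnet n (fun i j k l => idA (2 * n) i j k l + S i j k l) =
      ∑ k ∈ Finset.range (n + 1), (n.choose k : ℝ) *
        (2 ^ (n - k) * (((2 * n - 2 * k).factorial : ℝ) / ((2 * k).factorial : ℝ))) * DD k S := by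
  have h1 := expand S 1
  simp only [one_mul, one_pow] at h1
  rw [h1]
  simp only [mgb_fam_card]
  rw [Finset.sum_powerset_apply_card (fun c =>
    mgb (fam (fun i : Fin n => decide (n - c ≤ i.1)) S)), Finset.card_univ, Fintype.card_fin]
  rw [← Finset.sum_flip]
  refine Finset.sum_congr rfl fun k hk => ?_
  have hkn : k ≤ n := by
    have := Finset.mem_range.1 hk
    omega
  rw [Nat.choose_symm hkn, Nat.sub_sub_self hkn, mgb_fam hkn S hS, DD_eq, nsmul_eq_mul]
  have hf : ((2 * k).factorial : ℝ) ≠ 0 := by positivity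
  field_simp

end Pool.Agent.Frob61
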