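import Pool.Agent.Lib.Frob61.Main

/-!
# Recentering, and sectional curvatures
-/

set_option linter.unusedSectionVars false

open Equiv MeasureTheory Finset Function Pool.Agent.H69Gauss Pool.Agent.H69Hopf

namespace Pool.Agent.Frob61

variable {N : ℕ}

/-- Scalar contraction. -/
def sc (T : Arr N) : ℝ := ∑ i, ∑ j, T i j i j

theorem idA_algCurv (N : ℕ) : IsAlgCurv (idA N) where
  skew i j k l := by
    unfold idA
    ring
  pair i j k l := by
    unfold idA
    simp only [eq_comm]
    ring
  bianchi i j k l := by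
    unfold idA
    by_cases h1 : i = k <;> by_cases h2 : j = l <;> by_cases h3 : i = l <;> by_cases h4 : j = k <;>
      by_cases h5 : j = i <;> by_cases h6 : k = l <;> simp_all [eq_comm]

/-- Adding a multiple of the identity. -/
def addI (T : Arr N) (t : ℝ) : Arr N := fun i j k l => T i j k l + t * idA N i j k l

theorem algCurv_addI {T : Arr N} (h : IsAlgCurv T) (t : ℝ) : IsAlgCurv (addI T t) where
  skew i j k l := by
    have h1 := h.skew i j k l
    have h2 := (idA_algCurv N).skew i j k l
    unfold addI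
    rw [h1, h2]; ring
  pair i j k l := by
    have h1 := h.pair i j k l
    have h2 := (idA_algCurv N).pair i j k l
    unfold addI
    rw [h1, h2]
  bianchi i j k l := by
    have h1 := h.bianchi i j k l
    have h2 := (idA_algCurv N).bianchi i j k l
    unfold addI
    linear_combination h1 + t * h2

theorem sc_addI (T : Arr N) (t : ℝ) : sc (addI T t) = sc T + t * (N * (N - 1)) := by
  unfold sc addI
  simp only [Finset.sum_add_distrib, ← Finset.mul_sum]
  congr 2
  have h1 : ∀ i j : Fin N, idA N i j i j = 1 - (if i = j then 1 else 0) := by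
    intro i j
    unfold idA
    by_cases h : i = j
    · simp [h]
    · simp [h]
  simp only [h1, Finset.sum_sub_distrib, Finset.sum_const, Finset.card_univ, Fintype.card_fin,
    Finset.sum_ite_eq, Finset.mem_univ, if_true, nsmul_eq_mul, mul_one]
  ring

theorem ric_addI (T : Arr N) (t : ℝ) (j l : Fin N) :
    ric (addI T t) j l = ric T j l + t * ((N - 1) * if j = l then 1 else 0) := by
  unfold ric addI
  simp only [Finset.sum_add_distrib, ← Finset.mul_sum]
  congr 2
  have h1 : ∀ i : Fin N, idA N i j i l = (if j = l then 1 else 0) -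
      (if i = l then (if j = i then 1 else 0) else 0) := by
    intro i
    unfold idA
    by_cases h : i = l <;> simp [h]
  simp only [h1, Finset.sum_sub_distrib, Finset.sum_const, Finset.card_univ, Fintype.card_fin,
    Finset.sum_ite_eq', Finset.mem_univ, if_true, nsmul_eq_mul]
  ring

theorem sum_ric (T : Arr N) : ∑ j, ric T j j = sc T := by
  unfold ric sc
  rw [Finset.sum_comm]

theorem ricsq_addI (T : Arr N) (t : ℝ) :
    ∑ j, ∑ l, ric (addI T t) j l ^ 2 = ∑ j, ∑ l, ric T j l ^ 2 +
      2 * t * (N - 1) * sc T + t ^ 2 * (N - 1) ^ 2 * N := by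
  have h1 : ∀ j l : Fin N, ric (addI T t) j l ^ 2 = ric T j l ^ 2 +
      (if j = l then 2 * t * (N - 1) * ric T j l + t ^ 2 * (N - 1) ^ 2 else 0) := by
    intro j l
    rw [ric_addI]
    by_cases h : j = l
    · simp only [h, if_true]; ring
    · simp only [h, if_false]; ring
  simp only [h1, Finset.sum_add_distrib, Finset.sum_ite_eq, Finset.mem_univ, if_true]
  rw [← Finset.mul_sum, sum_ric]
  simp
  ring

theorem ip_idA (T : Arr N) (h : ∀ i j k l, T i j k l = - T i j l k) :
    ∑ i, ∑ j, ∑ k, ∑ l, T i j k l * idA N i j k l = 2 * sc T := by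
  have h1 : ∀ a b c d : Fin N, T a b c d * idA N a b c d =
      (if a = c then (if b = d then T a b c d else 0) else 0) -
      (if a = d then (if b = c then T a b c d else 0) else 0) := by
    intro i j k l
    unfold idA
    split_ifs <;> ring
  simp only [h1, Finset.sum_sub_distrib]
  have e1 : (∑ a, ∑ b, ∑ c, ∑ d, (if a = c then (if b = d then T a b c d else 0) else 0)) =
      sc T := by
    unfold sc
    refine Finset.sum_congr rfl fun i _ => Finset.sum_congr rfl fun j _ => ?_
    rw [Finset.sum_eq_single i]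
    · rw [Finset.sum_eq_single j]
      · simp
      · intro l _ hl
        rw [if_pos rfl, if_neg (fun h => hl h.symm)]
      · simp
    · intro k _ hk
      refine Finset.sum_eq_zero fun l _ => ?_
      rw [if_neg (fun h => hk h.symm)]
    · simp
  have e2 : (∑ a, ∑ b, ∑ c, ∑ d, (if a = d then (if b = c then T a b c d else 0) else 0)) =
      - sc T := by
    unfold sc
    rw [← Finset.sum_neg_distrib]
    refine Finset.sum_congr rfl fun i _ => ?_
    rw [← Finset.sum_neg_distrib]
    refine Finset.sum_congr rfl fun j _ => ?_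
    rw [Finset.sum_eq_single j]
    · rw [Finset.sum_eq_single i]
      · simp only [if_true]
        rw [h i j j i]
      · intro l _ hl
        rw [if_neg (fun h => hl h.symm)]
      · simp
    · intro k _ hk
      refine Finset.sum_eq_zero fun l _ => ?_
      by_cases h : i = l
      · rw [if_pos h, if_neg (fun h => hk h.symm)]
      · rw [if_neg h]
    · simp
  rw [e1, e2]
  ring

theorem sc_idA : sc (idA N) = N * (N - 1) := by
  have h := sc_addI (fun _ _ _ _ => 0 : Arr N) 1
  have h1 : addI (fun _ _ _ _ => 0 : Arr N) 1 = idA N := by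
    unfold addI
    funext i j k l
    ring
  rw [h1] at h
  rw [h]
  unfold sc
  simp

theorem fro_addI (T : Arr N) (h : ∀ i j k l, T i j k l = - T i j l k) (t : ℝ) :
    fro (addI T t) = fro T + 4 * t * sc T + 2 * t ^ 2 * (N * (N - 1)) := by
  have h1 : fro (addI T t) = fro T + 2 * t * (∑ i, ∑ j, ∑ k, ∑ l, T i j k l * idA N i j k l) +
      t ^ 2 * (∑ i, ∑ j, ∑ k, ∑ l, idA N i j k l * idA N i j k l) := by
    unfold fro addI
    simp only [Finset.mul_sum, ← Finset.sum_add_distrib]
    refine Finset.sum_congr rfl fun i _ => Finset.sum_congr rfl fun j _ =>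
      Finset.sum_congr rfl fun k _ => Finset.sum_congr rfl fun l _ => ?_
    ring
  rw [h1, ip_idA T h, ip_idA (idA N) (skew2 (idA_algCurv N)), sc_idA]
  ring

/-- **Frobenius pinching**, arbitrary comparison constant. -/
theorem frobenius_pinching {n : ℕ} (hn : 1 ≤ n) {R : Arr (2 * n)} (h : IsAlgCurv R) {κ : ℝ}
    (hκ : 0 < κ)
    (h1 : fro (addI R κ) ≤ (2 * n * κ / 72 : ℝ) ^ 2)
    (h2 : ∑ j, ∑ l, ric (addI R κ) j l ^ 2 ≤ (2 * n * κ / 72 : ℝ) ^ 2) :
    0 < (-1) ^ n * gaussBonnet n R := by
  have hn0 : (1 : ℝ) ≤ n := by exact_mod_cast hn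
  set T := addI R κ with hT
  have hTA : IsAlgCurv T := algCurv_addI h κ
  set N : ℝ := ((2 * n : ℕ) : ℝ) with hN
  have hN2 : N = 2 * n := by rw [hN]; push_cast; ring
  have hNN : 0 < N * (N - 1) := by
    rw [hN2]
    nlinarith
  set τ : ℝ := sc T / (N * (N - 1)) with hτ
  have hsc : sc T = τ * (N * (N - 1)) := by
    rw [hτ, div_mul_cancel₀ _ hNN.ne']
  -- the recentred tensor
  have f1 := fro_addI T (skew2 hTA) (-τ)
  have f2 := ricsq_addI T (-τ)
  have f3 := sc_addI T (-τ)
  rw [← hN] at f1 f2 f3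
  have g0 := fro_nonneg (addI T (-τ))
  have hfro0 := fro_nonneg T
  rw [hsc] at f1 f2 f3
  -- size of `τ`
  have hτ2 : τ ^ 2 ≤ (κ / 72) ^ 2 := by
    have a1 : 2 * τ ^ 2 * (N * (N - 1)) ≤ fro T := by
      rw [f1] at g0
      nlinarith
    have a2 : 2 * τ ^ 2 * (N * (N - 1)) ≤ N ^ 2 * (κ / 72) ^ 2 := by
      refine a1.trans (h1.trans (le_of_eq ?_))
      rw [hN2]; ring
    have a3 : N ^ 2 ≤ 2 * (N * (N - 1)) := by
      rw [hN2]; nlinarith
    have a4 : 0 ≤ (κ / 72) ^ 2 := sq_nonneg _
    nlinarith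
  have hτle : τ ≤ κ / 72 := abs_le_of_sq_le_sq' hτ2 (by positivity) |>.2
  set κ' : ℝ := κ - τ with hκ'
  have hκ'0 : 71 / 72 * κ ≤ κ' := by rw [hκ']; linarith
  have hκ'pos : 0 < κ' := by linarith
  have hq : (2 * n * κ / 72 : ℝ) ^ 2 ≤ (2 * n * κ' * (1 / 71) : ℝ) ^ 2 := by
    refine pow_le_pow_left₀ (by positivity) ?_ 2
    have : κ / 72 ≤ κ' / 71 := by linarith
    nlinarith
  have key := scaled hn hκ'pos (R := R) (addI T (-τ)) (fun i j k l => by
    rw [hT, hκ']
    unfold addI
    ring) (algCurv_addI hTA _) (by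
      refine le_trans ?_ (h1.trans hq)
      rw [f1]
      nlinarith [mul_nonneg (sq_nonneg τ) hNN.le]) (by
      refine le_trans ?_ (h2.trans hq)
      rw [f2]
      have : 0 ≤ τ ^ 2 * (N - 1) ^ 2 * N := by
        rw [hN2]
        positivity
      nlinarith) (by
      have : sc (addI T (-τ)) = 0 := by rw [f3]; ring
      exact this)
  have hp : 0 < κ' ^ n * (2 ^ n * ((2 * n).factorial : ℝ)) := by positivity
  have := (abs_le.1 key).1
  linarith

/-- Sectional curvatures. -/
theorem sectional_pinching {n : ℕ} (hn : 1 ≤ n) {R : Arr (2 * n)} (h : IsAlgCurv R) {κ ε : ℝ}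
    (hκ : 0 < κ) (hε : 0 ≤ ε) (hε2 : 72 ^ 2 * (2 * n + 2) * ε ^ 2 ≤ κ ^ 2)
    (hsec : ∀ x y : Fin (2 * n) → ℝ, -(κ + ε) * area2 x y ≤ ev R x y x y ∧
      ev R x y x y ≤ -(κ - ε) * area2 x y) :
    0 < (-1) ^ n * gaussBonnet n R := by
  have hb := sec_bound (algCurv_addI h κ) hε (fun x y => by
    have e1 : ev (addI R κ) x y x y = ev R x y x y + κ * area2 x y := by
      have e2 : ev (addI R κ) x y x y = ev R x y x y + κ * ev (idA (2 * n)) x y x y := by
        unfold ev addI
        simp only [Finset.mul_sum, ← Finset.sum_add_distrib]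
        refine Finset.sum_congr rfl fun i _ => Finset.sum_congr rfl fun j _ =>
          Finset.sum_congr rfl fun k _ => Finset.sum_congr rfl fun l _ => ?_
        ring
      rw [e2, ev_idA]
      congr 2
      unfold area2 dot
      have e3 : ∀ z : Fin (2 * n) → ℝ, ∑ i, z i * z i = ∑ i, z i ^ 2 := fun z =>
        Finset.sum_congr rfl fun i _ => (sq _).symm
      have e4 : ∑ i, y i * x i = ∑ i, x i * y i :=
        Finset.sum_congr rfl fun i _ => mul_comm _ _
      rw [e3, e3, e4]
      ring
    rw [e1, abs_le]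
    obtain ⟨h1, h2⟩ := hsec x y
    constructor <;> linarith)
  have hf := fro_nonneg (addI R κ)
  have hr : 0 ≤ ∑ j, ∑ l, ric (addI R κ) j l ^ 2 :=
    Finset.sum_nonneg fun _ _ => Finset.sum_nonneg fun _ _ => sq_nonneg _
  have hq : ((2 * n : ℕ) : ℝ) ^ 2 * (((2 * n : ℕ) : ℝ) + 2) * ε ^ 2 ≤
      (2 * n * κ / 72 : ℝ) ^ 2 := by
    push_cast
    nlinarith [mul_le_mul_of_nonneg_left hε2 (by positivity : (0 : ℝ) ≤ (2 * (n : ℝ)) ^ 2 / 72 ^ 2)]
  exact frobenius_pinching hn h hκ (by linarith) (by linarith)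

end Pool.Agent.Frob61
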