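import Pool.Agent.Lib.Frob61.Final

/-!
# MP_5a30bb_gt: an `L²` (Frobenius norm) pinching theorem with constants independent of the dimension

Let `R` be an algebraic curvature tensor on `ℝ^(2 n)` and `g` a basis of `ℝ^(2 n)` (for instance
the standard one).  If the components of `R` in the basis `g` differ from those of constant
curvature `-κ` by a tensor `T` whose Frobenius norm, and the Frobenius norm of whose Ricci
contraction, are at most `2 n κ / 72`, then the Gauss–Bonnet–Chern integrand of `R` has the sign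
`(-1) ^ n`; if moreover the scalar contraction of `T` vanishes, the integrand is within a factor
`1 ± 1 / 2` of that of the space form.

Consequence (`sectional`): sectional curvatures in `[-(κ + ε), -(κ - ε)]` with
`72 * √(2 n + 2) * ε ≤ κ`.
-/

namespace Pool.Agent.Lib.Frob61.FrobeniusPinching

open Pool.Agent.H69Hopf

theorem result (n : ℕ) (hn : 1 ≤ n) (R : Arr (2 * n)) (hR : IsAlgCurv R) (κ : ℝ) (hκ : 0 < κ)
    (g : Fin (2 * n) → (Fin (2 * n) → ℝ)) (hg : (Matrix.of g).det ≠ 0) (T : Arr (2 * n))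
    (hT : ∀ i j k l, T i j k l = ev R (g i) (g j) (g k) (g l) +
      κ * ((if i = k then 1 else 0) * (if j = l then 1 else 0) -
        (if i = l then 1 else 0) * (if j = k then 1 else 0)))
    (hnorm : ∑ i, ∑ j, ∑ k, ∑ l, T i j k l ^ 2 ≤ (2 * n * κ / 72) ^ 2)
    (hric : ∑ j, ∑ l, (∑ i, T i j i l) ^ 2 ≤ (2 * n * κ / 72) ^ 2) :
    0 < (-1) ^ n * gaussBonnet n R ∧
    (∑ i, ∑ j, T i j i j = 0 →
      |(-1) ^ n * ((Matrix.of g).det ^ 2 * gaussBonnet n R) -
        κ ^ n * (2 ^ n * (Nat.factorial (2 * n) : ℝ))| ≤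
          1 / 2 * (κ ^ n * (2 ^ n * (Nat.factorial (2 * n) : ℝ)))) := by
  have hP : IsAlgCurv (pull g R) := pull_algCurv g hR
  have hTe : T = Frob61.addI (pull g R) κ := by
    funext i j k l
    rw [hT]
    rfl
  have hgb : gaussBonnet n (pull g R) = (Matrix.of g).det ^ 2 * gaussBonnet n R :=
    mgb_pull (fun _ : Fin n => R) g
  have hd : 0 < (Matrix.of g).det ^ 2 := by positivity
  constructor
  · have key := Frob61.frobenius_pinching hn hP hκ (by rw [← hTe]; exact hnorm)
      (by rw [← hTe]; exact hric)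
    rw [hgb] at key
    have h3 : (-1) ^ n * ((Matrix.of g).det ^ 2 * gaussBonnet n R) =
        (Matrix.of g).det ^ 2 * ((-1) ^ n * gaussBonnet n R) := by ring
    rw [h3] at key
    exact (mul_pos_iff_of_pos_left hd).1 key
  · intro h3
    rw [← hgb]
    have hTA : IsAlgCurv T := by
      rw [hTe]
      exact Frob61.algCurv_addI hP κ
    have hle : (2 * n * κ / 72 : ℝ) ^ 2 ≤ (2 * n * κ * (1 / 71) : ℝ) ^ 2 := by
      refine pow_le_pow_left₀ (by positivity) ?_ 2
      have : 0 ≤ 2 * (n : ℝ) * κ := by positivity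
      linarith
    exact Frob61.scaled hn hκ T (fun i j k l => by rw [hTe]; rfl) hTA (hnorm.trans hle)
      (hric.trans hle) h3

/-- Consequence for sectional curvatures: pinching `1 - O(1 / √n)` suffices. -/
theorem sectional (n : ℕ) (hn : 1 ≤ n) (R : Arr (2 * n)) (hR : IsAlgCurv R) (κ ε : ℝ)
    (hκ : 0 < κ) (hε : 0 ≤ ε) (hle : 72 * √(2 * n + 2) * ε ≤ κ)
    (hsec : ∀ x y : Fin (2 * n) → ℝ,
      -(κ + ε) * area2 x y ≤ ev R x y x y ∧ ev R x y x y ≤ -(κ - ε) * area2 x y) :
    0 < (-1) ^ n * gaussBonnet n R := by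
  refine Frob61.sectional_pinching hn hR hκ hε ?_ hsec
  have h1 : (72 * √(2 * n + 2) * ε) ^ 2 ≤ κ ^ 2 :=
    pow_le_pow_left₀ (by positivity) hle 2
  have h2 : √(2 * (n : ℝ) + 2) ^ 2 = 2 * n + 2 := Real.sq_sqrt (by positivity)
  calc 72 ^ 2 * (2 * (n : ℝ) + 2) * ε ^ 2 = (72 * √(2 * n + 2) * ε) ^ 2 := by
        rw [mul_pow, mul_pow, h2]
    _ ≤ κ ^ 2 := h1

end Pool.Agent.Lib.Frob61.FrobeniusPinching
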