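import Pool.Agent.Lib.Frob61.Expand

/-!
# Main estimate
-/

set_option linter.unusedSectionVars false

open Equiv MeasureTheory Finset Function Pool.Agent.H69Gauss Pool.Agent.H69Hopf

namespace Pool.Agent.Frob61

theorem gpull_algCurv {N d : ℕ} {S : Arr N} (h : IsAlgCurv S) (g : Fin d × Fin N → ℝ) :
    IsAlgCurv (gpull S g) :=
  pull_algCurv (fun (a : Fin d) (i : Fin N) => g (a, i)) h

theorem bd_of {N : ℕ} {S : Arr N} (h : IsAlgCurv S) {q : ℝ} (hq : 0 ≤ q) (h1 : fro S ≤ q ^ 2)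
    (h2 : ∑ j, ∑ l, ric S j l ^ 2 ≤ q ^ 2) (h3 : ∑ i, ∑ j, S i j i j = 0) : Bd S q where
  skew1 := h.skew
  skew2 := skew2 h
  q0 := hq
  nrm := h1
  ric := h2
  scal := by rw [h3]; simpa using sq_nonneg q

/-- Bound for the sums of restrictions. -/
theorem abs_DD_le {N : ℕ} [NeZero N] {S : Arr N} (h : IsAlgCurv S) {q : ℝ} (hS : Bd S q)
    (hq : 0 < q) (k : ℕ) (hk : 2 ≤ k) :
    |DD k S| ≤ 4 ^ k * (k.factorial : ℝ) * (((2 * k : ℝ)⁻¹) ^ k *
      (((√3)⁻¹) ^ k * (32 / 25 * q ^ k * ∏ j ∈ Finset.range (2 * k), ((2 * k : ℝ) + 2 * j)) *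
        ∏ j ∈ Finset.range k, ((2 * k : ℝ) + 2 * j))) := by
  rw [DD_eq_int]
  change |∫ g : Fin (2 * k) × Fin N → ℝ, gaussBonnet k (gpull S g)
      ∂(gam (Fin (2 * k) × Fin N))| ≤ _
  refine (abs_integral_le_integral_abs).trans ?_
  have h1 : ∀ g : Fin (2 * k) × Fin N → ℝ, |gaussBonnet k (gpull S g)| ≤
      (4 ^ k * (k.factorial : ℝ) * (((2 * k : ℝ)⁻¹) ^ k *
      ((((√3)⁻¹) ^ k) * ∏ j ∈ Finset.range k, ((2 * k : ℝ) + 2 * j)))) *
        √(fro (gpull S g)) ^ k := by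
    intro g
    refine (abs_gb_le (by omega) (gpull_algCurv h g)).trans (le_of_eq ?_)
    rw [Real.sqrt_div (fro_nonneg _), div_eq_mul_inv, mul_pow]
    ring
  have hint : Integrable (fun g : Fin (2 * k) × Fin N → ℝ => gaussBonnet k (gpull S g))
      (gam (Fin (2 * k) × Fin N)) := integrable_gb_pull S
  refine (integral_mono hint.abs
    ((integrable_sqrt_fro _ _ _).const_mul _) h1).trans ?_
  rw [integral_const_mul]
  have h2 := moment_k hS hq k hk
  have h3 : 0 ≤ 4 ^ k * (k.factorial : ℝ) * (((2 * k : ℝ)⁻¹) ^ k *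
      ((((√3)⁻¹) ^ k) * ∏ j ∈ Finset.range k, ((2 * k : ℝ) + 2 * j))) := by
    have : 0 ≤ ∏ j ∈ Finset.range k, ((2 * k : ℝ) + 2 * j) :=
      Finset.prod_nonneg fun j _ => by positivity
    positivity
  refine (mul_le_mul_of_nonneg_left h2 h3).trans (le_of_eq ?_)
  ring

theorem DD_zero {N : ℕ} (S : Arr N) : DD 0 S = 1 := by
  have h0 : ∀ R : Arr (2 * 0), gaussBonnet 0 R = 1 := by
    intro R
    unfold gaussBonnet
    have h1 : Subsingleton (Perm (Fin (2 * 0))) :=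
      inferInstanceAs (Subsingleton (Perm (Fin 0)))
    rw [Fintype.sum_subsingleton _ (1 : Perm (Fin (2 * 0))),
      Fintype.sum_subsingleton _ (1 : Perm (Fin (2 * 0)))]
    simp
  unfold DD
  have h2 : Subsingleton (Fin (2 * 0) → Fin N) :=
    inferInstanceAs (Subsingleton (Fin 0 → Fin N))
  rw [Fintype.sum_subsingleton _ (fun i : Fin (2 * 0) => (Fin.elim0 i : Fin N)), h0]

theorem sum_fin2 {W : Type*} [Fintype W] (f : W → W → ℝ) :
    ∑ a : Fin 2 → W, f (a 0) (a 1) = ∑ i, ∑ j, f i j := by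
  let e : (Fin 2 → W) ≃ W × W :=
    { toFun := fun a => (a 0, a 1)
      invFun := fun p => ![p.1, p.2]
      left_inv := fun a => by
        funext i
        fin_cases i <;> rfl
      right_inv := fun p => rfl }
  rw [← Equiv.sum_comp e.symm]
  simp only [Fintype.sum_prod_type]
  rfl

theorem DD_one {N : ℕ} {S : Arr N} (h : IsAlgCurv S) (h3 : ∑ i, ∑ j, S i j i j = 0) :
    DD 1 S = 0 := by
  rw [DD_eq]
  have h1 : ∀ f : Fin 2 → Fin N, ctr 1 S f = 2 * S (f 0) (f 1) (f 0) (f 1) := by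
    intro f
    have hfs : (fst (0 : Fin 1) : Fin (2 * 1)) = (0 : Fin 2) := rfl
    have hsn : (snd (0 : Fin 1) : Fin (2 * 1)) = (1 : Fin 2) := rfl
    have h4 : (Finset.univ : Finset (Perm (Fin 2))) = {1, swap 0 1} := by decide
    change (∑ ρ : Perm (Fin 2), ((Perm.sign ρ : ℤ) : ℝ) *
      ∏ i : Fin 1, S (f (fst i)) (f (snd i)) (f (ρ (fst i))) (f (ρ (snd i)))) = _
    rw [h4, Finset.sum_pair (by decide)]
    simp only [Finset.univ_unique, Fin.default_eq_zero, Finset.prod_singleton]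
    rw [Perm.sign_one, Perm.sign_swap (by decide)]
    have e1 : f ((swap (0 : Fin 2) 1) (fst (0 : Fin 1))) = f 1 := by
      congr 1
    have e2 : f ((swap (0 : Fin 2) 1) (snd (0 : Fin 1))) = f 0 := by
      congr 1
    rw [e1, e2]
    have e3 : f (fst (0 : Fin 1)) = f 0 := rfl
    have e4 : f (snd (0 : Fin 1)) = f 1 := rfl
    have e5 : f ((1 : Perm (Fin 2)) (fst (0 : Fin 1))) = f 0 := rfl
    have e6 : f ((1 : Perm (Fin 2)) (snd (0 : Fin 1))) = f 1 := rfl
    rw [e3, e4, e5, e6, skew2 h (f 0) (f 1) (f 1) (f 0)]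
    push_cast
    ring
  have h2 : ∑ f : Fin (2 * 1) → Fin N, ctr 1 S f = 0 := by
    change ∑ f : Fin 2 → Fin N, ctr 1 S f = 0
    simp only [h1]
    rw [sum_fin2 (fun i j => 2 * S i j i j)]
    simp only [← Finset.mul_sum]
    rw [h3, mul_zero]
  rw [h2, mul_zero]

theorem term_bound {n k : ℕ} (hk : 2 ≤ k) (hkn : k ≤ n) {S : Arr (2 * n)} (h : IsAlgCurv S)
    [NeZero (2 * n)] (hS : Bd S (2 * n * (1 / 71) : ℝ)) :
    |(n.choose k : ℝ) * (2 ^ (n - k) * (((2 * n - 2 * k).factorial : ℝ) /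
      ((2 * k).factorial : ℝ))) * DD k S| ≤ 2 ^ n * ((2 * n).factorial : ℝ) * ((32 / 25) / 6 *
          ((16 * (1 / 71) / √3) ^ k * ((3 * k).choose k : ℝ))) := by
  have hn0 : (0 : ℝ) < n := by exact_mod_cast (by omega : 0 < n)
  have hD := abs_DD_le h hS (by positivity) k hk
  have hT := term_le n k (by omega) hkn (1 / 71) (√3) (by norm_num)
    (by positivity) (32 / 25) (by norm_num)
  have h0 : 0 ≤ (n.choose k : ℝ) * (2 ^ (n - k) * (((2 * n - 2 * k).factorial : ℝ) /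
      ((2 * k).factorial : ℝ))) := by positivity
  rw [abs_mul, abs_of_nonneg h0]
  exact (mul_le_mul_of_nonneg_left hD h0).trans hT

/-- **Main estimate**, normalised. -/
theorem main_est {n : ℕ} (hn : 1 ≤ n) {S : Arr (2 * n)} (h : IsAlgCurv S)
    (h1 : fro S ≤ (2 * n * (1 / 71) : ℝ) ^ 2)
    (h2 : ∑ j, ∑ l, ric S j l ^ 2 ≤ (2 * n * (1 / 71) : ℝ) ^ 2)
    (h3 : ∑ i, ∑ j, S i j i j = 0) :
    |gaussBonnet n (fun i j k l => idA (2 * n) i j k l + S i j k l) -
      2 ^ n * ((2 * n).factorial : ℝ)| ≤ 1 / 2 * (2 ^ n * ((2 * n).factorial : ℝ)) := by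
  have hn0 : (0 : ℝ) < n := by exact_mod_cast hn
  have : NeZero (2 * n) := ⟨by omega⟩
  have hS := bd_of h (by positivity) h1 h2 h3
  rw [gb_id_add S (skew2 h)]
  have e1 : ∑ k ∈ Finset.range (n + 1), (n.choose k : ℝ) *
        (2 ^ (n - k) * (((2 * n - 2 * k).factorial : ℝ) / ((2 * k).factorial : ℝ))) * DD k S =
      2 ^ n * ((2 * n).factorial : ℝ) + ∑ j ∈ Finset.range (n - 1), (n.choose (j + 2) : ℝ) *
        (2 ^ (n - (j + 2)) * (((2 * n - 2 * (j + 2)).factorial : ℝ) /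
          ((2 * (j + 2)).factorial : ℝ))) * DD (j + 2) S := by
    have e2 : n + 1 = (n - 1) + 1 + 1 := by omega
    rw [e2, Finset.sum_range_succ', Finset.sum_range_succ', DD_zero, DD_one h h3]
    simp only [mul_zero, add_zero, Nat.sub_zero, Nat.factorial_zero, Nat.cast_one, div_one,
      Nat.choose_zero_right, one_mul, mul_one]
    rw [add_comm]
  rw [e1, add_sub_cancel_left]
  refine (Finset.abs_sum_le_sum_abs _ _).trans ?_
  have hterm : ∀ j ∈ Finset.range (n - 1), |(n.choose (j + 2) : ℝ) * (2 ^ (n - (j + 2)) *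
      (((2 * n - 2 * (j + 2)).factorial : ℝ) / ((2 * (j + 2)).factorial : ℝ))) *
        DD (j + 2) S| ≤ 2 ^ n * ((2 * n).factorial : ℝ) * ((32 / 25) / 6 *
          ((16 * (1 / 71) / √3) ^ (j + 2) * ((3 * (j + 2)).choose (j + 2) : ℝ))) := by
    intro j hj
    have hj' := Finset.mem_range.1 hj
    exact term_bound (by omega) (by omega) h hS
  refine (Finset.sum_le_sum hterm).trans ?_
  rw [← Finset.mul_sum, mul_comm (1 / 2 : ℝ)]
  refine mul_le_mul_of_nonneg_left ?_ (by positivity)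
  refine sum_terms_le (by positivity) ?_ le_rfl (n - 1)
  have h3' : (1.7309 : ℝ) ≤ √3 := by
    rw [show (1.7309 : ℝ) = √(1.7309 ^ 2) by rw [Real.sqrt_sq]; norm_num]
    exact Real.sqrt_le_sqrt (by norm_num)
  rw [div_le_iff₀ (by positivity)]
  nlinarith

/-! ### Scaling and recentering -/

theorem gb_smul {n : ℕ} (t : ℝ) (P : Arr (2 * n)) :
    gaussBonnet n (fun i j k l => t * P i j k l) = t ^ n * gaussBonnet n P := by
  unfold gaussBonnet
  rw [Finset.mul_sum]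
  refine Finset.sum_congr rfl fun σ _ => ?_
  rw [Finset.mul_sum]
  refine Finset.sum_congr rfl fun τ _ => ?_
  rw [Finset.prod_mul_distrib, Finset.prod_const, Finset.card_univ, Fintype.card_fin]
  ring

theorem algCurv_smul {N : ℕ} {R : Arr N} (h : IsAlgCurv R) (t : ℝ) :
    IsAlgCurv (fun i j k l => t * R i j k l) where
  skew i j k l := by rw [h.skew i j k l]; ring
  pair i j k l := by rw [h.pair i j k l]
  bianchi i j k l := by linear_combination t * h.bianchi i j k l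

theorem fro_smul {N : ℕ} (t : ℝ) (R : Arr N) :
    fro (fun i j k l => t * R i j k l) = t ^ 2 * fro R := by
  unfold fro
  simp only [Finset.mul_sum]
  refine Finset.sum_congr rfl fun i _ => Finset.sum_congr rfl fun j _ =>
    Finset.sum_congr rfl fun k _ => Finset.sum_congr rfl fun l _ => ?_
  ring

theorem ric_smul {N : ℕ} (t : ℝ) (R : Arr N) (j l : Fin N) :
    ric (fun i j k l => t * R i j k l) j l = t * ric R j l := by
  unfold ric
  rw [Finset.mul_sum]

/-- Scaled form. -/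
theorem scaled {n : ℕ} (hn : 1 ≤ n) {R : Arr (2 * n)} {κ : ℝ} (hκ : 0 < κ)
    (T : Arr (2 * n)) (hT : ∀ i j k l, T i j k l = R i j k l + κ * idA (2 * n) i j k l)
    (hTA : IsAlgCurv T)
    (h1 : fro T ≤ (2 * n * κ * (1 / 71) : ℝ) ^ 2)
    (h2 : ∑ j, ∑ l, ric T j l ^ 2 ≤ (2 * n * κ * (1 / 71) : ℝ) ^ 2) (h3 : ∑ i, ∑ j, T i j i j = 0) :
    |(-1) ^ n * gaussBonnet n R - κ ^ n * (2 ^ n * ((2 * n).factorial : ℝ))| ≤
      1 / 2 * (κ ^ n * (2 ^ n * ((2 * n).factorial : ℝ))) := by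
  set S : Arr (2 * n) := fun i j k l => (-κ⁻¹) * T i j k l with hS
  have hSA : IsAlgCurv S := algCurv_smul hTA _
  have g1 : fro S ≤ (2 * n * (1 / 71) : ℝ) ^ 2 := by
    rw [hS, fro_smul]
    have : (-κ⁻¹) ^ 2 * (2 * n * κ * (1 / 71) : ℝ) ^ 2 = (2 * n * (1 / 71) : ℝ) ^ 2 := by
      field_simp
    rw [← this]
    exact mul_le_mul_of_nonneg_left h1 (sq_nonneg _)
  have g2 : ∑ j, ∑ l, ric S j l ^ 2 ≤ (2 * n * (1 / 71) : ℝ) ^ 2 := by
    have e1 : ∑ j, ∑ l, ric S j l ^ 2 = (-κ⁻¹) ^ 2 * ∑ j, ∑ l, ric T j l ^ 2 := by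
      simp only [Finset.mul_sum]
      refine Finset.sum_congr rfl fun i _ => Finset.sum_congr rfl fun j _ => ?_
      rw [hS, ric_smul]
      ring
    have : (-κ⁻¹) ^ 2 * (2 * n * κ * (1 / 71) : ℝ) ^ 2 = (2 * n * (1 / 71) : ℝ) ^ 2 := by
      field_simp
    rw [e1, ← this]
    exact mul_le_mul_of_nonneg_left h2 (sq_nonneg _)
  have g3 : ∑ i, ∑ j, S i j i j = 0 := by
    rw [hS]
    simp only [← Finset.mul_sum, h3, mul_zero]
  have key := main_est hn hSA g1 g2 g3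
  have e2 : (-1) ^ n * gaussBonnet n R =
      κ ^ n * gaussBonnet n (fun i j k l => idA (2 * n) i j k l + S i j k l) := by
    rw [← gb_neg, ← gb_smul]
    congr 1
    funext i j k l
    rw [hS]
    simp only
    rw [hT]
    field_simp
    ring
  rw [e2, ← mul_sub, abs_mul, abs_of_pos (pow_pos hκ n)]
  calc _ ≤ κ ^ n * (1 / 2 * (2 ^ n * ((2 * n).factorial : ℝ))) :=
        mul_le_mul_of_nonneg_left key (by positivity)
    _ = _ := by ring

end Pool.Agent.Frob61
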