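import Pool.Agent.Lib.Frob61.Det

/-!
# Numerical estimates
-/

set_option linter.unusedSectionVars false

open MeasureTheory Finset Function Pool.Agent.H69Gauss Pool.Agent.H69Hopf

namespace Pool.Agent.Frob61

/-- `∏_{j < m} (2 k + 2 j) = 2 ^ m (k + m - 1)! / (k - 1)!`. -/
theorem prod_gen (k m : ℕ) (hk : 1 ≤ k) :
    (∏ j ∈ Finset.range m, ((2 * k : ℝ) + 2 * j)) * ((k - 1).factorial : ℝ) =
      2 ^ m * ((k + m - 1).factorial : ℝ) := by
  induction m with
  | zero => simp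
  | succ m ih =>
    rw [Finset.prod_range_succ]
    have h1 : k + (m + 1) - 1 = (k + m - 1) + 1 := by omega
    rw [h1, Nat.factorial_succ, pow_succ]
    have h2 : ((k + m - 1 + 1 : ℕ) : ℝ) = (k : ℝ) + m := by
      have : k + m - 1 + 1 = k + m := by omega
      rw [this]
      push_cast
      ring
    push_cast [h2] at h2 ⊢
    rw [h2]
    linear_combination (2 * (k : ℝ) + 2 * m) * ih

theorem odd_pos_prod (n k : ℕ) (hk : k ≤ n) :
    0 < ∏ j ∈ Finset.range k, ((2 * n : ℝ) - 1 - 2 * j) := by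
  refine Finset.prod_pos fun j hj => ?_
  have h1 : (j : ℝ) + 1 ≤ k := by exact_mod_cast Finset.mem_range.1 hj
  have h2 : (k : ℝ) ≤ n := by exact_mod_cast hk
  linarith

theorem choose_prod (n : ℕ) : ∀ k, k ≤ n →
    (n.choose k : ℝ) * ((2 * n - 2 * k).factorial : ℝ) * (2 ^ k * (k.factorial : ℝ)) *
      ∏ j ∈ Finset.range k, ((2 * n : ℝ) - 1 - 2 * j) = ((2 * n).factorial : ℝ) := by
  intro k
  induction k with
  | zero => intro _; simp
  | succ k ih =>
    intro hk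
    have h1 := ih (by omega)
    rw [← h1, Finset.prod_range_succ]
    have e1 : 2 * n - 2 * k = (2 * n - 2 * (k + 1) + 1) + 1 := by omega
    have e2 : ((2 * n - 2 * (k + 1) + 1 + 1 : ℕ) : ℝ) = 2 * n - 2 * k := by
      rw [← e1, Nat.cast_sub (by omega)]
      push_cast
      ring
    have e3 : ((2 * n - 2 * (k + 1) + 1 : ℕ) : ℝ) = 2 * n - 1 - 2 * k := by
      have : ((2 * n - 2 * (k + 1) + 1 + 1 : ℕ) : ℝ) = ((2 * n - 2 * (k + 1) + 1 : ℕ) : ℝ) + 1 := by
        push_cast; ring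
      rw [this] at e2
      linarith
    have e4 : (n.choose (k + 1) : ℝ) * (k + 1) = n.choose k * (n - k) := by
      have := Nat.choose_succ_right_eq n k
      have h := congrArg (fun m : ℕ => (m : ℝ)) this
      push_cast [Nat.cast_sub (by omega : k ≤ n)] at h
      exact h
    rw [e1, Nat.factorial_succ, Nat.factorial_succ, Nat.factorial_succ]
    rw [Nat.cast_mul (2 * n - 2 * (k + 1) + 1 + 1), e2, Nat.cast_mul (2 * n - 2 * (k + 1) + 1), e3,
      Nat.cast_mul (k + 1), pow_succ]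
    set F := ((2 * n - 2 * (k + 1)).factorial : ℝ)
    set P := ∏ j ∈ Finset.range k, ((2 * n : ℝ) - 1 - 2 * j)
    push_cast
    linear_combination (F * 2 ^ k * 2 * (k.factorial : ℝ) * P * ((2 * n : ℝ) - 1 - 2 * k)) * e4

/-- Monotonicity in `n`. -/
theorem ratio_mono (n k : ℕ) (hk : k ≤ n) :
    (2 * n : ℝ) ^ k * ∏ j ∈ Finset.range k, ((2 * k : ℝ) - 1 - 2 * j) ≤
      (2 * k : ℝ) ^ k * ∏ j ∈ Finset.range k, ((2 * n : ℝ) - 1 - 2 * j) := by
  have h1 : (2 * n : ℝ) ^ k = ∏ _j ∈ Finset.range k, (2 * n : ℝ) := by simp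
  have h2 : (2 * k : ℝ) ^ k = ∏ _j ∈ Finset.range k, (2 * k : ℝ) := by simp
  rw [h1, h2, ← Finset.prod_mul_distrib, ← Finset.prod_mul_distrib]
  have hk' : (k : ℝ) ≤ n := by exact_mod_cast hk
  refine Finset.prod_le_prod (fun j hj => ?_) fun j hj => ?_
  · have h3 : (j : ℝ) + 1 ≤ k := by exact_mod_cast Finset.mem_range.1 hj
    have : 0 ≤ (2 * k : ℝ) - 1 - 2 * j := by linarith
    positivity
  · have : (0 : ℝ) ≤ j := Nat.cast_nonneg j
    nlinarith

theorem choose_three_succ (m : ℕ) : ((3 * (m + 1)).choose (m + 1) : ℝ) ≤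
    (27 / 4) * ((3 * m).choose m : ℝ) := by
  have a1 := Nat.add_choose_mul_factorial_mul_factorial (2 * (m + 1)) (m + 1)
  have a2 := Nat.add_choose_mul_factorial_mul_factorial (2 * m) m
  have b1 : 2 * (m + 1) + (m + 1) = 3 * m + 1 + 1 + 1 := by ring
  have b2 : 2 * m + m = 3 * m := by ring
  have b3 : 2 * (m + 1) = 2 * m + 1 + 1 := by ring
  rw [b2] at a2
  rw [b1, b3, Nat.factorial_succ (2 * m + 1), Nat.factorial_succ (2 * m), Nat.factorial_succ m,
    Nat.factorial_succ (3 * m + 1 + 1), Nat.factorial_succ (3 * m + 1),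
    Nat.factorial_succ (3 * m)] at a1
  have b4 : 3 * (m + 1) = 3 * m + 1 + 1 + 1 := by ring
  rw [b4]
  have a1' := congrArg (fun t : ℕ => (t : ℝ)) a1
  have a2' := congrArg (fun t : ℕ => (t : ℝ)) a2
  push_cast at a1' a2'
  set c1 : ℝ := ((3 * m + 1 + 1 + 1).choose (m + 1) : ℝ)
  set c0 : ℝ := ((3 * m).choose m : ℝ)
  have hF : (0 : ℝ) < ((2 * m).factorial : ℝ) * (m.factorial : ℝ) := by positivity
  have hm0 : (0 : ℝ) ≤ m := Nat.cast_nonneg m
  have hc0 : 0 ≤ c0 := Nat.cast_nonneg _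
  have a3 : c1 * ((2 * m + 2) * (2 * m + 1) * (m + 1)) =
      c0 * ((3 * m + 3) * (3 * m + 2) * (3 * m + 1)) := by
    refine mul_right_cancel₀ hF.ne' ?_
    linear_combination a1' - ((3 * m + 3) * (3 * m + 2) * (3 * m + 1)) * a2'
  have a4 : c0 * ((3 * m + 3) * (3 * m + 2) * (3 * m + 1)) ≤
      (27 / 4 * c0) * ((2 * m + 2) * (2 * m + 1) * (m + 1)) := by
    have : ((3 * m + 3) * (3 * m + 2) * (3 * m + 1) : ℝ) ≤
        27 / 4 * ((2 * m + 2) * (2 * m + 1) * (m + 1)) := by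
      nlinarith [mul_nonneg hm0 hm0]
    nlinarith
  rw [← a3] at a4
  exact le_of_mul_le_mul_right a4 (by positivity)

theorem choose_three (k : ℕ) : ((3 * (k + 2)).choose (k + 2) : ℝ) ≤ 15 * (27 / 4) ^ k := by
  induction k with
  | zero => norm_num [Nat.choose]
  | succ k ih =>
    have h1 := choose_three_succ (k + 2)
    have h2 : k + 1 + 2 = k + 2 + 1 := by ring
    rw [pow_succ, h2]
    linarith

theorem key_num (k : ℕ) (hk : 1 ≤ k) :
    6 * ((∏ j ∈ Finset.range k, ((2 * k : ℝ) + 2 * j)) *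
      ∏ j ∈ Finset.range (2 * k), ((2 * k : ℝ) + 2 * j)) =
    16 ^ k * ((2 * k).factorial : ℝ) * (∏ j ∈ Finset.range k, ((2 * k : ℝ) - 1 - 2 * j)) *
      ((3 * k).choose k : ℝ) := by
  have ha := prod_gen k k hk
  have hb := prod_gen k (2 * k) hk
  have hc := choose_prod k k le_rfl
  have hd := Nat.add_choose_mul_factorial_mul_factorial (2 * k) k
  have b2 : 2 * k + k = 3 * k := by ring
  rw [b2] at hd
  have hd' := congrArg (fun t : ℕ => (t : ℝ)) hd
  push_cast at hd'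
  set a := ∏ j ∈ Finset.range k, ((2 * k : ℝ) + 2 * j)
  set b := ∏ j ∈ Finset.range (2 * k), ((2 * k : ℝ) + 2 * j)
  set Q := ∏ j ∈ Finset.range k, ((2 * k : ℝ) - 1 - 2 * j)
  set c := ((3 * k).choose k : ℝ)
  set F := ((k - 1).factorial : ℝ) with hF
  have hF0 : 0 < F := by rw [hF]; positivity
  have hk0 : (0 : ℝ) < k := by exact_mod_cast hk
  have e1 : (k.factorial : ℝ) = k * F := by
    rw [hF, ← Nat.mul_factorial_pred (by omega : k ≠ 0)]
    push_cast
    rfl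
  have e2 : ((2 * k).factorial : ℝ) = 2 * k * ((k + k - 1).factorial : ℝ) := by
    have h1 := Nat.mul_factorial_pred (by omega : 2 * k ≠ 0)
    rw [← h1]
    have h2 : 2 * k - 1 = k + k - 1 := by omega
    rw [h2]
    push_cast
    rfl
  have e3 : ((3 * k).factorial : ℝ) = 3 * k * ((k + 2 * k - 1).factorial : ℝ) := by
    have h1 := Nat.mul_factorial_pred (by omega : 3 * k ≠ 0)
    rw [← h1]
    have h2 : 3 * k - 1 = k + 2 * k - 1 := by omega
    rw [h2]
    push_cast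
    rfl
  simp only [Nat.choose_self, Nat.cast_one, one_mul, Nat.sub_self, Nat.factorial_zero] at hc
  have hK : (0 : ℝ) < (k.factorial : ℝ) := by positivity
  refine mul_right_cancel₀ (b := (k.factorial : ℝ) ^ 2) (by positivity) ?_
  have f1 : 6 * (a * b) * (k.factorial : ℝ) ^ 2 =
      8 ^ k * ((2 * k).factorial : ℝ) * ((3 * k).factorial : ℝ) := by
    rw [e1, e2, e3]
    have p8 : (8 : ℝ) ^ k = 2 ^ k * 2 ^ (2 * k) := by
      rw [pow_mul, ← mul_pow]
      norm_num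
    rw [p8]
    calc _ = 6 * k ^ 2 * ((a * F) * (b * F)) := by ring
      _ = _ := by rw [ha, hb]; ring
  rw [f1, ← hd']
  have p16 : (16 : ℝ) ^ k = 8 ^ k * 2 ^ k := by
    rw [← mul_pow]
    norm_num
  rw [p16]
  linear_combination (-(8 : ℝ) ^ k * ((2 * k).factorial : ℝ) * c * (k.factorial : ℝ)) * hc

/-- The term of order `k`. -/
theorem term_le (n k : ℕ) (hk : 1 ≤ k) (hkn : k ≤ n) (c s : ℝ) (hc : 0 ≤ c) (hs : 0 < s) (u : ℝ)
    (hu : 0 ≤ u) :
    (n.choose k : ℝ) * (2 ^ (n - k) * (((2 * n - 2 * k).factorial : ℝ) /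
      ((2 * k).factorial : ℝ))) * (4 ^ k * (k.factorial : ℝ) * (((2 * k : ℝ)⁻¹) ^ k *
      ((s⁻¹) ^ k * (u * (2 * n * c) ^ k * ∏ j ∈ Finset.range (2 * k), ((2 * k : ℝ) + 2 * j)) *
        ∏ j ∈ Finset.range k, ((2 * k : ℝ) + 2 * j)))) ≤
    2 ^ n * ((2 * n).factorial : ℝ) * (u / 6 * ((16 * c / s) ^ k * ((3 * k).choose k : ℝ))) := by
  have h1 := key_num k hk
  have h2 := choose_prod n k hkn
  have h3 := ratio_mono n k hkn
  have hQn := odd_pos_prod n k hkn
  have hQk := odd_pos_prod k k le_rfl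
  set a := ∏ j ∈ Finset.range k, ((2 * k : ℝ) + 2 * j)
  set b := ∏ j ∈ Finset.range (2 * k), ((2 * k : ℝ) + 2 * j)
  set Qk := ∏ j ∈ Finset.range k, ((2 * k : ℝ) - 1 - 2 * j)
  set Qn := ∏ j ∈ Finset.range k, ((2 * n : ℝ) - 1 - 2 * j)
  set C3 := ((3 * k).choose k : ℝ)
  have hC3 : 0 ≤ C3 := Nat.cast_nonneg _
  have hk0 : (0 : ℝ) < k := by exact_mod_cast hk
  have h2n : (2 : ℝ) ^ n = 2 ^ (n - k) * 2 ^ k := by
    rw [← pow_add]
    congr 1
    omega
  -- LHS
  have e1 : (n.choose k : ℝ) * (2 ^ (n - k) * (((2 * n - 2 * k).factorial : ℝ) /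
      ((2 * k).factorial : ℝ))) * (4 ^ k * (k.factorial : ℝ) * (((2 * k : ℝ)⁻¹) ^ k *
      ((s⁻¹) ^ k * (u * (2 * n * c) ^ k * b) * a))) =
      2 ^ n * ((2 * n).factorial : ℝ) * (u * ((c / s) ^ k * ((2 * n : ℝ) ^ k / Qn / (2 * k) ^ k) *
        (a * b / ((2 * k).factorial : ℝ)))) := by
    rw [← h2, h2n]
    have p4 : (4 : ℝ) ^ k = 2 ^ k * 2 ^ k := by
      rw [← mul_pow]
      norm_num
    rw [p4, div_pow, mul_pow (2 * n : ℝ) c, inv_pow, inv_pow]
    have : (2 * k : ℝ) ^ k ≠ 0 := by positivity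
    have hsk : s ^ k ≠ 0 := by positivity
    have hf : ((2 * k).factorial : ℝ) ≠ 0 := by positivity
    have hQn' := hQn.ne'
    field_simp
  rw [e1]
  refine mul_le_mul_of_nonneg_left ?_ (by positivity)
  have e2 : (2 * n : ℝ) ^ k / Qn / (2 * k) ^ k ≤ 1 / Qk := by
    rw [div_div, div_le_div_iff₀ (by positivity) hQk]
    linarith
  have ha : 0 < a := Finset.prod_pos fun j _ => by positivity
  have hb : 0 < b := Finset.prod_pos fun j _ => by positivity
  have e3 : (c / s) ^ k * ((2 * n : ℝ) ^ k / Qn / (2 * k) ^ k) *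
      (a * b / ((2 * k).factorial : ℝ)) ≤ (c / s) ^ k * (1 / Qk) *
      (a * b / ((2 * k).factorial : ℝ)) := by
    refine mul_le_mul_of_nonneg_right ?_ (by positivity)
    exact mul_le_mul_of_nonneg_left e2 (by positivity)
  have e4 : (c / s) ^ k * (1 / Qk) * (a * b / ((2 * k).factorial : ℝ)) =
      1 / 6 * ((16 * c / s) ^ k * C3) := by
    have h5 : a * b = 16 ^ k * ((2 * k).factorial : ℝ) * Qk * C3 / 6 := by linarith
    rw [h5, mul_div_assoc 16 c s, mul_pow]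
    have hf : ((2 * k).factorial : ℝ) ≠ 0 := by positivity
    have hQk' := hQk.ne'
    field_simp
  calc _ ≤ u * (1 / 6 * ((16 * c / s) ^ k * C3)) := by
        refine mul_le_mul_of_nonneg_left ?_ hu
        rw [← e4]
        exact e3
    _ = _ := by ring

end Pool.Agent.Frob61
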