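import Pool.Agent.Lib.Frob61.Term

/-!
# Sectional curvature bounds and Frobenius norms
-/

set_option linter.unusedSectionVars false

open MeasureTheory Finset Function MvPolynomial Pool.Agent.H69Gauss Pool.Agent.H69Hopf

namespace Pool.Agent.Frob61

/-! ### Symmetric matrices -/

theorem quad_add {N : ℕ} (A : Fin N → Fin N → ℝ) (hs : ∀ i j, A i j = A j i) (y z : Fin N → ℝ)
    (s : ℝ) : ∑ i, ∑ j, A i j * (y i + s * z i) * (y j + s * z j) =
      ∑ i, ∑ j, A i j * y i * y j + 2 * s * ∑ i, ∑ j, A i j * y i * z j +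
        s ^ 2 * ∑ i, ∑ j, A i j * z i * z j := by
  have h1 : ∑ i, ∑ j, A i j * z i * y j = ∑ i, ∑ j, A i j * y i * z j := by
    rw [Finset.sum_comm]
    refine Finset.sum_congr rfl fun i _ => Finset.sum_congr rfl fun j _ => ?_
    rw [hs j i]
    ring
  have h2 : ∑ i, ∑ j, A i j * (y i + s * z i) * (y j + s * z j) =
      ∑ i, ∑ j, A i j * y i * y j + s * ∑ i, ∑ j, A i j * y i * z j +
        s * ∑ i, ∑ j, A i j * z i * y j + s ^ 2 * ∑ i, ∑ j, A i j * z i * z j := by
    simp only [Finset.mul_sum, ← Finset.sum_add_distrib]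
    refine Finset.sum_congr rfl fun i _ => Finset.sum_congr rfl fun j _ => ?_
    ring
  rw [h2, h1]
  ring

theorem sq_le_of_quad {N : ℕ} (A : Fin N → Fin N → ℝ) (hs : ∀ i j, A i j = A j i) {μ : ℝ}
    (hμ : 0 ≤ μ) (h : ∀ y : Fin N → ℝ, |∑ i, ∑ j, A i j * y i * y j| ≤ μ * ∑ i, y i ^ 2) :
    ∑ i, ∑ j, A i j ^ 2 ≤ N * μ ^ 2 := by
  have hcol : ∀ j, ∑ i, A i j ^ 2 ≤ μ ^ 2 := by
    intro j
    set e : Fin N → ℝ := Pi.single j 1 with he
    set y : Fin N → ℝ := fun i => A i j with hy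
    have e1 : ∑ i, e i ^ 2 = 1 := by
      rw [Finset.sum_eq_single j]
      · simp [he]
      · intro b _ hb
        simp [he, hb]
      · simp
    have e2 : ∑ i, ∑ k, A i k * y i * e k = ∑ i, A i j ^ 2 := by
      refine Finset.sum_congr rfl fun i _ => ?_
      rw [Finset.sum_eq_single j]
      · simp [he, hy, sq]
      · intro b _ hb
        simp [he, hb]
      · simp
    have key : ∀ s : ℝ, 0 < s → 4 * s * ∑ i, A i j ^ 2 ≤
        2 * μ * (∑ i, A i j ^ 2 + s ^ 2) := by
      intro s hs0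
      have p1 := (abs_le.1 (h fun i => y i + s * e i)).2
      have p2 := (abs_le.1 (h fun i => y i + (-s) * e i)).1
      rw [quad_add A hs] at p1 p2
      rw [e2] at p1 p2
      have n1 : ∀ r : ℝ, ∑ i, (y i + r * e i) ^ 2 =
          ∑ i, A i j ^ 2 + 2 * r * ∑ i, y i * e i + r ^ 2 := by
        intro r
        have : r ^ 2 = r ^ 2 * ∑ i, e i ^ 2 := by rw [e1, mul_one]
        rw [this]
        simp only [Finset.mul_sum, ← Finset.sum_add_distrib]
        refine Finset.sum_congr rfl fun i _ => ?_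
        rw [hy]
        ring
      rw [n1] at p1 p2
      nlinarith
    have hS : 0 ≤ ∑ i, A i j ^ 2 := Finset.sum_nonneg fun _ _ => sq_nonneg _
    rcases hμ.eq_or_lt with h0 | h0
    · have := key 1 one_pos
      rw [← h0] at this ⊢
      nlinarith
    · have := key μ h0
      have h3 : 2 * μ * (∑ i, A i j ^ 2) ≤ 2 * μ * μ ^ 2 := by nlinarith
      exact le_of_mul_le_mul_left h3 (by positivity)
  rw [Finset.sum_comm]
  calc ∑ j, ∑ i, A i j ^ 2 ≤ ∑ _j : Fin N, μ ^ 2 := Finset.sum_le_sum fun j _ => hcol j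
    _ = N * μ ^ 2 := by simp

/-! ### Fourth moments -/

theorem EX_four {X : Type*} [Fintype X] [DecidableEq X] (f : X → X → X → X → ℝ) :
    EX (fun x : Fin 4 → X => f (x 0) (x 1) (x 2) (x 3)) =
      ∑ p, ∑ r, (f p p r r + f p r p r + f p r r p) := by
  have h2 : ∀ (g : (Fin 2 → X) → ℝ), EX g = ∑ r, g ![r, r] := by
    intro g
    have h0 := EX_add_two (n := 0) g
    rw [Fin.sum_univ_succ, Finset.univ_eq_empty, Finset.sum_empty, add_zero, EX_zero] at h0
    rw [h0]
    unfold con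
    refine Finset.sum_congr rfl fun r _ => ?_
    congr 1
    funext i
    fin_cases i <;> rfl
  rw [EX_add_two]
  simp only [h2]
  rw [Fin.sum_univ_three]
  unfold con
  simp only [← Finset.sum_add_distrib]
  rw [Finset.sum_comm]
  refine Finset.sum_congr rfl fun p _ => Finset.sum_congr rfl fun r _ => ?_
  rfl

theorem int_four {N : ℕ} (f : Fin N → Fin N → Fin N → Fin N → ℝ) :
    ∫ x : Fin N → ℝ, (∑ a, ∑ b, ∑ c, ∑ d, f a b c d * x a * x b * x c * x d) ∂(gam (Fin N)) =
      ∑ p, ∑ r, (f p p r r + f p r p r + f p r r p) := by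
  rw [← EX_four f, EX_eq, LG_real]
  congr 1
  funext x
  rw [map_sum]
  have h1 : ∀ i : Fin 4 → Fin N, MvPolynomial.eval x (C (f (i 0) (i 1) (i 2) (i 3)) * pr i) =
      f (i 0) (i 1) (i 2) (i 3) * x (i 0) * x (i 1) * x (i 2) * x (i 3) := by
    intro i
    unfold pr
    rw [map_mul, eval_C, map_prod, Fin.prod_univ_four]
    simp only [eval_X]
    ring
  simp only [h1]
  rw [sum_fin4 (fun a b c d => f a b c d * x a * x b * x c * x d)]

theorem integrable_four {N : ℕ} (f : Fin N → Fin N → Fin N → Fin N → ℝ) :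
    Integrable (fun x : Fin N → ℝ => ∑ a, ∑ b, ∑ c, ∑ d, f a b c d * x a * x b * x c * x d)
      (gam (Fin N)) := by
  have h := integrable_eval (∑ a : Fin N, ∑ b : Fin N, ∑ c : Fin N, ∑ d : Fin N,
    C (f a b c d) * X a * X b * X c * X d : MvPolynomial (Fin N) ℝ)
  refine h.congr (Filter.Eventually.of_forall fun x => ?_)
  simp

/-! ### The estimate -/

/-- Ricci contraction. -/
def ric {N : ℕ} (T : Arr N) (j l : Fin N) : ℝ := ∑ i, T i j i l

/-- The Jacobi operator. -/
def jac {N : ℕ} (T : Arr N) (x : Fin N → ℝ) (i j : Fin N) : ℝ := ∑ a, ∑ c, T a i c j * x a * x c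

theorem ev_jac {N : ℕ} (T : Arr N) (x y : Fin N → ℝ) :
    ev T x y x y = ∑ i, ∑ j, jac T x i j * y i * y j := by
  unfold ev jac
  simp only [Finset.sum_mul]
  rw [Finset.sum_comm]
  refine Finset.sum_congr rfl fun i _ => ?_
  have h1 : ∀ a, (∑ c, ∑ j, T a i c j * x a * y i * x c * y j) =
      ∑ j, ∑ c, T a i c j * x a * x c * y i * y j := by
    intro a
    rw [Finset.sum_comm]
    refine Finset.sum_congr rfl fun j _ => Finset.sum_congr rfl fun c _ => ?_
    ring
  simp only [h1]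
  rw [Finset.sum_comm]

theorem jac_symm {N : ℕ} {T : Arr N} (h : IsAlgCurv T) (x : Fin N → ℝ) (i j : Fin N) :
    jac T x i j = jac T x j i := by
  unfold jac
  rw [Finset.sum_comm]
  refine Finset.sum_congr rfl fun a _ => Finset.sum_congr rfl fun c _ => ?_
  rw [h.pair c i a j]
  ring

theorem sec_bound {N : ℕ} {T : Arr N} (h : IsAlgCurv T) {m : ℝ} (hm : 0 ≤ m)
    (hsec : ∀ x y : Fin N → ℝ, |ev T x y x y| ≤ m * area2 x y) :
    3 / 2 * fro T + ∑ j, ∑ l, ric T j l ^ 2 ≤ (N : ℝ) ^ 2 * (N + 2) * m ^ 2 := by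
  -- pointwise
  have hpt : ∀ x : Fin N → ℝ, ∑ i, ∑ j, jac T x i j ^ 2 ≤ N * m ^ 2 * (∑ i, x i ^ 2) ^ 2 := by
    intro x
    have h1 := sq_le_of_quad (jac T x) (jac_symm h x) (μ := m * ∑ i, x i ^ 2)
      (mul_nonneg hm (Finset.sum_nonneg fun _ _ => sq_nonneg _)) (fun y => by
        rw [← ev_jac]
        refine (hsec x y).trans ?_
        rw [mul_assoc]
        refine mul_le_mul_of_nonneg_left ?_ hm
        unfold area2
        linarith [sq_nonneg (∑ i, x i * y i)])
    refine h1.trans (le_of_eq ?_)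
    ring
  -- as a quartic form
  set f : Fin N → Fin N → Fin N → Fin N → ℝ := fun a b c d =>
    ∑ i, ∑ j, T a i b j * T c i d j with hf
  have h2 : ∀ x : Fin N → ℝ, ∑ i, ∑ j, jac T x i j ^ 2 =
      ∑ a, ∑ b, ∑ c, ∑ d, f a b c d * x a * x b * x c * x d := by
    intro x
    have h3 : ∀ i j, jac T x i j ^ 2 = ∑ a, ∑ b, ∑ c, ∑ d,
        T a i b j * T c i d j * x a * x b * x c * x d := by
      intro i j
      unfold jac
      rw [sq, Finset.sum_mul]
      refine Finset.sum_congr rfl fun a _ => ?_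
      rw [Finset.sum_mul]
      refine Finset.sum_congr rfl fun b _ => ?_
      rw [Finset.mul_sum]
      refine Finset.sum_congr rfl fun c _ => ?_
      rw [Finset.mul_sum]
      refine Finset.sum_congr rfl fun d _ => ?_
      ring
    simp only [h3, hf, Finset.sum_mul]
    have h4 : ∀ F : Fin N → Fin N → Fin N → Fin N → Fin N → Fin N → ℝ,
        (∑ i, ∑ j, ∑ a, ∑ b, ∑ c, ∑ d, F i j a b c d) =
        ∑ a, ∑ b, ∑ c, ∑ d, ∑ i, ∑ j, F i j a b c d := by
      intro F
      have e1 : (∑ i, ∑ j, ∑ a, ∑ b, ∑ c, ∑ d, F i j a b c d) =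
          ∑ p : (Fin N × Fin N) × (Fin N × Fin N × Fin N × Fin N),
            F p.1.1 p.1.2 p.2.1 p.2.2.1 p.2.2.2.1 p.2.2.2.2 := by
        simp only [Fintype.sum_prod_type]
      have e2 : (∑ a, ∑ b, ∑ c, ∑ d, ∑ i, ∑ j, F i j a b c d) =
          ∑ p : (Fin N × Fin N × Fin N × Fin N) × (Fin N × Fin N),
            F p.2.1 p.2.2 p.1.1 p.1.2.1 p.1.2.2.1 p.1.2.2.2 := by
        simp only [Fintype.sum_prod_type]
      rw [e1, e2, ← Equiv.sum_comp (Equiv.prodComm _ _)]
      rfl
    exact h4 (fun i j a b c d => T a i b j * T c i d j * x a * x b * x c * x d)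
  have h5 : ∫ x : Fin N → ℝ, (∑ i, ∑ j, jac T x i j ^ 2) ∂(gam (Fin N)) ≤
      ∫ x : Fin N → ℝ, (N * m ^ 2 * (∑ i, x i ^ 2) ^ 2) ∂(gam (Fin N)) := by
    refine integral_mono ?_ ((integrable_nsq_pow 2).const_mul _) hpt
    simp only [h2]
    exact integrable_four f
  have h6 : ∫ x : Fin N → ℝ, (N * m ^ 2 * (∑ i, x i ^ 2) ^ 2) ∂(gam (Fin N)) =
      N * m ^ 2 * (N * (N + 2)) := by
    rw [integral_const_mul]
    congr 1
    have h7 := LG_nsq_pow (ι := Fin N) 2
    rw [LG_real] at h7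
    simp only [map_pow, eval_nsq, Fintype.card_fin, Finset.prod_range_succ,
      Finset.prod_range_zero] at h7
    rw [h7]
    push_cast
    ring
  have h8 : ∫ x : Fin N → ℝ, (∑ i, ∑ j, jac T x i j ^ 2) ∂(gam (Fin N)) =
      ∑ j, ∑ l, ric T j l ^ 2 + fro T + fro T / 2 := by
    simp only [h2]
    rw [int_four]
    simp only [Finset.sum_add_distrib]
    congr 1
    · congr 1
      · -- Ricci
        have e1 : (∑ p, ∑ r, f p p r r) = ∑ i, ∑ j, ∑ p, ∑ r, T p i p j * T r i r j := by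
          simp only [hf]
          have : ∀ F : Fin N → Fin N → Fin N → Fin N → ℝ,
              (∑ p, ∑ r, ∑ i, ∑ j, F p r i j) = ∑ i, ∑ j, ∑ p, ∑ r, F p r i j := by
            intro F
            have e1 : (∑ p, ∑ r, ∑ i, ∑ j, F p r i j) =
                ∑ q : (Fin N × Fin N) × (Fin N × Fin N), F q.1.1 q.1.2 q.2.1 q.2.2 := by
              simp only [Fintype.sum_prod_type]
            have e2 : (∑ i, ∑ j, ∑ p, ∑ r, F p r i j) =
                ∑ q : (Fin N × Fin N) × (Fin N × Fin N), F q.2.1 q.2.2 q.1.1 q.1.2 := by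
              simp only [Fintype.sum_prod_type]
            rw [e1, e2, ← Equiv.sum_comp (Equiv.prodComm _ _)]
            rfl
          exact this _
        rw [e1]
        refine Finset.sum_congr rfl fun i _ => Finset.sum_congr rfl fun j _ => ?_
        unfold ric
        rw [sq, Finset.sum_mul_sum]
      · simp only [hf]
        unfold fro
        refine Finset.sum_congr rfl fun p _ => ?_
        rw [Finset.sum_comm]
        refine Finset.sum_congr rfl fun i _ => Finset.sum_congr rfl fun r _ =>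
          Finset.sum_congr rfl fun j _ => ?_
        ring
    · rw [← fro_cross h]
      simp only [Fintype.sum_prod_type, hf]
      refine Finset.sum_congr rfl fun p _ => ?_
      rw [Finset.sum_comm]
      refine Finset.sum_congr rfl fun i _ => Finset.sum_congr rfl fun r _ =>
        Finset.sum_congr rfl fun j _ => ?_
      rw [h.pair r i p j]
  rw [h6, h8] at h5
  refine le_trans (le_of_eq ?_) (h5.trans (le_of_eq ?_)) <;> ring

end Pool.Agent.Frob61
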