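import Pool.Agent.Lib.Frob61.Num

/-!
# Bounds for the individual terms
-/

set_option linter.unusedSectionVars false

open MeasureTheory Finset Function Pool.Agent.H69Gauss Pool.Agent.H69Hopf

namespace Pool.Agent.Frob61

variable {N : ℕ}

theorem sqrt_fro_pow_even {d : ℕ} (M : Arr d) (r : ℕ) : √(fro M) ^ (2 * r) = fro M ^ r := by
  rw [pow_mul, Real.sq_sqrt (fro_nonneg M)]

theorem sqrt_fro_pow_odd_le {d : ℕ} (M : Arr d) (r : ℕ) {t : ℝ} (ht : 0 < t) :
    √(fro M) ^ (2 * r + 1) ≤ t / 2 * fro M ^ r + t⁻¹ / 2 * fro M ^ (r + 1) := by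
  rw [← sqrt_fro_pow_even M r, ← sqrt_fro_pow_even M (r + 1)]
  set x := √(fro M) with hx
  have hx0 : 0 ≤ x := Real.sqrt_nonneg _
  have h1 : x ^ (2 * r + 1) = x ^ (2 * r) * x := by ring
  have h2 : x ^ (2 * (r + 1)) = x ^ (2 * r) * x ^ 2 := by ring
  rw [h1, h2]
  have h3 : x ≤ t / 2 + t⁻¹ / 2 * x ^ 2 := by
    have h4 : t⁻¹ / 2 * (x - t) ^ 2 = t⁻¹ / 2 * x ^ 2 - x + t / 2 := by
      field_simp
      ring
    have h5 : 0 ≤ t⁻¹ / 2 * (x - t) ^ 2 := by positivity
    linarith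
  calc x ^ (2 * r) * x ≤ x ^ (2 * r) * (t / 2 + t⁻¹ / 2 * x ^ 2) :=
        mul_le_mul_of_nonneg_left h3 (by positivity)
    _ = _ := by ring

theorem continuous_fro_gpull (d : ℕ) (S : Arr N) :
    Continuous (fun g : Fin d × Fin N → ℝ => fro (gpull S g)) := by
  unfold fro gpull
  fun_prop

theorem integrable_sqrt_fro (d k : ℕ) (S : Arr N) :
    Integrable (fun g : Fin d × Fin N → ℝ => √(fro (gpull S g)) ^ k) (gam (Fin d × Fin N)) := by
  have h1 : Integrable (fun g : Fin d × Fin N → ℝ => fro (gpull S g) ^ k + 1)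
      (gam (Fin d × Fin N)) := (integrable_fro k S).add (integrable_const _)
  refine h1.mono' ?_ ?_
  · exact ((continuous_fro_gpull d S).sqrt.pow k).aestronglyMeasurable
  · refine Filter.Eventually.of_forall fun g => ?_
    rw [Real.norm_eq_abs, abs_of_nonneg (by positivity)]
    set x := √(fro (gpull S g)) with hx
    have hx0 : 0 ≤ x := Real.sqrt_nonneg _
    have h2 : fro (gpull S g) = x ^ 2 := (Real.sq_sqrt (fro_nonneg _)).symm
    rw [h2, ← pow_mul, mul_comm 2 k, pow_mul]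
    nlinarith [sq_nonneg (x ^ k - 1)]

/-- Moments of the Frobenius norm. -/
theorem moment_k [NeZero N] {S : Arr N} {q : ℝ} (hS : Bd S q) (hq : 0 < q) (k : ℕ)
    (hk : 2 ≤ k) :
    ∫ g : Fin (2 * k) × Fin N → ℝ, √(fro (gpull S g)) ^ k ∂(gam (Fin (2 * k) × Fin N)) ≤
      32 / 25 * q ^ k * ∏ j ∈ Finset.range (2 * k), ((2 * k : ℝ) + 2 * j) := by
  have hP : 0 < ∏ j ∈ Finset.range (2 * k), ((2 * k : ℝ) + 2 * j) :=
    Finset.prod_pos fun j _ => by
      have : (0 : ℝ) < k := by exact_mod_cast (by omega : 0 < k)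
      positivity
  rcases Nat.even_or_odd' k with ⟨r, hr | hr⟩
  · have h1 := moment hS (2 * k) r
    have h2 : ∫ g : Fin (2 * k) × Fin N → ℝ, √(fro (gpull S g)) ^ k
        ∂(gam (Fin (2 * k) × Fin N)) = ∫ g : Fin (2 * k) × Fin N → ℝ, fro (gpull S g) ^ r
        ∂(gam (Fin (2 * k) × Fin N)) := by
      congr 1
      funext g
      rw [← sqrt_fro_pow_even]
      congr 1
    rw [h2]
    refine h1.trans ?_
    have e1 : 4 * r = 2 * k := by omega
    have e2 : 2 * r = k := by omega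
    rw [e1, e2]
    push_cast
    have h3 : 0 ≤ q ^ k * ∏ j ∈ Finset.range (2 * k), ((2 * k : ℝ) + 2 * j) := by positivity
    nlinarith
  · -- odd case
    have hr1 : 1 ≤ r := by omega
    have hr1' : (1 : ℝ) ≤ r := by exact_mod_cast hr1
    have hkr : (k : ℝ) = 2 * r + 1 := by rw [hr]; push_cast; ring
    set t : ℝ := 36 * (k : ℝ) ^ 2 * q with ht
    have ht0 : 0 < t := by
      have : (0 : ℝ) < k := by rw [hkr]; positivity
      positivity
    have h1 := moment hS (2 * k) r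
    have h2 := moment hS (2 * k) (r + 1)
    have h3 : ∫ g : Fin (2 * k) × Fin N → ℝ, √(fro (gpull S g)) ^ k
        ∂(gam (Fin (2 * k) × Fin N)) ≤ ∫ g : Fin (2 * k) × Fin N → ℝ,
        (t / 2 * fro (gpull S g) ^ r + t⁻¹ / 2 * fro (gpull S g) ^ (r + 1))
        ∂(gam (Fin (2 * k) × Fin N)) := by
      refine integral_mono (integrable_sqrt_fro _ _ _)
        (((integrable_fro r S).const_mul _).add ((integrable_fro (r + 1) S).const_mul _))
        fun g => ?_
      have := sqrt_fro_pow_odd_le (gpull S g) r ht0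
      rw [← hr] at this
      exact this
    rw [integral_add ((integrable_fro r S).const_mul _) ((integrable_fro (r + 1) S).const_mul _),
      integral_const_mul, integral_const_mul] at h3
    set P := ∏ j ∈ Finset.range (2 * k), ((2 * k : ℝ) + 2 * j) with hPdef
    -- the products
    have p1 : (∏ j ∈ Finset.range (4 * r), (((2 * k : ℕ) : ℝ) + 2 * j)) *
        ((12 * r + 2) * (12 * r + 4)) = P := by
      have e1 : 2 * k = 4 * r + 1 + 1 := by omega
      rw [hPdef]
      conv_rhs => rw [e1]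
      rw [Finset.prod_range_succ, Finset.prod_range_succ]
      push_cast
      rw [hkr]
      ring
    have p2 : ∏ j ∈ Finset.range (4 * (r + 1)), (((2 * k : ℕ) : ℝ) + 2 * j) =
        P * ((12 * r + 6) * (12 * r + 8)) := by
      have e1 : 4 * (r + 1) = 2 * k + 1 + 1 := by omega
      rw [e1, Finset.prod_range_succ, Finset.prod_range_succ, hPdef]
      push_cast
      rw [hkr]
      ring
    set P0 := ∏ j ∈ Finset.range (4 * r), (((2 * k : ℕ) : ℝ) + 2 * j) with hP0
    rw [p2] at h2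
    have hP0' : P0 = P / ((12 * r + 2) * (12 * r + 4)) := by
      rw [← p1]
      field_simp
    have h4 : t / 2 * (q ^ (2 * r) * P0) = q ^ k * P * (18 * (k : ℝ) ^ 2 /
        ((12 * r + 2) * (12 * r + 4))) := by
      rw [hP0', ht, hr]
      rw [pow_succ]
      push_cast
      field_simp
      ring
    have h5 : t⁻¹ / 2 * (q ^ (2 * (r + 1)) * (P * ((12 * r + 6) * (12 * r + 8)))) =
        q ^ k * P * ((12 * r + 6) * (12 * r + 8) / (72 * (k : ℝ) ^ 2)) := by
      have hk0 : (k : ℝ) ≠ 0 := by rw [hkr]; positivity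
      have e2 : q ^ (2 * (r + 1)) = q ^ k * q := by rw [hr]; ring
      rw [e2, ht]
      field_simp
      ring
    have h6 : 18 * (k : ℝ) ^ 2 / ((12 * r + 2) * (12 * r + 4)) +
        (12 * r + 6) * (12 * r + 8) / (72 * (k : ℝ) ^ 2) ≤ 32 / 25 := by
      rw [hkr]
      have a1 : 18 * (2 * (r : ℝ) + 1) ^ 2 / ((12 * r + 2) * (12 * r + 4)) ≤ 162 / 224 := by
        rw [div_le_div_iff₀ (by positivity) (by norm_num)]
        nlinarith
      have a2 : (12 * (r : ℝ) + 6) * (12 * r + 8) / (72 * (2 * r + 1) ^ 2) ≤ 5 / 9 := by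
        rw [div_le_div_iff₀ (by positivity) (by norm_num)]
        nlinarith
      have a3 : (162 : ℝ) / 224 + 5 / 9 ≤ 32 / 25 := by norm_num
      linarith
    have h7 := mul_le_mul_of_nonneg_left h1 (by positivity : (0 : ℝ) ≤ t / 2)
    have h8 := mul_le_mul_of_nonneg_left h2 (by positivity : (0 : ℝ) ≤ t⁻¹ / 2)
    rw [h4] at h7
    rw [h5] at h8
    have h9 : 0 ≤ q ^ k * P := by positivity
    have h10 := mul_le_mul_of_nonneg_left h6 h9
    linarith

/-- Summation. -/
theorem sum_terms_le {u s : ℝ} (hs0 : 0 ≤ s) (hs : s ≤ 651 / 5000)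
    (hu : u ≤ 32 / 25) (m : ℕ) :
    ∑ j ∈ Finset.range m, u / 6 * (s ^ (j + 2) * ((3 * (j + 2)).choose (j + 2) : ℝ)) ≤ 1 / 2 := by
  have h1 : ∑ j ∈ Finset.range m, u / 6 * (s ^ (j + 2) * ((3 * (j + 2)).choose (j + 2) : ℝ)) ≤
      ∑ j ∈ Finset.range m, (32 / 25) / 6 * (15 * (651 / 5000) ^ 2 *
        (27 / 4 * (651 / 5000)) ^ j) := by
    refine Finset.sum_le_sum fun j _ => ?_
    refine mul_le_mul (by linarith) ?_ (by positivity) (by norm_num)
    calc s ^ (j + 2) * ((3 * (j + 2)).choose (j + 2) : ℝ) ≤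
        (651 / 5000) ^ (j + 2) * (15 * (27 / 4) ^ j) :=
          mul_le_mul (pow_le_pow_left₀ hs0 hs _) (choose_three j) (Nat.cast_nonneg _)
            (by positivity)
      _ = _ := by
          rw [mul_pow (27 / 4 : ℝ), pow_add]
          ring
  refine h1.trans ?_
  rw [← Finset.mul_sum, ← Finset.mul_sum]
  have h2 := geom_sum_mul_neg (27 / 4 * (651 / 5000) : ℝ) m
  have h3 : (0 : ℝ) ≤ (27 / 4 * (651 / 5000) : ℝ) ^ m := by positivity
  set G := ∑ i ∈ Finset.range m, (27 / 4 * (651 / 5000) : ℝ) ^ i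
  have h4 : G * (1 - 27 / 4 * (651 / 5000)) ≤ 1 := by linarith
  nlinarith

end Pool.Agent.Frob61
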