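import Pool.Agent.Lib.H69.Gauss.Moments

/-!
# Wick's formula, recursive form, and comparison of Gaussian expectations
-/

set_option linter.unusedSectionVars false

open Finset MvPolynomial Pool.Agent.H69Gauss

namespace Pool.Agent.Frob61

/-! ### Contractions -/

section con

variable {A B : Type*} [Fintype A] [Fintype B]

/-- Contraction of the first index with the index `t` of the tail. -/
def con {n : ℕ} (t : Fin (n + 1)) (Θ : (Fin (n + 2) → A) → ℝ) : (Fin n → A) → ℝ :=
  fun x => ∑ p, Θ (Fin.cons p (t.insertNth p x : Fin (n + 1) → A))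

/-- All complete contractions are bounded by `b`. -/
def BB : (n : ℕ) → ((Fin n → A) → ℝ) → ℝ → Prop
  | 0, Θ, b => |Θ fun i => i.elim0| ≤ b
  | 1, _, _ => True
  | (n + 2), Θ, b => ∀ t : Fin (n + 1), BB n (con t Θ) b

/-- Product of two arrays. -/
def ten {n : ℕ} (Θ : (Fin n → A) → ℝ) (D : (Fin n → B) → ℝ) : (Fin n → B × A) → ℝ :=
  fun x => Θ (fun i => (x i).2) * D (fun i => (x i).1)

theorem cons_insert_fst {n : ℕ} (t : Fin (n + 1)) (p : A × B) (x : Fin n → A × B) :
    (fun i => ((Fin.cons p (t.insertNth p x : Fin (n + 1) → A × B) : Fin (n + 2) → A × B) i).1) =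
      (Fin.cons p.1 (t.insertNth p.1 (fun i => (x i).1) : Fin (n + 1) → A) : Fin (n + 2) → A) := by
  funext i
  refine Fin.cases ?_ (fun i => ?_) i
  · simp
  · simp only [Fin.cons_succ]
    refine Fin.succAboveCases t ?_ (fun j => ?_) i
    · simp
    · simp

theorem cons_insert_snd {n : ℕ} (t : Fin (n + 1)) (p : A × B) (x : Fin n → A × B) :
    (fun i => ((Fin.cons p (t.insertNth p x : Fin (n + 1) → A × B) : Fin (n + 2) → A × B) i).2) =
      (Fin.cons p.2 (t.insertNth p.2 (fun i => (x i).2) : Fin (n + 1) → B) : Fin (n + 2) → B) := by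
  funext i
  refine Fin.cases ?_ (fun i => ?_) i
  · simp
  · simp only [Fin.cons_succ]
    refine Fin.succAboveCases t ?_ (fun j => ?_) i
    · simp
    · simp

theorem con_ten {n : ℕ} (t : Fin (n + 1)) (Θ : (Fin (n + 2) → A) → ℝ)
    (D : (Fin (n + 2) → B) → ℝ) : con t (ten Θ D) = ten (con t Θ) (con t D) := by
  funext x
  unfold con ten
  rw [Finset.sum_mul_sum, Fintype.sum_prod_type, Finset.sum_comm]
  refine Finset.sum_congr rfl fun a _ => Finset.sum_congr rfl fun b _ => ?_
  rw [cons_insert_fst, cons_insert_snd]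

theorem con_nonneg {n : ℕ} (t : Fin (n + 1)) {D : (Fin (n + 2) → B) → ℝ} (hD : ∀ x, 0 ≤ D x)
    (x : Fin n → B) : 0 ≤ con t D x :=
  Finset.sum_nonneg fun _ _ => hD _

end con

/-! ### Gaussian expectations -/

variable {X : Type*} [Fintype X] [DecidableEq X]

/-- Product of variables. -/
noncomputable def pr {n : ℕ} (x : Fin n → X) : MvPolynomial X ℝ := ∏ l, MvPolynomial.X (x l)

theorem pderiv_pr (p : X) : ∀ (n : ℕ) (x : Fin (n + 1) → X), pderiv p (pr x) =
    ∑ t : Fin (n + 1), (if x t = p then pr (fun l => x (t.succAbove l)) else 0) := by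
  intro n
  induction n with
  | zero =>
    intro x
    simp only [pr, Fin.prod_univ_succ, Finset.univ_eq_empty, Finset.prod_empty, mul_one,
      Fin.sum_univ_succ, Finset.sum_empty, add_zero]
    by_cases h : x 0 = p
    · rw [if_pos h, h, pderiv_X_self]
    · rw [if_neg h, pderiv_X_of_ne h]
  | succ n ih =>
    intro x
    have h0 : pr x = MvPolynomial.X (x 0) * pr (fun l : Fin (n + 1) => x l.succ) := by
      unfold pr
      rw [Fin.prod_univ_succ]
    rw [h0, pderiv_mul, ih]
    conv_rhs => rw [Fin.sum_univ_succ]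
    congr 1
    · by_cases h : x 0 = p
      · rw [if_pos h, h, pderiv_X_self, one_mul]
        simp
      · rw [if_neg h, pderiv_X_of_ne h, zero_mul]
    · rw [Finset.mul_sum]
      refine Finset.sum_congr rfl fun t _ => ?_
      by_cases h : x t.succ = p
      · rw [if_pos h, if_pos h]
        unfold pr
        rw [Fin.prod_univ_succ]
        simp
      · rw [if_neg h, if_neg h, mul_zero]

/-- Gaussian expectation of `∑ x, Ξ x * ∏ l, g (x l)`. -/
noncomputable def EX {n : ℕ} (Ξ : (Fin n → X) → ℝ) : ℝ := ∑ x, Ξ x * LG (pr x)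

theorem EX_eq {n : ℕ} (Ξ : (Fin n → X) → ℝ) : EX Ξ = LG (∑ x, C (Ξ x) * pr x) := by
  unfold EX
  rw [LG_sum]
  exact Finset.sum_congr rfl fun x _ => (LG_C_mul _ _).symm

theorem EX_zero (Ξ : (Fin 0 → X) → ℝ) : EX Ξ = Ξ fun i => i.elim0 := by
  unfold EX
  rw [Fintype.sum_unique]
  have h : (default : Fin 0 → X) = fun i => i.elim0 := Subsingleton.elim _ _
  rw [h]
  simp [pr, LG_one]

theorem EX_one (Ξ : (Fin 1 → X) → ℝ) : EX Ξ = 0 := by
  unfold EX
  refine Finset.sum_eq_zero fun x _ => ?_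
  have h : LG (pr x) = 0 := by
    have h0 : pr x = MvPolynomial.X (x 0) * 1 := by simp [pr]
    rw [h0, LG_X_mul]
    simp [LG_zero]
  rw [h, mul_zero]

theorem EX_add_two {n : ℕ} (Ξ : (Fin (n + 2) → X) → ℝ) :
    EX Ξ = ∑ t : Fin (n + 1), EX (con t Ξ) := by
  have h1 : ∀ (p : X) (y : Fin (n + 1) → X), LG (pr (Fin.cons p y : Fin (n + 2) → X)) =
      ∑ t : Fin (n + 1), (if y t = p then LG (pr (fun l => y (t.succAbove l))) else 0) := by
    intro p y
    have h0 : pr (Fin.cons p y : Fin (n + 2) → X) = MvPolynomial.X p * pr y := by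
      unfold pr
      rw [Fin.prod_univ_succ]
      simp
    rw [h0, LG_X_mul, pderiv_pr, LG_sum]
    refine Finset.sum_congr rfl fun t _ => ?_
    split_ifs
    · rfl
    · exact LG_zero
  have h2 : EX Ξ = ∑ p : X, ∑ y : Fin (n + 1) → X, Ξ (Fin.cons p y) *
      LG (pr (Fin.cons p y : Fin (n + 2) → X)) := by
    unfold EX
    rw [← Equiv.sum_comp (Fin.consEquiv (fun _ : Fin (n + 2) => X)), Fintype.sum_prod_type]
    rfl
  rw [h2]
  simp only [h1, Finset.mul_sum]
  have h3 : (∑ p : X, ∑ y : Fin (n + 1) → X, ∑ t : Fin (n + 1), Ξ (Fin.cons p y) *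
      (if y t = p then LG (pr (fun l => y (t.succAbove l))) else 0)) =
      ∑ t : Fin (n + 1), ∑ y : Fin (n + 1) → X, ∑ p : X, Ξ (Fin.cons p y) *
      (if y t = p then LG (pr (fun l => y (t.succAbove l))) else 0) := by
    rw [Finset.sum_comm]
    rw [Finset.sum_comm (s := (Finset.univ : Finset (Fin (n + 1))))]
    refine Finset.sum_congr rfl fun y _ => ?_
    rw [Finset.sum_comm]
  rw [h3]
  refine Finset.sum_congr rfl fun t _ => ?_
  have h4 : ∀ y : Fin (n + 1) → X, (∑ p : X, Ξ (Fin.cons p y) *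
      (if y t = p then LG (pr (fun l => y (t.succAbove l))) else 0)) =
      Ξ (Fin.cons (y t) y) * LG (pr (fun l => y (t.succAbove l))) := by
    intro y
    rw [Finset.sum_eq_single (y t)]
    · simp
    · intro p _ hp
      rw [if_neg (fun h => hp h.symm), mul_zero]
    · simp
  simp only [h4]
  rw [← Equiv.sum_comp (Fin.insertNthEquiv (fun _ : Fin (n + 1) => X) t),
    Fintype.sum_prod_type, Finset.sum_comm]
  unfold EX con
  refine Finset.sum_congr rfl fun x _ => ?_
  rw [Finset.sum_mul]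
  refine Finset.sum_congr rfl fun p _ => ?_
  simp [Fin.insertNthEquiv]

theorem EX_nonneg : ∀ (n : ℕ) (D : (Fin n → X) → ℝ), (∀ x, 0 ≤ D x) → 0 ≤ EX D
  | 0, D, h => by rw [EX_zero]; exact h _
  | 1, D, _ => by rw [EX_one]
  | (n + 2), D, h => by
    rw [EX_add_two]
    exact Finset.sum_nonneg fun t _ => EX_nonneg n _ (con_nonneg t h)

/-- Comparison. -/
theorem abs_EX_ten {A B : Type*} [Fintype A] [Fintype B] [DecidableEq A] [DecidableEq B] (b : ℝ)
    (hb : 0 ≤ b) :
    ∀ (n : ℕ) (Θ : (Fin n → A) → ℝ) (D : (Fin n → B) → ℝ), BB n Θ b → (∀ x, 0 ≤ D x) →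
      |EX (ten Θ D)| ≤ b * EX D
  | 0, Θ, D, h, hD => by
    rw [EX_zero, EX_zero]
    unfold ten
    rw [abs_mul, abs_of_nonneg (hD _)]
    refine mul_le_mul ?_ (le_of_eq ?_) (hD _) hb
    · have : (fun i : Fin 0 => (((fun i => i.elim0 : Fin 0 → B × A)) i).2) = fun i => i.elim0 := by
        funext i; exact i.elim0
      rw [this]
      exact h
    · congr 1
      exact Subsingleton.elim _ _
  | 1, Θ, D, _, _ => by
    rw [EX_one, EX_one]
    simp
  | (n + 2), Θ, D, h, hD => by
    rw [EX_add_two, EX_add_two, Finset.mul_sum]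
    refine (Finset.abs_sum_le_sum_abs _ _).trans (Finset.sum_le_sum fun t _ => ?_)
    rw [con_ten]
    exact abs_EX_ten b hb n _ _ (h t) (con_nonneg t hD)

end Pool.Agent.Frob61
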